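import Pool.Agent.Q270.AF.Ex1

/-!
# Sums over blocks, and the points where a polynomial is small
-/

set_option autoImplicit false

namespace Pool.Agent.Q270.AF

open Polynomial

/-- sums over blocks, the bad blocks being in a small set -/
theorem blocks {f : ℕ → ℂ} (hf : ∀ n, ‖f n‖ ≤ 1) {A B X : ℕ} (hX : 1 ≤ X) {E : ℝ} (hE : 0 ≤ E)
    (bad : Finset ℕ) (h : ∀ X₁ X₂ : ℕ, A ≤ X₁ → X₂ ≤ B → X₂ ≤ X₁ + X →
      (∃ n ∈ Finset.Ioc X₁ X₂, n ∉ bad) → ‖∑ n ∈ Finset.Ioc X₁ X₂, f n‖ ≤ E) :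
    ‖∑ n ∈ Finset.Ioc A B, f n‖ ≤ (((B - A : ℕ) : ℝ) / X + 1) * E + bad.card := by
  classical
  -- one block
  have one : ∀ X₁ X₂ : ℕ, A ≤ X₁ → X₂ ≤ B → X₂ ≤ X₁ + X → ‖∑ n ∈ Finset.Ioc X₁ X₂, f n‖ ≤
      E + ((bad ∩ Finset.Ioc X₁ X₂).card : ℝ) := by
    intro X₁ X₂ h1 h2 h3
    by_cases h4 : ∃ n ∈ Finset.Ioc X₁ X₂, n ∉ bad
    · have h5 := h X₁ X₂ h1 h2 h3 h4
      have h6 : (0 : ℝ) ≤ ((bad ∩ Finset.Ioc X₁ X₂).card : ℝ) := Nat.cast_nonneg _
      linarith
    · push Not at h4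
      have h5 : bad ∩ Finset.Ioc X₁ X₂ = Finset.Ioc X₁ X₂ :=
        Finset.inter_eq_right.2 fun n hn => h4 n hn
      rw [h5]
      have h6 : ‖∑ n ∈ Finset.Ioc X₁ X₂, f n‖ ≤ ((Finset.Ioc X₁ X₂).card : ℝ) := by
        calc ‖∑ n ∈ Finset.Ioc X₁ X₂, f n‖ ≤ ∑ n ∈ Finset.Ioc X₁ X₂, ‖f n‖ := norm_sum_le _ _
          _ ≤ ∑ _n ∈ Finset.Ioc X₁ X₂, (1 : ℝ) := Finset.sum_le_sum fun n _ => hf n
          _ = _ := by rw [Finset.sum_const, nsmul_eq_mul, mul_one]
      linarith
  have key : ∀ k : ℕ, ∀ C ≤ B, A ≤ C → C ≤ A + k * X → ‖∑ n ∈ Finset.Ioc A C, f n‖ ≤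
      k * E + ((bad ∩ Finset.Ioc A C).card : ℝ) := by
    intro k
    induction k with
    | zero =>
      intro C _ hAC hC
      rw [Finset.Ioc_eq_empty (by omega)]
      simp
    | succ k ih =>
      intro C hCB hAC hC
      rcases le_total C (A + k * X) with h1 | h1
      · refine (ih C hCB hAC h1).trans ?_
        push_cast
        linarith
      · obtain ⟨D, hD⟩ : ∃ D : ℕ, D = A + k * X := ⟨_, rfl⟩
        rw [← hD] at h1
        have hAD : A ≤ D := by omega
        have hCX : C ≤ D + X := by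
          rw [Nat.succ_mul] at hC
          omega
        have h2 : Finset.Ioc A C = Finset.Ioc A D ∪ Finset.Ioc D C := by
          rw [Finset.Ioc_union_Ioc_eq_Ioc hAD h1]
        have h3 : Disjoint (Finset.Ioc A D) (Finset.Ioc D C) := by
          rw [Finset.disjoint_left]
          intro x hx hx'
          rw [Finset.mem_Ioc] at hx hx'
          omega
        have h4 := ih D (h1.trans hCB) hAD (by omega)
        have h5 := one D C hAD hCB hCX
        have h6 : ((bad ∩ Finset.Ioc A C).card : ℝ) = ((bad ∩ Finset.Ioc A D).card : ℝ) +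
            ((bad ∩ Finset.Ioc D C).card : ℝ) := by
          rw [h2, Finset.inter_union_distrib_left, Finset.card_union_of_disjoint]
          · push_cast
            ring
          · exact h3.mono Finset.inter_subset_right Finset.inter_subset_right
        rw [h6, h2, Finset.sum_union h3]
        refine (norm_add_le _ _).trans ?_
        push_cast
        linarith
  rcases le_total B A with hAB | hAB
  · rw [Finset.Ioc_eq_empty (by omega), Finset.sum_empty, norm_zero]
    positivity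
  · have h1 := key ((B - A) / X + 1) B le_rfl hAB (by
      have h2 := Nat.div_add_mod (B - A) X
      have h3 := Nat.mod_lt (B - A) (show X > 0 by omega)
      have h4 : ((B - A) / X + 1) * X = X * ((B - A) / X) + X := by ring
      rw [h4]
      omega)
    refine h1.trans ?_
    have h2 : (((B - A) / X + 1 : ℕ) : ℝ) ≤ ((B - A : ℕ) : ℝ) / X + 1 := by
      push_cast
      have := @Nat.cast_div_le ℝ _ _ _ (B - A) X
      linarith
    have h3 : ((bad ∩ Finset.Ioc A B).card : ℝ) ≤ bad.card := by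
      exact_mod_cast Finset.card_le_card Finset.inter_subset_left
    have h4 := mul_le_mul_of_nonneg_right h2 hE
    linarith

/-- integers whose images are close to a point are few -/
theorem near_card {y : ℕ → ℝ} {Ω : Finset ℕ} {c τ : ℝ} (hc : 0 ≤ c) (hτ : 0 ≤ τ)
    (hsep : ∀ n ∈ Ω, ∀ m ∈ Ω, |(n : ℝ) - m| ≤ c * |y n - y m|) (s : ℝ) :
    ((Ω.filter (fun n => |y n - s| ≤ τ)).card : ℝ) ≤ 2 * τ * c + 1 := by
  classical
  rcases (Ω.filter (fun n => |y n - s| ≤ τ)).eq_empty_or_nonempty with h | h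
  · rw [h, Finset.card_empty, Nat.cast_zero]
    positivity
  · obtain ⟨a, ha⟩ : ∃ a, a = (Ω.filter (fun n => |y n - s| ≤ τ)).min' h := ⟨_, rfl⟩
    obtain ⟨b, hb⟩ : ∃ b, b = (Ω.filter (fun n => |y n - s| ≤ τ)).max' h := ⟨_, rfl⟩
    have ha' : a ∈ Ω.filter (fun n => |y n - s| ≤ τ) := by rw [ha]; exact Finset.min'_mem _ _
    have hb' : b ∈ Ω.filter (fun n => |y n - s| ≤ τ) := by rw [hb]; exact Finset.max'_mem _ _
    have hab : a ≤ b := by
      rw [hb]
      exact Finset.le_max' _ _ ha'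
    have h1 : Ω.filter (fun n => |y n - s| ≤ τ) ⊆ Finset.Icc a b := by
      intro n hn
      rw [Finset.mem_Icc]
      constructor
      · rw [ha]
        exact Finset.min'_le _ _ hn
      · rw [hb]
        exact Finset.le_max' _ _ hn
    have h2 := Finset.card_le_card h1
    rw [Nat.card_Icc] at h2
    have h3 : ((b + 1 - a : ℕ) : ℝ) = b - a + 1 := by
      rw [Nat.cast_sub (by omega)]
      push_cast
      ring
    have h4 : ((Ω.filter (fun n => |y n - s| ≤ τ)).card : ℝ) ≤ (b : ℝ) - a + 1 := by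
      rw [← h3]
      exact_mod_cast h2
    rw [Finset.mem_filter] at ha' hb'
    have h5 := hsep b hb'.1 a ha'.1
    have h6 : |y b - y a| ≤ 2 * τ := by
      calc |y b - y a| = |(y b - s) - (y a - s)| := by congr 1; ring
        _ ≤ |y b - s| + |y a - s| := abs_sub _ _
        _ ≤ 2 * τ := by linarith [ha'.2, hb'.2]
    have h7 : (b : ℝ) - a ≤ 2 * τ * c := by
      calc (b : ℝ) - a ≤ |(b : ℝ) - a| := le_abs_self _
        _ ≤ c * |y b - y a| := h5
        _ ≤ c * (2 * τ) := by gcongr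
        _ = _ := by ring
    linarith

/-- integers at whose images a polynomial is small are few -/
theorem small_card {p : ℝ[X]} {N : ℕ} (hN : p.natDegree ≤ N) {τ v : ℝ} (hτ : 0 < τ)
    (hv : v ≤ |p.coeff N| * τ ^ N) (hv0 : 0 < v) {y : ℕ → ℝ} {Ω : Finset ℕ} {c : ℝ} (hc : 0 ≤ c)
    (hsep : ∀ n ∈ Ω, ∀ m ∈ Ω, |(n : ℝ) - m| ≤ c * |y n - y m|) :
    ((Ω.filter (fun n => |p.eval (y n)| < v)).card : ℝ) ≤ N * (2 * τ * c + 1) := by
  classical
  have hN' : p.natDegree = N := by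
    refine le_antisymm hN (le_natDegree_of_ne_zero ?_)
    intro h0
    rw [h0, abs_zero, zero_mul] at hv
    linarith
  obtain ⟨T, hT, hT'⟩ := small_set hN' hτ
  have h1 : Ω.filter (fun n => |p.eval (y n)| < v) ⊆
      T.biUnion (fun s => Ω.filter (fun n => |y n - s| ≤ τ)) := by
    intro n hn
    rw [Finset.mem_filter] at hn
    obtain ⟨s, hs, hs'⟩ := hT' (y n) (hn.2.trans_le hv)
    rw [Finset.mem_biUnion]
    exact ⟨s, hs, Finset.mem_filter.2 ⟨hn.1, hs'⟩⟩
  have h2 : ((Ω.filter (fun n => |p.eval (y n)| < v)).card : ℝ) ≤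
      ∑ s ∈ T, ((Ω.filter (fun n => |y n - s| ≤ τ)).card : ℝ) := by
    exact_mod_cast (Finset.card_le_card h1).trans Finset.card_biUnion_le
  refine h2.trans ?_
  calc ∑ s ∈ T, ((Ω.filter (fun n => |y n - s| ≤ τ)).card : ℝ) ≤
      ∑ _s ∈ T, (2 * τ * c + 1) := Finset.sum_le_sum fun s _ => near_card hc hτ.le hsep s
    _ = T.card * (2 * τ * c + 1) := by rw [Finset.sum_const, nsmul_eq_mul]
    _ ≤ _ := by
        refine mul_le_mul_of_nonneg_right ?_ (by positivity)
        exact_mod_cast hT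

end Pool.Agent.Q270.AF
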