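import Pool.Agent.Q270.AF.Ex4
import Pool.Agent.Q270.VS.Ge

/-!
# The discrepancy on one interval
-/

set_option autoImplicit false

namespace Pool.Agent.Q270.AF

open Polynomial Set Filter Topology
open Pool.Agent.Y933.KD (e)
open Pool.Agent.Q270.VS (cn cn_split cn_le cn_shift bb_core lac_form)

/-- the trivial bound -/
lemma cn_triv (y : ℕ → ℝ) (s n : ℕ) {u v : ℝ} (huv : u ≤ v) (h1 : v - u ≤ 1) :
    |(cn y s n u v : ℝ) - n * (v - u)| ≤ n := by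
  have h3 : (cn y s n u v : ℝ) ≤ n := by exact_mod_cast cn_le y s n u v
  have h4 : (0 : ℝ) ≤ cn y s n u v := Nat.cast_nonneg _
  have h5 : (0 : ℝ) ≤ n * (v - u) := mul_nonneg (Nat.cast_nonneg _) (by linarith)
  have h6 : (n : ℝ) * (v - u) ≤ n := by
    have : (n : ℝ) * (v - u) ≤ n * 1 := by
      refine mul_le_mul_of_nonneg_left ?_ (Nat.cast_nonneg _)
      linarith
    linarith
  rw [_root_.abs_le]
  constructor <;> linarith

/-- from the late windows to all windows -/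
lemma cn_all {y : ℕ → ℝ} {s₀ s m : ℕ} {u v E E' : ℝ} (hu : 0 ≤ u) (huv : u ≤ v) (hv : v ≤ 1)
    (hE : 0 ≤ E) (hs₀ : √(s₀ : ℝ) ≤ E')
    (h : ∀ s' m' : ℕ, s₀ + s' + m' ≤ s + m → m' ≤ m →
      |(cn (fun j => y (s₀ + j)) s' m' u v : ℝ) - m' * (v - u)| ≤ √(m' : ℝ) * E) :
    |(cn y s m u v : ℝ) - m * (v - u)| ≤ √(m : ℝ) * (E + E') := by
  obtain ⟨m₁, m₂, hm, hm₁, hm₂⟩ : ∃ m₁ m₂ : ℕ, m = m₁ + m₂ ∧ m₁ ≤ s₀ ∧ (m₂ = 0 ∨ s₀ ≤ s + m₁) := by
    rcases le_total m (s₀ - s) with h1 | h1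
    · exact ⟨m, 0, by omega, by omega, Or.inl rfl⟩
    · exact ⟨s₀ - s, m - (s₀ - s), by omega, by omega, Or.inr (by omega)⟩
  have e1 : |(cn y s m₁ u v : ℝ) - m₁ * (v - u)| ≤ √(m : ℝ) * E' := by
    refine (cn_triv y s m₁ huv (by linarith)).trans ?_
    have h1 : (m₁ : ℝ) = √(m₁ : ℝ) * √(m₁ : ℝ) := (Real.mul_self_sqrt (Nat.cast_nonneg _)).symm
    rw [h1]
    refine mul_le_mul (Real.sqrt_le_sqrt ?_) ((Real.sqrt_le_sqrt ?_).trans hs₀)
      (Real.sqrt_nonneg _) (Real.sqrt_nonneg _)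
    · exact_mod_cast (by omega : m₁ ≤ m)
    · exact_mod_cast hm₁
  have e2 : |(cn y (s + m₁) m₂ u v : ℝ) - m₂ * (v - u)| ≤ √(m : ℝ) * E := by
    rcases hm₂ with h0 | h0
    · rw [h0]
      have h2 : cn y (s + m₁) 0 u v = 0 := Nat.le_zero.1 (cn_le y (s + m₁) 0 u v)
      rw [h2]
      simp only [Nat.cast_zero, zero_mul, sub_zero, abs_zero]
      positivity
    · have h1 := h (s + m₁ - s₀) m₂ (by omega) (by omega)
      rw [cn_shift] at h1
      have h2 : s₀ + (s + m₁ - s₀) = s + m₁ := by omega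
      rw [h2] at h1
      refine h1.trans (mul_le_mul_of_nonneg_right (Real.sqrt_le_sqrt ?_) hE)
      exact_mod_cast (by omega : m₂ ≤ m)
  have h3 : (cn y s m u v : ℝ) - m * (v - u) = ((cn y s m₁ u v : ℝ) - m₁ * (v - u)) +
      ((cn y (s + m₁) m₂ u v : ℝ) - m₂ * (v - u)) := by
    rw [hm, cn_split]
    push_cast
    ring
  rw [h3]
  refine (abs_add_le _ _).trans ?_
  linarith

/-- powers of two are large -/
lemma two_pow_ge {z : ℝ} {s : ℕ} (h : 2 * z ≤ s) (hz : 3 ≤ z) : 2 * Real.exp z ≤ 2 ^ s := by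
  have h1 : (2 : ℝ) ^ s = Real.exp (s * Real.log 2) := by
    rw [Real.exp_nat_mul, Real.exp_log (by norm_num)]
  have h2 : (2 : ℝ) = Real.exp (Real.log 2) := (Real.exp_log (by norm_num)).symm
  rw [h1]
  calc 2 * Real.exp z = Real.exp (Real.log 2) * Real.exp z := by rw [← h2]
    _ = Real.exp (Real.log 2 + z) := by rw [Real.exp_add]
    _ ≤ _ := by
        apply Real.exp_le_exp.2
        have h3 := Real.log_two_gt_d9
        have h4 := Real.log_two_lt_d9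
        nlinarith

theorem cell_disc : ∃ K₀ : ℕ, 8 ≤ K₀ ∧ ∀ n₁ : ℕ, 10 ≤ n₁ → ∃ z₀ : ℝ, 20 ≤ z₀ ∧
    ∀ (d k : ℕ) (z H ℓ : ℝ) (q g : ℝ[X]) (c₁ c₂ α Am : ℝ) (A B b : ℕ), z₀ ≤ z →
    PD d k z H q g → Cell z H q g c₁ c₂ → H = Real.exp ℓ → ℓ = z ^ (8 * (K₀ * n₁)) →
    q.eval c₁ < α + A → α + B + Real.exp (15 / 16 * ℓ) ≤ q.eval c₂ →
    ((B - A : ℕ) : ℝ) ≤ 3 * H → H * Real.exp (-z ^ 7) ≤ ((B - A : ℕ) : ℝ) → 1 ≤ |Am| → 2 ≤ b →
    ∃ bad ⊆ Finset.Ioc A B, (bad.card : ℝ) ≤ ((B - A : ℕ) : ℝ) * Real.exp (-(z ^ 8 / 2)) ∧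
      ∀ n ∈ Finset.Ioc A B, n ∉ bad → ∀ s m : ℕ,
        |Am| * (b : ℝ) ^ (s + m) ≤ Real.exp (z ^ (8 * (K₀ * n₁) + 3 * n₁)) →
        ∀ u v : ℝ, 0 ≤ u → u ≤ v → v ≤ 1 →
          |(cn (fun j => Am * (b : ℝ) ^ j * psi q g c₁ c₂ 0 (α + n)) s m u v : ℝ) -
            m * (v - u)| ≤ √(m : ℝ) * z ^ 25 := by
  obtain ⟨K₀, hK₀, hlarge⟩ := large
  refine ⟨K₀, hK₀, fun n₁ hn₁ => ?_⟩
  obtain ⟨z₁, hlarge⟩ := hlarge n₁ hn₁
  obtain ⟨t₀, hbb⟩ := eventually_atTop.1 (bb_core 1 ((K₀ + 1) * n₁) le_rfl)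
  refine ⟨max 20 (max z₁ t₀), le_max_left _ _, ?_⟩
  intro d k z H ℓ q g c₁ c₂ α Am A B b hz₀ hp hc hH hℓ hA hB hAB hAB' hAm hb
  have hz : 20 ≤ z := (le_max_left _ _).trans hz₀
  have hz1 : z₁ ≤ z := ((le_max_left _ _).trans (le_max_right _ _)).trans hz₀
  have hzt : t₀ ≤ z := ((le_max_right _ _).trans (le_max_right _ _)).trans hz₀
  obtain ⟨M, hM⟩ : ∃ M : ℕ, M = K₀ * n₁ := ⟨_, rfl⟩
  have hMn : 8 * n₁ ≤ M := by
    rw [hM]
    exact Nat.mul_le_mul_right n₁ hK₀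
  have hM80 : 80 ≤ M := by omega
  have hl0 : 0 < ℓ := by rw [hℓ]; positivity
  have hHp : 0 < H := hp.hH
  obtain ⟨D, G₁, hD1, hD2, hG1, hG3, hDG, hmain⟩ := hbb (z ^ 8) (hzt.trans (by
    calc z = z ^ 1 := (pow_one z).symm
      _ ≤ z ^ 8 := pow_le_pow_right₀ (by linarith) (by norm_num)))
  simp only [one_mul] at hG3 hmain
  obtain ⟨X, hX⟩ : ∃ X : ℝ, X = Real.exp (z ^ (8 * M + 3 * n₁)) := ⟨_, rfl⟩
  rw [← hM] at hℓ hlarge ⊢
  rw [← hX]
  have hbr : (2 : ℝ) ≤ b := by exact_mod_cast hb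
  obtain ⟨s₀, hs₀⟩ : ∃ s₀ : ℕ, s₀ = ⌈2 * z ^ 34⌉₊ := ⟨_, rfl⟩
  have hs₀1 : 2 * z ^ 34 ≤ s₀ := by rw [hs₀]; exact Nat.le_ceil _
  have hz34 : (1 : ℝ) ≤ z ^ 34 := one_le_pow₀ (by linarith)
  have hs₀2 : (s₀ : ℝ) ≤ z ^ 36 := by
    have h1 := Nat.ceil_lt_add_one (show (0 : ℝ) ≤ 2 * z ^ 34 by positivity)
    rw [← hs₀] at h1
    have h2 := zpow_lt hz (show 34 < 36 by norm_num)
    linarith
  obtain ⟨Y, hY⟩ : ∃ Y : ℕ, Y = ⌈2 * z ^ (8 * M + 3 * n₁)⌉₊ := ⟨_, rfl⟩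
  have hzM : (1 : ℝ) ≤ z ^ (8 * M + 3 * n₁) := one_le_pow₀ (by linarith)
  have hY1 : 2 * z ^ (8 * M + 3 * n₁) ≤ Y := by rw [hY]; exact Nat.le_ceil _
  have hY2 : (Y : ℝ) ≤ 3 * z ^ (8 * M + 3 * n₁) := by
    have h1 := Nat.ceil_lt_add_one (show (0 : ℝ) ≤ 2 * z ^ (8 * M + 3 * n₁) by positivity)
    rw [← hY] at h1
    linarith
  classical
  obtain ⟨T, hT⟩ : ∃ T : ℕ, T = Nat.findGreatest (fun j => |Am| * (b : ℝ) ^ j ≤ X) Y := ⟨_, rfl⟩
  have hT1 : ∀ j, |Am| * (b : ℝ) ^ j ≤ X → j ≤ T := by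
    intro j hj
    have h1 : (j : ℝ) ≤ 2 * z ^ (8 * M + 3 * n₁) := by
      have h2 : (2 : ℝ) ^ j ≤ X := by
        calc (2 : ℝ) ^ j ≤ 1 * (b : ℝ) ^ j := by
              rw [one_mul]
              exact pow_le_pow_left₀ (by norm_num) hbr j
          _ ≤ |Am| * (b : ℝ) ^ j := by gcongr
          _ ≤ X := hj
      have h3 : (j : ℝ) * Real.log 2 ≤ z ^ (8 * M + 3 * n₁) := by
        rw [← Real.log_pow, Real.log_le_iff_le_exp (by positivity), ← hX]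
        exact h2
      have h4 := Real.log_two_gt_d9
      have h5 : (0 : ℝ) ≤ j := Nat.cast_nonneg j
      nlinarith
    rw [hT]
    exact Nat.le_findGreatest (by exact_mod_cast h1.trans hY1) hj
  have hT2 : ∀ j, j < T → |Am| * (b : ℝ) ^ j ≤ X := by
    intro j hj
    have h1 : |Am| * (b : ℝ) ^ T ≤ X := Nat.findGreatest_of_ne_zero hT.symm (by omega)
    refine le_trans ?_ h1
    gcongr
    linarith
  have hTY : T ≤ Y := by rw [hT]; exact Nat.findGreatest_le _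
  obtain ⟨L, hL⟩ : ∃ L : ℕ, L = T - s₀ := ⟨_, rfl⟩
  have hLc : (L : ℝ) ≤ (z ^ 8) ^ ((K₀ + 1) * n₁) := by
    have h1 : (L : ℝ) ≤ Y := by exact_mod_cast (by omega : L ≤ Y)
    have h2 : (z ^ 8) ^ ((K₀ + 1) * n₁) = z ^ (8 * M + 8 * n₁) := by
      rw [← pow_mul, hM]
      congr 1
      ring
    rw [h2]
    have h3 := zpow_lt hz (show 8 * M + 3 * n₁ < 8 * M + 8 * n₁ by omega)
    linarith
  have hcard : (Finset.Ioc A B).card = B - A := Nat.card_Ioc A B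
  have hΩne : (Finset.Ioc A B).Nonempty := by
    rw [← Finset.card_pos, hcard]
    have h1 : (0 : ℝ) < ((B - A : ℕ) : ℝ) := lt_of_lt_of_le (by positivity) hAB'
    exact_mod_cast h1
  obtain ⟨bad, hbΩ, hbc, hbad⟩ := hmain (Finset.Ioc A B)
    (fun n j => Am * (b : ℝ) ^ (s₀ + j) * psi q g c₁ c₂ 0 (α + n)) L hΩne hLc (by
    intro a ha h hh hhD
    have hlt : ∀ i : ℕ, i < L / G₁ → a + G₁ * i < L := by
      intro i hi
      have h1 : G₁ * (L / G₁) ≤ L := Nat.mul_div_le L G₁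
      have h2 : G₁ * (i + 1) ≤ G₁ * (L / G₁) := Nat.mul_le_mul_left G₁ hi
      rw [Nat.mul_add, Nat.mul_one] at h2
      omega
    obtain ⟨n, hn, hn1, hn2⟩ := lac_form (u := fun i => Am * (b : ℝ) ^ (s₀ + (a + G₁ * i)))
      (T := (D : ℝ)) (by exact_mod_cast hD1) (fun n hn => by
        have h2 : s₀ + (a + G₁ * (n + 1)) = s₀ + (a + G₁ * n) + G₁ := by ring
        simp only [h2, pow_add _ (s₀ + (a + G₁ * n)) G₁]
        rw [← mul_assoc, abs_mul (Am * (b : ℝ) ^ (s₀ + (a + G₁ * n))) _, mul_comm]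
        refine mul_le_mul_of_nonneg_left ?_ (abs_nonneg _)
        rw [abs_of_nonneg (by positivity)]
        calc (4 : ℝ) * D ≤ 2 ^ G₁ := by exact_mod_cast hDG
          _ ≤ (b : ℝ) ^ G₁ := pow_le_pow_left₀ (by norm_num) hbr _) h hh hhD
    obtain ⟨β, hβ⟩ : ∃ β : ℝ, β = ∑ i, (h i : ℝ) * (Am * (b : ℝ) ^ (s₀ + (a + G₁ * (i : ℕ)))) :=
      ⟨_, rfl⟩
    rw [← hβ] at hn1 hn2
    rw [one_mul] at hn
    have hn' := hlt n hn
    have hplace : |Am| * (b : ℝ) ^ (s₀ + (a + G₁ * n)) ≤ X := hT2 _ (by omega)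
    have hun : |Am * (b : ℝ) ^ (s₀ + (a + G₁ * n))| = |Am| * (b : ℝ) ^ (s₀ + (a + G₁ * n)) := by
      rw [abs_mul, abs_of_nonneg (show (0 : ℝ) ≤ (b : ℝ) ^ (s₀ + (a + G₁ * n)) by positivity)]
    rw [hun] at hn1 hn2
    have hlow : Real.exp (z ^ 34) ≤ |β| := by
      have h1 : 2 * Real.exp (z ^ 34) ≤ |Am| * (b : ℝ) ^ (s₀ + (a + G₁ * n)) := by
        calc 2 * Real.exp (z ^ 34) ≤ 2 ^ s₀ := two_pow_ge hs₀1 (by
              have := zpow_lt hz (show 0 < 34 by norm_num)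
              rw [pow_zero] at this
              linarith)
          _ ≤ (b : ℝ) ^ s₀ := pow_le_pow_left₀ (by norm_num) hbr _
          _ ≤ (b : ℝ) ^ (s₀ + (a + G₁ * n)) := pow_le_pow_right₀ (by linarith) (by omega)
          _ = 1 * (b : ℝ) ^ (s₀ + (a + G₁ * n)) := (one_mul _).symm
          _ ≤ _ := by gcongr
      linarith
    have hup : |β| ≤ Real.exp (z ^ (8 * M + 4 * n₁)) := by
      calc |β| ≤ 2 * D * (|Am| * (b : ℝ) ^ (s₀ + (a + G₁ * n))) := hn2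
        _ ≤ 2 * Real.exp (4 * (z ^ 8) ^ 2) * X := by gcongr
        _ = Real.exp (Real.log 2 + 4 * z ^ 16 + z ^ (8 * M + 3 * n₁)) := by
            rw [Real.exp_add, Real.exp_add, Real.exp_log (by norm_num), hX, ← pow_mul]
        _ ≤ _ := by
            apply Real.exp_le_exp.2
            have h1 := zpow_lt hz (show 8 * M + 3 * n₁ < 8 * M + 4 * n₁ by omega)
            have h2 := zpow_lt hz (show 16 < 8 * M + 3 * n₁ by omega)
            have h3 := Real.log_two_lt_d9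
            have h4 : (1 : ℝ) ≤ z ^ 16 := one_le_pow₀ (by linarith)
            linarith
    have h1 : ∀ x : ℕ, ∑ i, (h i : ℝ) * (Am * (b : ℝ) ^ (s₀ + (a + G₁ * (i : ℕ))) *
        psi q g c₁ c₂ 0 (α + x)) = β * psi q g c₁ c₂ 0 (α + x) := by
      intro x
      rw [hβ, Finset.sum_mul]
      refine Finset.sum_congr rfl fun i _ => ?_
      ring
    simp only [h1]
    have hexp : ‖∑ n ∈ Finset.Ioc A B, e (β * psi q g c₁ c₂ 0 (α + n))‖ ≤
        H * Real.exp (-z ^ 33) := by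
      rcases le_total (Real.exp (3 / 4 * ℓ)) |β| with h2 | h2
      · exact hlarge d k z H ℓ q g c₁ c₂ α β A B hz1 hp hc hH hℓ hA hB hAB h2 hup
      · refine hc.small hp hH ?_ hA ?_ hAB hlow h2
        · rw [hℓ]
          exact pow_le_pow_right₀ (by linarith) (by omega)
        · have h3 : (3 : ℝ) ≤ Real.exp (15 / 16 * ℓ) := by
            have h4 := Real.add_one_le_exp (15 / 16 * ℓ)
            have h5 : 20 * z ^ 0 ≤ z ^ (8 * M) := zpow_lt hz (by omega)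
            rw [← hℓ, pow_zero] at h5
            linarith
          linarith
    refine hexp.trans ?_
    rw [hcard]
    calc H * Real.exp (-z ^ 33) ≤ (((B - A : ℕ) : ℝ) * Real.exp (z ^ 7)) * Real.exp (-z ^ 33) := by
          refine mul_le_mul_of_nonneg_right ?_ (Real.exp_pos _).le
          calc H = H * Real.exp (-z ^ 7) * Real.exp (z ^ 7) := by
                rw [mul_assoc, ← Real.exp_add, neg_add_cancel, Real.exp_zero, mul_one]
            _ ≤ _ := by gcongr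
      _ = ((B - A : ℕ) : ℝ) * Real.exp (z ^ 7 - z ^ 33) := by
          rw [mul_assoc, ← Real.exp_add]
          rfl
      _ ≤ _ := by
          refine mul_le_mul_of_nonneg_left (Real.exp_le_exp.2 ?_) (Nat.cast_nonneg _)
          rw [← pow_mul]
          have h2 := zpow_lt hz (show 32 < 33 by norm_num)
          have h3 : z ^ 7 ≤ z ^ 32 := pow_le_pow_right₀ (by linarith) (by norm_num)
          have h4 : 0 ≤ z ^ 32 := by positivity
          norm_num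
          linarith)
  rw [hcard] at hbc
  refine ⟨bad, hbΩ, hbc, ?_⟩
  intro n hn hnb s m hsm u v hu huv hv
  have hsT := hT1 _ hsm
  have h1 := cn_all (y := fun j => Am * (b : ℝ) ^ j * psi q g c₁ c₂ 0 (α + n)) (s₀ := s₀) (s := s)
    (m := m) (E := z ^ 24) (E' := z ^ 18) hu huv hv (by positivity) (by
      rw [Real.sqrt_le_left (by positivity), ← pow_mul]
      exact hs₀2) (fun s' m' h1 h2 => by
      have h3 := hbad n hn hnb s' m' (by omega) u v hu huv hv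
      rw [← pow_mul] at h3
      exact h3)
  refine h1.trans (mul_le_mul_of_nonneg_left ?_ (Real.sqrt_nonneg _))
  have h2 := zpow_lt hz (show 24 < 25 by norm_num)
  have h3 : z ^ 18 ≤ z ^ 24 := pow_le_pow_right₀ (by linarith) (by norm_num)
  have h4 : 0 ≤ z ^ 24 := by positivity
  linarith

end Pool.Agent.Q270.AF
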