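import Pool.Agent.Q270.AF.Ce

/-!
# All points of a polynomial sequence
-/

set_option autoImplicit false

namespace Pool.Agent.Q270.AF

open Polynomial Set Filter Topology
open Pool.Agent.Q270.VS (cn)

/-- good windows -/
def Win (y : ℕ → ℝ) (a b X E : ℝ) : Prop :=
  ∀ s m : ℕ, a * b ^ (s + m) ≤ X → ∀ u v : ℝ, 0 ≤ u → u ≤ v → v ≤ 1 →
    |(cn y s m u v : ℝ) - m * (v - u)| ≤ √(m : ℝ) * E

/-- the reflected polynomial -/
noncomputable def ref (p : ℝ[X]) : ℝ[X] := p.comp (C (-1) * X)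

lemma ref_eval (p : ℝ[X]) (x : ℝ) : (ref p).eval x = p.eval (-x) := by
  unfold ref
  rw [eval_comp]
  simp

lemma ref_coeff (p : ℝ[X]) (n : ℕ) : |(ref p).coeff n| = |p.coeff n| := by
  unfold ref
  rw [comp_C_mul_X_coeff, abs_mul, abs_pow, abs_neg, abs_one, one_pow, mul_one]

lemma ref_natDegree (p : ℝ[X]) {n : ℕ} (h : p.natDegree ≤ n) : (ref p).natDegree ≤ n := by
  rw [natDegree_le_iff_coeff_eq_zero]
  intro N hN
  have h1 := ref_coeff p N
  have h2 : p.coeff N = 0 := coeff_eq_zero_of_natDegree_lt (by omega)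
  rw [h2, abs_zero, abs_eq_zero] at h1
  exact h1

lemma ref_deriv (p : ℝ[X]) (x : ℝ) : (derivative (ref p)).eval x = -(derivative p).eval (-x) := by
  unfold ref
  rw [derivative_comp, eval_mul, eval_comp]
  simp

variable {d k : ℕ} {z H : ℝ} {q g : ℝ[X]} {c₁ c₂ : ℝ}

lemma PD.ref (h : PD d k z H q g) : PD d k z H (ref q) (ref g) where
  hz := h.hz
  hH := h.hH
  hd2 := h.hd2
  hdz := h.hdz
  he1 := h.he1
  hed := h.hed
  hqd := ref_natDegree q h.hqd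
  hge := ref_natDegree g h.hge
  hqc i hi := by rw [ref_coeff]; exact h.hqc i hi
  hgc i hi := by rw [ref_coeff]; exact h.hgc i hi
  hql := by rw [ref_coeff]; exact h.hql
  hgl := by rw [ref_coeff]; exact h.hgl

/-- the decreasing case -/
lemma Cell.ref (hc : c₁ ≤ c₂) (h1 : |c₁| ≤ Real.exp (3 * z)) (h2 : |c₂| ≤ Real.exp (3 * z))
    (hq : ∀ x ∈ Icc c₁ c₂, (derivative q).eval x ≤ -(Real.exp (-z ^ 5) * H))
    (hg : ∀ x ∈ Icc c₁ c₂, Real.exp (-z ^ 5) ≤ |(derivative g).eval x|) :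
    Cell z H (ref q) (ref g) (-c₂) (-c₁) where
  hc := by linarith
  h1 := by rw [abs_neg]; exact h2
  h2 := by rw [abs_neg]; exact h1
  hq x hx := by
    rw [ref_deriv]
    have := hq (-x) ⟨by linarith [hx.2], by linarith [hx.1]⟩
    linarith
  hg x hx := by
    rw [ref_deriv, abs_neg]
    exact hg (-x) ⟨by linarith [hx.2], by linarith [hx.1]⟩

/-- the conclusion for one cell -/
def CellBad (H z : ℝ) (q g : ℝ[X]) (x₀ x₁ α Am : ℝ) (N' b : ℕ) (X : ℝ) : Prop :=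
  ∃ bad : Finset ℕ, (bad.card : ℝ) ≤ H * Real.exp (-z ^ 7) ∧
    ∀ n ∈ Finset.Icc 1 N', n ∉ bad → ∀ x ∈ Icc x₀ x₁, q.eval x = α + n →
      Win (fun j => Am * (b : ℝ) ^ j * g.eval x) |Am| b X (z ^ 25)

/-- one cell, increasing -/
lemma cell_one {K₀ n₁ : ℕ} (hK₀ : 8 ≤ K₀) (hn₁ : 10 ≤ n₁) {ℓ α Am x₀ ρ : ℝ} {b N' : ℕ}
    (hp : PD d k z H q g) (hρ : ρ = Real.exp (-z ^ 6)) (hc : Cell z H q g (x₀ - ρ) (x₀ + 2 * ρ))
    (hH : H = Real.exp ℓ) (hℓ : ℓ = z ^ (8 * (K₀ * n₁))) (hN' : (N' : ℝ) ≤ 3 * H)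
    (hcd : ∀ A B : ℕ, q.eval (x₀ - ρ) < α + A →
      α + B + Real.exp (15 / 16 * ℓ) ≤ q.eval (x₀ + 2 * ρ) → ((B - A : ℕ) : ℝ) ≤ 3 * H →
      H * Real.exp (-z ^ 7) ≤ ((B - A : ℕ) : ℝ) →
      ∃ bad ⊆ Finset.Ioc A B, (bad.card : ℝ) ≤ ((B - A : ℕ) : ℝ) * Real.exp (-(z ^ 8 / 2)) ∧
        ∀ n ∈ Finset.Ioc A B, n ∉ bad → ∀ s m : ℕ,
          |Am| * (b : ℝ) ^ (s + m) ≤ Real.exp (z ^ (8 * (K₀ * n₁) + 3 * n₁)) →
          ∀ u v : ℝ, 0 ≤ u → u ≤ v → v ≤ 1 →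
            |(cn (fun j => Am * (b : ℝ) ^ j * psi q g (x₀ - ρ) (x₀ + 2 * ρ) 0 (α + n)) s m u v :
              ℝ) - m * (v - u)| ≤ √(m : ℝ) * z ^ 25) :
    CellBad H z q g x₀ (x₀ + ρ) α Am N' b (Real.exp (z ^ (8 * (K₀ * n₁) + 3 * n₁))) := by
  classical
  have hz := hp.hz
  have hHp := hp.hH
  have hρ0 : 0 < ρ := by rw [hρ]; exact Real.exp_pos _
  have hinc := hc.inc hp
  have hMbig : 640 ≤ 8 * (K₀ * n₁) := by
    have : 8 * 10 ≤ K₀ * n₁ := Nat.mul_le_mul hK₀ hn₁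
    omega
  have hl : 16 * (z ^ 5 + z ^ 6) ≤ ℓ := by
    rw [hℓ]
    have h1 := zpow_lt hz (show 7 < 8 * (K₀ * n₁) by omega)
    have h2 := zpow_lt hz (show 6 < 7 by norm_num)
    have h3 : z ^ 5 ≤ z ^ 6 := pow_le_pow_right₀ (by linarith) (by norm_num)
    have h4 : 0 ≤ z ^ 6 := by positivity
    linarith
  have hl0 : 0 ≤ z ^ 5 + z ^ 6 := by positivity
  have hμρ : Real.exp (15 / 16 * ℓ) ≤ Real.exp (-z ^ 5) * H * ρ := by
    rw [hρ, hH, ← Real.exp_add, ← Real.exp_add]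
    apply Real.exp_le_exp.2
    linarith
  have h1lt : (1 : ℝ) < Real.exp (15 / 16 * ℓ) := by
    have h5 : 20 * z ^ 0 ≤ z ^ (8 * (K₀ * n₁)) := zpow_lt hz (by omega)
    rw [← hℓ, pow_zero] at h5
    rw [Real.one_lt_exp_iff]
    linarith
  obtain ⟨S, hS⟩ : ∃ S : Finset ℕ, S = (Finset.Icc 1 N').filter
    (fun n : ℕ => ∃ x ∈ Icc x₀ (x₀ + ρ), q.eval x = α + n) := ⟨_, rfl⟩
  have hsub : ∀ x ∈ Icc x₀ (x₀ + ρ), x ∈ Icc (x₀ - ρ) (x₀ + 2 * ρ) := fun x hx =>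
    ⟨by linarith [hx.1], by linarith [hx.2]⟩
  rcases S.eq_empty_or_nonempty with hS0 | hS0
  · refine ⟨∅, by rw [Finset.card_empty, Nat.cast_zero]; positivity, ?_⟩
    intro n hn _ x hx hqx
    exfalso
    have : n ∈ S := by
      rw [hS, Finset.mem_filter]
      exact ⟨hn, x, hx, hqx⟩
    rw [hS0] at this
    exact Finset.notMem_empty _ this
  obtain ⟨A₁, hA₁⟩ : ∃ A₁, A₁ = S.min' hS0 := ⟨_, rfl⟩
  obtain ⟨B, hB⟩ : ∃ B, B = S.max' hS0 := ⟨_, rfl⟩
  have hA₁S : A₁ ∈ S := by rw [hA₁]; exact Finset.min'_mem _ _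
  have hBS : B ∈ S := by rw [hB]; exact Finset.max'_mem _ _
  rw [hS, Finset.mem_filter, Finset.mem_Icc] at hA₁S hBS
  obtain ⟨⟨ha1, ha2⟩, xa, hxa, hqa⟩ := hA₁S
  obtain ⟨⟨hb1, hb2⟩, xb, hxb, hqb⟩ := hBS
  obtain ⟨A, hA⟩ : ∃ A, A₁ = A + 1 := ⟨A₁ - 1, by omega⟩
  have hSI : ∀ n ∈ S, n ∈ Finset.Ioc A B := by
    intro n hn
    have h1 := S.min'_le n hn
    have h2 := S.le_max' n hn
    rw [← hA₁] at h1
    rw [← hB] at h2
    rw [Finset.mem_Ioc]
    omega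
  have hq1 : q.eval (x₀ - ρ) < α + A := by
    have h1 := hinc.grow (left_mem_Icc.2 hc.hc) (hsub xa hxa) (by linarith [hxa.1])
    rw [hqa, hA] at h1
    push_cast at h1
    have h2 : Real.exp (-z ^ 5) * H * ρ ≤ Real.exp (-z ^ 5) * H * (xa - (x₀ - ρ)) := by
      refine mul_le_mul_of_nonneg_left ?_ hinc.hμ.le
      linarith [hxa.1]
    linarith
  have hq2 : α + B + Real.exp (15 / 16 * ℓ) ≤ q.eval (x₀ + 2 * ρ) := by
    have h1 := hinc.grow (hsub xb hxb) (right_mem_Icc.2 hc.hc) (by linarith [hxb.2])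
    rw [hqb] at h1
    have h2 : Real.exp (-z ^ 5) * H * ρ ≤ Real.exp (-z ^ 5) * H * (x₀ + 2 * ρ - xb) := by
      refine mul_le_mul_of_nonneg_left ?_ hinc.hμ.le
      linarith [hxb.2]
    linarith
  have hBA : ((B - A : ℕ) : ℝ) ≤ 3 * H := by
    refine le_trans ?_ hN'
    exact_mod_cast (by omega : B - A ≤ N')
  rcases le_or_gt (H * Real.exp (-z ^ 7)) ((B - A : ℕ) : ℝ) with h1 | h1
  · obtain ⟨bad, _, hbc, hb⟩ := hcd A B hq1 hq2 hBA h1
    refine ⟨bad, ?_, ?_⟩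
    · refine hbc.trans ?_
      calc ((B - A : ℕ) : ℝ) * Real.exp (-(z ^ 8 / 2)) ≤ 3 * H * Real.exp (-(z ^ 8 / 2)) := by
            gcongr
        _ ≤ Real.exp z * H * Real.exp (-(z ^ 8 / 2)) := by
            have := (exp_facts hz).2
            gcongr
        _ = H * Real.exp (z - z ^ 8 / 2) := by
            rw [mul_comm (Real.exp z), mul_assoc, ← Real.exp_add]
            rfl
        _ ≤ _ := by
            refine mul_le_mul_of_nonneg_left (Real.exp_le_exp.2 ?_) hHp.le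
            have h2 := zpow_lt hz (show 7 < 8 by norm_num)
            have h3 : z ^ 1 ≤ z ^ 7 := pow_le_pow_right₀ (by linarith) (by norm_num)
            rw [pow_one] at h3
            have h4 : 0 ≤ z ^ 7 := by positivity
            linarith
    · intro n hn hnb x hx hqx s m hsm u v hu huv hv
      have h2 := hb n (hSI n (by
        rw [hS, Finset.mem_filter]
        exact ⟨hn, x, hx, hqx⟩)) hnb s m hsm u v hu huv hv
      have h3 : psi q g (x₀ - ρ) (x₀ + 2 * ρ) 0 (α + n) = g.eval x := by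
        show g.eval (inv q (x₀ - ρ) (x₀ + 2 * ρ) (α + n)) = _
        rw [← hqx, hinc.inv_eval (hsub x hx)]
      simp only [h3] at h2
      exact h2
  · refine ⟨S, ?_, ?_⟩
    · refine le_trans ?_ h1.le
      have h2 : S ⊆ Finset.Ioc A B := fun n hn => hSI n hn
      have h3 := Finset.card_le_card h2
      rw [Nat.card_Ioc] at h3
      exact_mod_cast h3
    · intro n hn hnb x hx hqx
      exfalso
      apply hnb
      rw [hS, Finset.mem_filter]
      exact ⟨hn, x, hx, hqx⟩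

/-- the points where a derivative is small -/
lemma few {N : ℕ} {p : ℝ[X]} (hp : PD d k z H q g) (hN : p.natDegree ≤ N) (hNd : N ≤ d) {v V : ℝ}
    (hv0 : 0 < v) (hpc : V * Real.exp (-z) ≤ |p.coeff N|) (hV : v ≤ V * Real.exp (-z ^ 5) * 2)
    (hV0 : 0 < V) {α : ℝ} {N' : ℕ} :
    ∃ bad : Finset ℕ, (bad.card : ℝ) ≤ z * (2 * (H * Real.exp (-z ^ 3)) + 1) ∧
      ∀ n ∈ Finset.Icc 1 N', n ∉ bad → ∀ x : ℝ, |x| ≤ Real.exp (3 * z) → q.eval x = α + n →
        v ≤ |p.eval x| := by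
  classical
  have hz := hp.hz
  have hHp := hp.hH
  have hNz : (N : ℝ) ≤ z := (by exact_mod_cast hNd : (N : ℝ) ≤ d).trans hp.hdz
  obtain ⟨Ω, hΩ⟩ : ∃ Ω : Finset ℕ, Ω = (Finset.Icc 1 N').filter
    (fun n : ℕ => ∃ x : ℝ, |x| ≤ Real.exp (3 * z) ∧ q.eval x = α + n ∧ |p.eval x| < v) := ⟨_, rfl⟩
  obtain ⟨y, hy⟩ : ∃ y : ℕ → ℝ, ∀ n ∈ Ω, |y n| ≤ Real.exp (3 * z) ∧ q.eval (y n) = α + n ∧
      |p.eval (y n)| < v := by
    refine ⟨fun n => if h : ∃ x : ℝ, |x| ≤ Real.exp (3 * z) ∧ q.eval x = α + n ∧ |p.eval x| < v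
      then h.choose else 0, fun n hn => ?_⟩
    rw [hΩ, Finset.mem_filter] at hn
    simp only [dif_pos hn.2]
    exact hn.2.choose_spec
  have h1 := small_card (p := p) hN (τ := Real.exp (-(2 * z ^ 3))) (v := v) (Real.exp_pos _) (by
    refine le_trans hV ?_
    calc V * Real.exp (-z ^ 5) * 2 ≤ V * Real.exp (-z ^ 5) * Real.exp z := by
          have := (exp_facts hz).2
          gcongr
          linarith
      _ = V * Real.exp (z - z ^ 5) := by
          rw [mul_assoc, ← Real.exp_add]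
          congr 2
          ring
      _ ≤ V * Real.exp (-z - 2 * z ^ 4) := by
          refine mul_le_mul_of_nonneg_left (Real.exp_le_exp.2 ?_) hV0.le
          have h2 := zpow_lt hz (show 4 < 5 by norm_num)
          have h3 : z ^ 1 ≤ z ^ 4 := pow_le_pow_right₀ (by linarith) (by norm_num)
          rw [pow_one] at h3
          linarith
      _ = V * Real.exp (-z) * Real.exp (-(2 * z ^ 4)) := by
          rw [mul_assoc, ← Real.exp_add]
          rfl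
      _ ≤ |p.coeff N| * Real.exp (-(2 * z ^ 3)) ^ N := by
          refine mul_le_mul hpc ?_ (Real.exp_pos _).le (abs_nonneg _)
          rw [← Real.exp_nat_mul]
          apply Real.exp_le_exp.2
          have h4 : (N : ℝ) * (2 * z ^ 3) ≤ z * (2 * z ^ 3) := by gcongr
          have h5 : z * (2 * z ^ 3) = 2 * z ^ 4 := by ring
          linarith) hv0 (y := y) (Ω := Ω) (c := H * Real.exp (z ^ 3)) (by positivity) (by
    intro n hn m hm
    obtain ⟨a1, a2, _⟩ := hy n hn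
    obtain ⟨b1, b2, _⟩ := hy m hm
    have h2 : ∀ t ∈ Icc (-Real.exp (3 * z)) (Real.exp (3 * z)),
        HasDerivWithinAt (fun t => q.eval t) ((derivative q).eval t)
        (Icc (-Real.exp (3 * z)) (Real.exp (3 * z))) t := fun t _ =>
          (q.hasDerivAt t).hasDerivWithinAt
    have h3 : ∀ t ∈ Icc (-Real.exp (3 * z)) (Real.exp (3 * z)),
        ‖(derivative q).eval t‖ ≤ H * Real.exp (z ^ 3) := by
      intro t ht
      rw [Real.norm_eq_abs]
      exact hp.q_le (_root_.abs_le.2 ht)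
    have h4 := (convex_Icc (-Real.exp (3 * z)) (Real.exp (3 * z))).norm_image_sub_le_of_norm_hasDerivWithin_le
      h2 h3 (_root_.abs_le.1 b1) (_root_.abs_le.1 a1)
    rw [Real.norm_eq_abs, Real.norm_eq_abs] at h4
    simp only [a2, b2] at h4
    refine le_trans (le_of_eq ?_) h4
    congr 1
    ring)
  have h2 : Ω.filter (fun n => |p.eval (y n)| < v) = Ω := by
    rw [Finset.filter_eq_self]
    intro n hn
    exact (hy n hn).2.2
  rw [h2] at h1
  refine ⟨Ω, h1.trans ?_, ?_⟩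
  · have h3 : 2 * Real.exp (-(2 * z ^ 3)) * (H * Real.exp (z ^ 3)) = 2 * (H * Real.exp (-z ^ 3)) := by
      have : Real.exp (-z ^ 3) = Real.exp (-(2 * z ^ 3)) * Real.exp (z ^ 3) := by
        rw [← Real.exp_add]
        congr 1
        ring
      rw [this]
      ring
    rw [h3]
    gcongr
  · intro n hn hnb x hx hqx
    by_contra hcon
    push Not at hcon
    apply hnb
    rw [hΩ, Finset.mem_filter]
    exact ⟨hn, x, hx, hqx, hcon⟩

end Pool.Agent.Q270.AF
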