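import Pool.Agent.Q270.AF.Co

/-!
# The core theorem for one polynomial, one function and one base
-/

set_option autoImplicit false

namespace Pool.Agent.Q270.AF

open Polynomial Set Filter Topology
open Pool.Agent.Q270.VS (cn)

variable {d k : ℕ} {z H : ℝ} {q g : ℝ[X]} {c₁ c₂ : ℝ}

lemma dcoeff (p : ℝ[X]) {n : ℕ} (hn : 1 ≤ n) : |p.coeff n| ≤ |(derivative p).coeff (n - 1)| := by
  rw [coeff_derivative, Nat.sub_add_cancel hn, abs_mul]
  refine le_mul_of_one_le_right (abs_nonneg _) ?_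
  rw [abs_of_nonneg (by positivity)]
  have : (0 : ℝ) ≤ ((n - 1 : ℕ) : ℝ) := Nat.cast_nonneg _
  linarith

/-- a point where the derivatives are not small is in a good cell -/
lemma cell_good (hp : PD d k z H q g) {x x₀ ρ : ℝ} (hρ : ρ = Real.exp (-z ^ 6))
    (hx : x ∈ Icc x₀ (x₀ + ρ)) (hxz : |x| ≤ Real.exp (2 * z))
    (hq : H * Real.exp (-z ^ 5) * 2 ≤ |(derivative q).eval x|)
    (hg : 1 * Real.exp (-z ^ 5) * 2 ≤ |(derivative g).eval x|) :
    Cell z H q g (x₀ - ρ) (x₀ + 2 * ρ) ∨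
      Cell z H (ref q) (ref g) (-(x₀ + 2 * ρ)) (-(x₀ - ρ)) := by
  have hz := hp.hz
  have hHp := hp.hH
  have hρ0 : 0 < ρ := by rw [hρ]; exact Real.exp_pos _
  have hρ1 : ρ ≤ 1 := by
    rw [hρ, Real.exp_le_one_iff]
    have : 0 ≤ z ^ 6 := by positivity
    linarith
  have hbig : Real.exp (2 * z) + 2 ≤ Real.exp (3 * z) := by
    have h1 : Real.exp (3 * z) = Real.exp z * Real.exp (2 * z) := by
      rw [← Real.exp_add]
      congr 1
      ring
    have h2 := (exp_facts hz).2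
    have h3 := (exp_facts (z := 2 * z) (by linarith)).2
    rw [h1]
    nlinarith
  have hx2 : |x| ≤ Real.exp (3 * z) := by linarith
  have hxx := _root_.abs_le.1 hxz
  have hin : ∀ y ∈ Icc (x₀ - ρ) (x₀ + 2 * ρ), |y| ≤ Real.exp (3 * z) ∧ |y - x| ≤ 2 * ρ := by
    intro y hy
    have h1 : |y - x| ≤ 2 * ρ := by
      rw [_root_.abs_le]
      constructor <;> linarith [hy.1, hy.2, hx.1, hx.2]
    refine ⟨?_, h1⟩
    have h2 := _root_.abs_le.1 h1
    rw [_root_.abs_le]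
    constructor <;> linarith
  have hc : x₀ - ρ ≤ x₀ + 2 * ρ := by linarith
  have hd1 : (1 : ℝ) ≤ d := by exact_mod_cast (by have := hp.hd2; omega : 1 ≤ d)
  -- the variation of the derivatives
  have key : ∀ {p : ℝ[X]} {V : ℝ}, p.natDegree ≤ d → 0 < V → W (Real.exp (3 * z)) p ≤
      V * Real.exp (z ^ 3) → ∀ y ∈ Icc (x₀ - ρ) (x₀ + 2 * ρ),
      |p.eval y - p.eval x| ≤ V * Real.exp (-z ^ 5) := by
    intro p V hpd hV hW y hy
    obtain ⟨h1, h2⟩ := hin y hy
    refine (eval_lip (w1 hz) h1 hx2 hpd).trans ?_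
    calc (d : ℝ) * W (Real.exp (3 * z)) p * |y - x| ≤ z * (V * Real.exp (z ^ 3)) * (2 * ρ) := by
          have h3 := W_nonneg (Real.exp_pos (3 * z)).le p
          have h4 := hp.hdz
          gcongr
      _ ≤ Real.exp z * (V * Real.exp (z ^ 3)) * (Real.exp z * ρ) := by
          have h3 := exp_facts hz
          gcongr
          · linarith [h3.1]
          · linarith [h3.2]
      _ = V * Real.exp (z + z ^ 3 + z - z ^ 6) := by
          rw [hρ, sub_eq_add_neg, Real.exp_add, Real.exp_add, Real.exp_add]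
          ring
      _ ≤ _ := by
          refine mul_le_mul_of_nonneg_left (Real.exp_le_exp.2 ?_) hV.le
          have h2 := zpow_lt hz (show 5 < 6 by norm_num)
          have h3 : z ^ 1 ≤ z ^ 5 := pow_le_pow_right₀ (by linarith) (by norm_num)
          have h5 : z ^ 3 ≤ z ^ 5 := pow_le_pow_right₀ (by linarith) (by norm_num)
          rw [pow_one] at h3
          have h4 : 0 ≤ z ^ 5 := by positivity
          linarith
  have kq := key (p := derivative q) (V := H) ((natDegree_derivative_le q).trans (by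
    have := hp.hqd
    omega)) hHp (hp.Wq.trans hp.U_le')
  have kg := key (p := derivative g) (V := 1) ((natDegree_derivative_le g).trans (by
    have := hp.hge
    have := hp.hed
    omega)) one_pos (by rw [one_mul]; exact hp.Wg)
  have hgc : ∀ y ∈ Icc (x₀ - ρ) (x₀ + 2 * ρ), Real.exp (-z ^ 5) ≤ |(derivative g).eval y| := by
    intro y hy
    have h1 := kg y hy
    have h2 := abs_sub_abs_le_abs_sub ((derivative g).eval x) ((derivative g).eval y)
    rw [abs_sub_comm] at h2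
    linarith
  have e1 := (hin _ (left_mem_Icc.2 hc)).1
  have e2 := (hin _ (right_mem_Icc.2 hc)).1
  rcases le_total 0 ((derivative q).eval x) with h0 | h0
  · left
    rw [abs_of_nonneg h0] at hq
    refine ⟨hc, e1, e2, ?_, hgc⟩
    intro y hy
    have h1 := _root_.abs_le.1 (kq y hy)
    linarith [h1.1]
  · right
    rw [abs_of_nonpos h0] at hq
    refine Cell.ref hc e1 e2 ?_ hgc
    intro y hy
    have h1 := _root_.abs_le.1 (kq y hy)
    linarith [h1.2]

/-- the reflection of the conclusion -/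
lemma CellBad.ref {x₀ x₁ α Am : ℝ} {N' b : ℕ} {X : ℝ}
    (h : CellBad H z (ref q) (ref g) (-x₁) (-x₀) α Am N' b X) :
    CellBad H z q g x₀ x₁ α Am N' b X := by
  obtain ⟨bad, h1, h2⟩ := h
  refine ⟨bad, h1, fun n hn hnb x hx hqx => ?_⟩
  have h3 := h2 n hn hnb (-x) ⟨by linarith [hx.2], by linarith [hx.1]⟩ (by
    rw [ref_eval, neg_neg]
    exact hqx)
  simp only [ref_eval, neg_neg] at h3
  exact h3

theorem core : ∃ K₀ : ℕ, 8 ≤ K₀ ∧ ∀ n₁ : ℕ, 10 ≤ n₁ → ∃ z₀ : ℝ, 20 ≤ z₀ ∧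
    ∀ (d k : ℕ) (z H ℓ : ℝ) (q g : ℝ[X]) (α Am : ℝ) (N' b : ℕ), z₀ ≤ z → PD d k z H q g →
    H = Real.exp ℓ → ℓ = z ^ (8 * (K₀ * n₁)) → (N' : ℝ) ≤ 3 * H → 1 ≤ |Am| → 2 ≤ b →
    ∃ bad : Finset ℕ, (bad.card : ℝ) ≤ H * Real.exp (-z ^ 2) ∧
      ∀ n ∈ Finset.Icc 1 N', n ∉ bad → ∀ x : ℝ, |x| ≤ Real.exp (2 * z) → q.eval x = α + n →
        Win (fun j => Am * (b : ℝ) ^ j * g.eval x) |Am| b
          (Real.exp (z ^ (8 * (K₀ * n₁) + 3 * n₁))) (z ^ 25) := by
  classical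
  obtain ⟨K₀, hK₀, hcd⟩ := cell_disc
  refine ⟨K₀, hK₀, fun n₁ hn₁ => ?_⟩
  obtain ⟨z₀, hz₀20, hcd⟩ := hcd n₁ hn₁
  refine ⟨z₀, hz₀20, ?_⟩
  intro d k z H ℓ q g α Am N' b hz₀ hp hH hℓ hN' hAm hb
  have hz := hp.hz
  have hHp := hp.hH
  obtain ⟨ρ, hρ⟩ : ∃ ρ : ℝ, ρ = Real.exp (-z ^ 6) := ⟨_, rfl⟩
  have hρ0 : 0 < ρ := by rw [hρ]; exact Real.exp_pos _
  have hρ' : ρ⁻¹ = Real.exp (z ^ 6) := by rw [hρ, Real.exp_neg, inv_inv]
  obtain ⟨X, hX⟩ : ∃ X : ℝ, X = Real.exp (z ^ (8 * (K₀ * n₁) + 3 * n₁)) := ⟨_, rfl⟩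
  -- the cells
  have hcell : ∀ x₀ : ℝ, (Cell z H q g (x₀ - ρ) (x₀ + 2 * ρ) ∨
      Cell z H (ref q) (ref g) (-(x₀ + 2 * ρ)) (-(x₀ - ρ))) →
      CellBad H z q g x₀ (x₀ + ρ) α Am N' b X := by
    intro x₀ h
    rcases h with h | h
    · rw [hX]
      exact cell_one hK₀ hn₁ hp hρ h hH hℓ hN' (fun A B h1 h2 h3 h4 =>
        hcd d k z H ℓ q g _ _ α Am A B b hz₀ hp h hH hℓ h1 h2 h3 h4 hAm hb)
    · have e1 : -(x₀ + 2 * ρ) = -(x₀ + ρ) - ρ := by ring
      have e2 : -(x₀ - ρ) = -(x₀ + ρ) + 2 * ρ := by ring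
      rw [e1, e2] at h
      rw [hX]
      apply CellBad.ref
      have h5 := cell_one hK₀ hn₁ hp.ref hρ h hH hℓ hN' (fun A B h1 h2 h3 h4 =>
        hcd d k z H ℓ (ref q) (ref g) _ _ α Am A B b hz₀ hp.ref h hH hℓ h1 h2 h3 h4 hAm hb)
      have e3 : -(x₀ + ρ) + ρ = -x₀ := by ring
      rw [e3] at h5
      exact h5
  obtain ⟨bd, hbd⟩ : ∃ bd : ℤ → Finset ℕ, ∀ i : ℤ, ((bd i).card : ℝ) ≤ H * Real.exp (-z ^ 7) ∧
      ((Cell z H q g (i * ρ - ρ) (i * ρ + 2 * ρ) ∨
        Cell z H (ref q) (ref g) (-(i * ρ + 2 * ρ)) (-(i * ρ - ρ))) →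
        ∀ n ∈ Finset.Icc 1 N', n ∉ bd i → ∀ x ∈ Icc (i * ρ) (i * ρ + ρ), q.eval x = α + n →
          Win (fun j => Am * (b : ℝ) ^ j * g.eval x) |Am| b X (z ^ 25)) := by
    have h1 : ∀ i : ℤ, ∃ s : Finset ℕ, (s.card : ℝ) ≤ H * Real.exp (-z ^ 7) ∧
      ((Cell z H q g (i * ρ - ρ) (i * ρ + 2 * ρ) ∨
        Cell z H (ref q) (ref g) (-(i * ρ + 2 * ρ)) (-(i * ρ - ρ))) →
        ∀ n ∈ Finset.Icc 1 N', n ∉ s → ∀ x ∈ Icc (i * ρ) (i * ρ + ρ), q.eval x = α + n →
          Win (fun j => Am * (b : ℝ) ^ j * g.eval x) |Am| b X (z ^ 25)) := by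
      intro i
      by_cases h : (Cell z H q g (i * ρ - ρ) (i * ρ + 2 * ρ) ∨
        Cell z H (ref q) (ref g) (-(i * ρ + 2 * ρ)) (-(i * ρ - ρ)))
      · obtain ⟨s, hs1, hs2⟩ := hcell _ h
        exact ⟨s, hs1, fun _ => hs2⟩
      · refine ⟨∅, ?_, fun h' => absurd h' h⟩
        rw [Finset.card_empty, Nat.cast_zero]
        positivity
    choose bd hbd using h1
    exact ⟨bd, hbd⟩
  obtain ⟨bq, hbq1, hbq2⟩ := few hp (p := derivative q) (N := d - 1)
    ((natDegree_derivative_le q).trans (by have := hp.hqd; omega)) (by omega)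
    (v := H * Real.exp (-z ^ 5) * 2) (V := H) (by positivity)
    (hp.hql.trans (dcoeff q (by have := hp.hd2; omega))) le_rfl hHp (α := α) (N' := N')
  obtain ⟨bg, hbg1, hbg2⟩ := few hp (p := derivative g) (N := k - 1)
    ((natDegree_derivative_le g).trans (by have := hp.hge; omega)) (by have := hp.hed; omega)
    (v := 1 * Real.exp (-z ^ 5) * 2) (V := 1) (by positivity)
    (by rw [one_mul]; exact hp.hgl.trans (dcoeff g hp.he1)) le_rfl one_pos (α := α) (N' := N')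
  obtain ⟨I, hI⟩ : ∃ I : ℕ, I = ⌈Real.exp (2 * z + z ^ 6)⌉₊ + 1 := ⟨_, rfl⟩
  have hI1 : Real.exp (2 * z + z ^ 6) + 1 ≤ I := by
    rw [hI]
    push_cast
    have := Nat.le_ceil (Real.exp (2 * z + z ^ 6))
    linarith
  have hI2 : (I : ℝ) ≤ Real.exp (2 * z + z ^ 6) + 2 := by
    rw [hI]
    push_cast
    have := Nat.ceil_lt_add_one (Real.exp_pos (2 * z + z ^ 6)).le
    linarith
  refine ⟨(Finset.Icc (-(I : ℤ)) I).biUnion bd ∪ (bq ∪ bg), ?_, ?_⟩
  · have h1 : (((Finset.Icc (-(I : ℤ)) I).biUnion bd ∪ (bq ∪ bg)).card : ℝ) ≤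
        (2 * I + 1) * (H * Real.exp (-z ^ 7)) + (z * (2 * (H * Real.exp (-z ^ 3)) + 1) +
          z * (2 * (H * Real.exp (-z ^ 3)) + 1)) := by
      have h2 := Finset.card_union_le ((Finset.Icc (-(I : ℤ)) I).biUnion bd) (bq ∪ bg)
      have h3 := Finset.card_union_le bq bg
      have h4 : (((Finset.Icc (-(I : ℤ)) I).biUnion bd).card : ℝ) ≤
          (2 * I + 1) * (H * Real.exp (-z ^ 7)) := by
        have h5 : (((Finset.Icc (-(I : ℤ)) I).biUnion bd).card : ℝ) ≤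
            ∑ i ∈ Finset.Icc (-(I : ℤ)) I, ((bd i).card : ℝ) := by
          exact_mod_cast Finset.card_biUnion_le
        refine h5.trans ?_
        calc ∑ i ∈ Finset.Icc (-(I : ℤ)) I, ((bd i).card : ℝ) ≤
            ∑ _i ∈ Finset.Icc (-(I : ℤ)) I, H * Real.exp (-z ^ 7) :=
              Finset.sum_le_sum fun i _ => (hbd i).1
          _ = (2 * I + 1) * (H * Real.exp (-z ^ 7)) := by
              rw [Finset.sum_const, nsmul_eq_mul, Int.card_Icc]
              congr 1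
              have h6 : ((I : ℤ) + 1 - -(I : ℤ)).toNat = 2 * I + 1 := by omega
              rw [h6]
              push_cast
              ring
      have h2' : (((Finset.Icc (-(I : ℤ)) I).biUnion bd ∪ (bq ∪ bg)).card : ℝ) ≤
          (((Finset.Icc (-(I : ℤ)) I).biUnion bd).card : ℝ) + ((bq ∪ bg).card : ℝ) := by
        exact_mod_cast h2
      have h3' : ((bq ∪ bg).card : ℝ) ≤ bq.card + bg.card := by exact_mod_cast h3
      linarith
    refine h1.trans ?_
    have hMbig : 640 ≤ 8 * (K₀ * n₁) := by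
      have : 8 * 10 ≤ K₀ * n₁ := Nat.mul_le_mul hK₀ hn₁
      omega
    have hl3 : z ^ 3 ≤ ℓ := by
      rw [hℓ]
      exact pow_le_pow_right₀ (by linarith) (by omega)
    have e1 : (1 : ℝ) ≤ H * Real.exp (-z ^ 3) := by
      rw [hH, ← Real.exp_add]
      apply Real.one_le_exp
      linarith
    have e2 : (2 * (I : ℝ) + 1) ≤ Real.exp (3 * z + z ^ 6) := by
      have h2 : Real.exp (3 * z + z ^ 6) = Real.exp z * Real.exp (2 * z + z ^ 6) := by
        rw [← Real.exp_add]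
        congr 1
        ring
      have h3 := exp_facts hz
      have h4 := Real.add_one_le_exp (2 * z + z ^ 6)
      have h5 : 0 ≤ z ^ 6 := by positivity
      rw [h2]
      nlinarith [h3.1, Real.exp_pos (2 * z + z ^ 6)]
    have e3 : (2 * (I : ℝ) + 1) * (H * Real.exp (-z ^ 7)) ≤ H * Real.exp (-z ^ 3) := by
      calc (2 * (I : ℝ) + 1) * (H * Real.exp (-z ^ 7)) ≤
          Real.exp (3 * z + z ^ 6) * (H * Real.exp (-z ^ 7)) := by gcongr
        _ = H * Real.exp (3 * z + z ^ 6 - z ^ 7) := by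
            rw [sub_eq_add_neg, Real.exp_add (3 * z + z ^ 6)]
            ring
        _ ≤ _ := by
            refine mul_le_mul_of_nonneg_left (Real.exp_le_exp.2 ?_) hHp.le
            have h2 := zpow_lt hz (show 6 < 7 by norm_num)
            have h3 : z ^ 1 ≤ z ^ 6 := pow_le_pow_right₀ (by linarith) (by norm_num)
            have h5 : z ^ 3 ≤ z ^ 6 := pow_le_pow_right₀ (by linarith) (by norm_num)
            rw [pow_one] at h3
            have h4 : 0 ≤ z ^ 6 := by positivity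
            linarith
    have e4 : z * (2 * (H * Real.exp (-z ^ 3)) + 1) ≤ 3 * z * (H * Real.exp (-z ^ 3)) := by
      nlinarith
    calc _ ≤ H * Real.exp (-z ^ 3) + (3 * z * (H * Real.exp (-z ^ 3)) +
          3 * z * (H * Real.exp (-z ^ 3))) := by linarith
      _ = (1 + 6 * z) * (H * Real.exp (-z ^ 3)) := by ring
      _ ≤ Real.exp (z ^ 2) * (H * Real.exp (-z ^ 3)) := by
          refine mul_le_mul_of_nonneg_right ?_ (by positivity)
          have h2 := Real.add_one_le_exp (z ^ 2)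
          nlinarith
      _ = H * Real.exp (z ^ 2 - z ^ 3) := by
          rw [sub_eq_add_neg, Real.exp_add]
          ring
      _ ≤ _ := by
          refine mul_le_mul_of_nonneg_left (Real.exp_le_exp.2 ?_) hHp.le
          have h2 := zpow_lt hz (show 2 < 3 by norm_num)
          have h3 : 0 ≤ z ^ 2 := by positivity
          linarith
  · intro n hn hnb x hx hqx
    rw [← hX]
    simp only [Finset.mem_union, Finset.mem_biUnion, not_or, not_exists, not_and] at hnb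
    obtain ⟨hn1, hn2, hn3⟩ := hnb
    have hx3 : |x| ≤ Real.exp (3 * z) := hx.trans (Real.exp_le_exp.2 (by linarith))
    obtain ⟨i, hi⟩ : ∃ i : ℤ, i = ⌊x / ρ⌋ := ⟨_, rfl⟩
    have hi1 : (i : ℝ) ≤ x / ρ := by rw [hi]; exact Int.floor_le _
    have hi2 : x / ρ < i + 1 := by rw [hi]; exact Int.lt_floor_add_one _
    rw [le_div_iff₀ hρ0] at hi1
    rw [div_lt_iff₀ hρ0] at hi2
    have hxI : x ∈ Icc (i * ρ) (i * ρ + ρ) := ⟨hi1, by linarith⟩
    have hxρ : |x / ρ| ≤ Real.exp (2 * z + z ^ 6) := by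
      rw [abs_div, abs_of_pos hρ0, div_eq_mul_inv, hρ', Real.exp_add]
      gcongr
    have hxρ' := _root_.abs_le.1 hxρ
    have hiI : i ∈ Finset.Icc (-(I : ℤ)) I := by
      rw [Finset.mem_Icc]
      have h1 : (i : ℝ) ≤ x / ρ := by rw [hi]; exact Int.floor_le _
      have h2 : x / ρ < i + 1 := by rw [hi]; exact Int.lt_floor_add_one _
      constructor
      · have : (-(I : ℝ)) ≤ i := by linarith
        exact_mod_cast this
      · have : (i : ℝ) ≤ I := by linarith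
        exact_mod_cast this
    exact (hbd i).2 (cell_good hp hρ hxI hx (hbq2 n hn hn2 x hx3 hqx) (hbg2 n hn hn3 x hx3 hqx))
      n hn (hn1 i hiI) x hxI hqx

end Pool.Agent.Q270.AF
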