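import Pool.Agent.Q270.VS.Bb

/-!
# Exponential sums with slowly varying differences
-/

set_option autoImplicit false

namespace Pool.Agent.Q270.AF

open Finset
open Pool.Agent.Y933.KD (e norm_e e_zero norm_e_sub_one two_mul_le_sin abs_sin_pi)
open Pool.Agent.Q270.VS (e_add e_close)

lemma e_sub_one_lower {x : ℝ} (hx : |x| ≤ 1 / 2) : 4 * |x| ≤ ‖e x - 1‖ := by
  rw [norm_e_sub_one]
  have h1 : |Real.sin (Real.pi * x)| = Real.sin (Real.pi * |x|) := by
    have h3 : |Real.sin (Real.pi * x)| = Real.sin |Real.pi * x| := by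
      apply Real.abs_sin_eq_sin_abs_of_abs_le_pi
      rw [abs_mul, abs_of_pos Real.pi_pos]
      nlinarith [Real.pi_pos, abs_nonneg x]
    rw [h3, abs_mul, abs_of_pos Real.pi_pos]
  rw [h1]
  have h2 := two_mul_le_sin (abs_nonneg x) hx
  linarith

/-- summation by parts -/
lemma parts {E w : ℕ → ℂ} {c : ℝ} {K : ℕ} (hE : ∀ i, ‖E i‖ ≤ 1)
    (hw : ∀ i < K, E i = w i * (E (i + 1) - E i))
    (hc : ∀ i, i + 1 < K → ‖w i - w (i + 1)‖ ≤ c) (n : ℕ) : n + 1 ≤ K →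
    ‖∑ i ∈ range (n + 1), E i - (w n * E (n + 1) - w 0 * E 0)‖ ≤ n * c := by
  induction n with
  | zero =>
    intro h
    have h1 := hw 0 (by omega)
    rw [zero_add, sum_range_one, Nat.cast_zero, zero_mul]
    have h2 : E 0 - (w 0 * E 1 - w 0 * E 0) = 0 := by
      rw [zero_add] at h1
      linear_combination h1
    rw [h2, norm_zero]
  | succ n ih =>
    intro h
    have h1 := hw (n + 1) (by omega)
    have h2 := ih (by omega)
    have h3 := hc n (by omega)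
    rw [sum_range_succ]
    have h4 : ∑ i ∈ range (n + 1), E i + E (n + 1) - (w (n + 1) * E (n + 1 + 1) - w 0 * E 0) =
        (∑ i ∈ range (n + 1), E i - (w n * E (n + 1) - w 0 * E 0)) +
          (w n - w (n + 1)) * E (n + 1) := by
      linear_combination h1
    rw [h4]
    refine (norm_add_le _ _).trans ?_
    have h5 : ‖(w n - w (n + 1)) * E (n + 1)‖ ≤ c := by
      rw [norm_mul]
      have h6 := hE (n + 1)
      have h7 := norm_nonneg (w n - w (n + 1))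
      nlinarith [norm_nonneg (E (n + 1))]
    push_cast
    linarith

/-- **sums with slowly varying differences** -/
theorem kl {Φ : ℕ → ℝ} {A B : ℕ} {δ η : ℝ} (hδ : 0 < δ) (hη : 0 ≤ η)
    (h1 : ∀ n ∈ Ioc A B, δ ≤ |Φ (n + 1) - Φ n| ∧ |Φ (n + 1) - Φ n| ≤ 1 / 2)
    (h2 : ∀ n ∈ Ioc A B, |Φ (n + 2) - 2 * Φ (n + 1) + Φ n| ≤ η) :
    ‖∑ n ∈ Ioc A B, e (Φ n)‖ ≤ 1 / (2 * δ) + (B - A : ℕ) * (η / (2 * δ ^ 2)) := by
  rcases le_or_gt B A with hAB | hAB
  · rw [Ioc_eq_empty (by omega), sum_empty, norm_zero]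
    positivity
  have hIoc : Ioc A B = Ico (A + 1) (B + 1) := by
    ext x
    simp only [mem_Ioc, mem_Ico]
    omega
  rw [hIoc, sum_Ico_eq_sum_range]
  obtain ⟨n, hn⟩ : ∃ n : ℕ, B - A = n + 1 := ⟨B - A - 1, by omega⟩
  have hBA : B + 1 - (A + 1) = n + 1 := by omega
  rw [hBA, hn]
  obtain ⟨E, hE⟩ : ∃ E : ℕ → ℂ, E = fun i => e (Φ (A + 1 + i)) := ⟨_, rfl⟩
  obtain ⟨w, hw⟩ : ∃ w : ℕ → ℂ, w = fun i => (e (Φ (A + 1 + i + 1) - Φ (A + 1 + i)) - 1)⁻¹ :=
    ⟨_, rfl⟩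
  have hmem : ∀ i < n + 1, A + 1 + i ∈ Ioc A B := by
    intro i hi
    rw [mem_Ioc]
    omega
  have hlow : ∀ i < n + 1, 4 * δ ≤ ‖e (Φ (A + 1 + i + 1) - Φ (A + 1 + i)) - 1‖ := by
    intro i hi
    obtain ⟨h3, h4⟩ := h1 _ (hmem i hi)
    have h5 := e_sub_one_lower h4
    linarith
  have hwn : ∀ i < n + 1, ‖w i‖ ≤ 1 / (4 * δ) := by
    intro i hi
    rw [hw]
    simp only
    rw [norm_inv, inv_eq_one_div]
    exact one_div_le_one_div_of_le (by positivity) (hlow i hi)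
  have hne : ∀ i < n + 1, e (Φ (A + 1 + i + 1) - Φ (A + 1 + i)) - 1 ≠ 0 := by
    intro i hi h0
    have := hlow i hi
    rw [h0, norm_zero] at this
    linarith
  have hE1 : ∀ i, ‖E i‖ ≤ 1 := by
    intro i
    rw [hE]
    simp only
    rw [norm_e]
  have hEw : ∀ i < n + 1, E i = w i * (E (i + 1) - E i) := by
    intro i hi
    rw [hE, hw]
    simp only
    have h3 : e (Φ (A + 1 + (i + 1))) = e (Φ (A + 1 + i)) *
        e (Φ (A + 1 + i + 1) - Φ (A + 1 + i)) := by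
      rw [← e_add]
      congr 1
      rw [← add_assoc]
      ring
    rw [h3]
    have h4 := hne i hi
    field_simp
  have hwc : ∀ i, i + 1 < n + 1 → ‖w i - w (i + 1)‖ ≤ η / (2 * δ ^ 2) := by
    intro i hi
    rw [hw]
    simp only
    have h3 := hne i (by omega)
    have h4 := hne (i + 1) hi
    have h5 := hlow i (by omega)
    have h6 := hlow (i + 1) hi
    have h7 : A + 1 + (i + 1) = A + 1 + i + 1 := by ring
    rw [h7] at h4 h6 ⊢
    obtain ⟨a, ha⟩ : ∃ a, a = Φ (A + 1 + i + 1) - Φ (A + 1 + i) := ⟨_, rfl⟩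
    obtain ⟨b, hb⟩ : ∃ b, b = Φ (A + 1 + i + 1 + 1) - Φ (A + 1 + i + 1) := ⟨_, rfl⟩
    rw [← ha] at h3 h5 ⊢
    rw [← hb] at h4 h6 ⊢
    have h8 : (e a - 1)⁻¹ - (e b - 1)⁻¹ = (e b - e a) * ((e a - 1)⁻¹ * (e b - 1)⁻¹) := by
      field_simp
      ring
    rw [h8, norm_mul, norm_mul, norm_inv, norm_inv]
    have h9 : ‖e b - e a‖ ≤ 2 * Real.pi * η := by
      refine (e_close b a).trans ?_
      refine mul_le_mul_of_nonneg_left ?_ (by positivity)
      have h10 := h2 _ (hmem i (by omega))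
      rw [hb, ha]
      refine le_trans (le_of_eq ?_) h10
      congr 1
      have : A + 1 + i + 2 = A + 1 + i + 1 + 1 := by ring
      rw [this]
      ring
    have h10 : ‖e a - 1‖⁻¹ ≤ (4 * δ)⁻¹ := inv_anti₀ (by positivity) h5
    have h11 : ‖e b - 1‖⁻¹ ≤ (4 * δ)⁻¹ := inv_anti₀ (by positivity) h6
    calc ‖e b - e a‖ * (‖e a - 1‖⁻¹ * ‖e b - 1‖⁻¹) ≤ (2 * Real.pi * η) * ((4 * δ)⁻¹ * (4 * δ)⁻¹) := by
          gcongr
      _ = (Real.pi / 4) * (η / (2 * δ ^ 2)) := by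
          field_simp
          ring
      _ ≤ 1 * (η / (2 * δ ^ 2)) := by
          refine mul_le_mul_of_nonneg_right ?_ (by positivity)
          have := Real.pi_lt_four
          linarith
      _ = _ := one_mul _
  have h3 := parts (K := n + 1) hE1 hEw hwc n le_rfl
  have h4 := hwn n (by omega)
  have h5 := hwn 0 (by omega)
  have h6 : ∑ i ∈ range (n + 1), e (Φ (A + 1 + i)) = ∑ i ∈ range (n + 1), E i := by rw [hE]
  rw [h6]
  have h7 : ∑ i ∈ range (n + 1), E i = (∑ i ∈ range (n + 1), E i -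
      (w n * E (n + 1) - w 0 * E 0)) + (w n * E (n + 1) - w 0 * E 0) := by ring
  rw [h7]
  refine (norm_add_le _ _).trans ?_
  have h8 : ‖w n * E (n + 1) - w 0 * E 0‖ ≤ 1 / (2 * δ) := by
    refine (norm_sub_le _ _).trans ?_
    rw [norm_mul, norm_mul]
    calc ‖w n‖ * ‖E (n + 1)‖ + ‖w 0‖ * ‖E 0‖ ≤ (1 / (4 * δ)) * 1 + (1 / (4 * δ)) * 1 := by
          gcongr
          · exact hE1 _
          · exact hE1 _
      _ = 1 / (2 * δ) := by
          field_simp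
          ring
  have h9 : (n : ℝ) * (η / (2 * δ ^ 2)) ≤ ((n + 1 : ℕ) : ℝ) * (η / (2 * δ ^ 2)) := by
    refine mul_le_mul_of_nonneg_right ?_ (by positivity)
    push_cast
    linarith
  linarith

end Pool.Agent.Q270.AF
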