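import Pool.Agent.Q270.AF.Pd
import Pool.Agent.Q270.AF.Kl

/-!
# Exponential sums over an interval: small frequencies
-/

set_option autoImplicit false

namespace Pool.Agent.Q270.AF

open Polynomial Set
open Pool.Agent.Y933.KD (e)

/-- powers of `z` -/
lemma zpow_lt {z : ℝ} (hz : 20 ≤ z) {a b : ℕ} (hab : a < b) : 20 * z ^ a ≤ z ^ b := by
  have h1 : z ^ (a + 1) ≤ z ^ b := pow_le_pow_right₀ (by linarith) hab
  have h2 : 0 ≤ z ^ a := by positivity
  rw [pow_succ] at h1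
  nlinarith

lemma zpow_lt' {z C : ℝ} (hz : 20 ≤ z) (hC : C ≤ z) {a b : ℕ} (hab : a < b) :
    C * z ^ a ≤ z ^ b := by
  have h1 : z ^ (a + 1) ≤ z ^ b := pow_le_pow_right₀ (by linarith) hab
  have h2 : 0 ≤ z ^ a := by positivity
  rw [pow_succ] at h1
  nlinarith

variable {d k : ℕ} {z H ℓ : ℝ} {q g : ℝ[X]} {c₁ c₂ α β : ℝ}

/-- the first differences -/
lemma Cell.diff1 (hp : PD d k z H q g) (h : Cell z H q g c₁ c₂) {a : ℝ} (ha : q.eval c₁ < a)
    (ha' : a + 1 < q.eval c₂) : ∃ y ∈ Ioo a (a + 1), psi q g c₁ c₂ 0 (a + 1) - psi q g c₁ c₂ 0 a =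
      psi q g c₁ c₂ 1 y := by
  have hinc := h.inc hp
  obtain ⟨y, hy, hy'⟩ := exists_hasDerivAt_eq_slope (psi q g c₁ c₂ 0) (psi q g c₁ c₂ 1)
    (show a < a + 1 by linarith)
    (fun y hy => (hinc.psi_deriv ⟨by linarith [hy.1], by linarith [hy.2]⟩ 0).continuousAt.continuousWithinAt)
    (fun y hy => hinc.psi_deriv ⟨by linarith [hy.1], by linarith [hy.2]⟩ 0)
  refine ⟨y, hy, ?_⟩
  rw [hy']
  have : a + 1 - a = 1 := by ring
  rw [this, div_one]

/-- **small frequencies** -/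
theorem Cell.small (hp : PD d k z H q g) (h : Cell z H q g c₁ c₂) (hH : H = Real.exp ℓ)
    (hℓ : z ^ 35 ≤ ℓ) {A B : ℕ} (hA : q.eval c₁ < α + A) (hB : α + B + 3 ≤ q.eval c₂)
    (hAB : ((B - A : ℕ) : ℝ) ≤ 3 * H) (hβ1 : Real.exp (z ^ 34) ≤ |β|)
    (hβ2 : |β| ≤ Real.exp (3 / 4 * ℓ)) :
    ‖∑ n ∈ Finset.Ioc A B, e (β * psi q g c₁ c₂ 0 (α + n))‖ ≤ H * Real.exp (-z ^ 33) := by
  have hz := hp.hz
  have hHp := hp.hH
  have hinc := h.inc hp
  have hβ : 0 < |β| := lt_of_lt_of_le (Real.exp_pos _) hβ1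
  obtain ⟨δ, hδ⟩ : ∃ δ : ℝ, δ = |β| * (Real.exp (-z ^ 5) / (H * Real.exp (z ^ 3))) := ⟨_, rfl⟩
  obtain ⟨η, hη⟩ : ∃ η : ℝ, η = |β| * (2 * (Real.exp (z ^ 6) / H) ^ 2) := ⟨_, rfl⟩
  have hδ0 : 0 < δ := by rw [hδ]; positivity
  have hη0 : 0 ≤ η := by rw [hη]; positivity
  have hmem : ∀ n ∈ Finset.Ioc A B, q.eval c₁ < α + n ∧ α + n + 3 ≤ q.eval c₂ := by
    intro n hn
    rw [Finset.mem_Ioc] at hn
    have h1 : (A : ℝ) ≤ n := by exact_mod_cast hn.1.le
    have h2 : (n : ℝ) ≤ B := by exact_mod_cast hn.2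
    constructor <;> linarith
  have h35 : z ^ 6 + 1 ≤ 1 / 4 * ℓ := by
    have h1 := zpow_lt hz (show 6 < 35 by norm_num)
    have h2 : 1 ≤ z ^ 6 := one_le_pow₀ (by linarith)
    linarith
  have hup : |β| * (Real.exp (z ^ 6) / H) ≤ 1 / 2 := by
    calc |β| * (Real.exp (z ^ 6) / H) ≤ Real.exp (3 / 4 * ℓ) * (Real.exp (z ^ 6) / H) := by gcongr
      _ = Real.exp (3 / 4 * ℓ + z ^ 6 - ℓ) := by
          rw [Real.exp_sub, Real.exp_add, hH]
          ring
      _ ≤ Real.exp (-1) := Real.exp_le_exp.2 (by linarith)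
      _ ≤ 1 / 2 := by
          rw [Real.exp_neg, inv_eq_one_div]
          apply one_div_le_one_div_of_le (by norm_num)
          have := Real.add_one_le_exp (1 : ℝ)
          linarith
  have hkl := kl (Φ := fun n => β * psi q g c₁ c₂ 0 (α + n)) (A := A) (B := B) hδ0 hη0 (by
    intro n hn
    obtain ⟨h1, h2⟩ := hmem n hn
    obtain ⟨y, hy, hy'⟩ := h.diff1 hp h1 (by linarith)
    have hyI : y ∈ Icc (q.eval c₁) (q.eval c₂) := ⟨by linarith [hy.1], by linarith [hy.2]⟩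
    have h3 : β * psi q g c₁ c₂ 0 (α + ((n + 1 : ℕ) : ℝ)) - β * psi q g c₁ c₂ 0 (α + n) =
        β * psi q g c₁ c₂ 1 y := by
      rw [← hy']
      push_cast
      rw [← add_assoc]
      ring
    rw [h3, abs_mul]
    constructor
    · rw [hδ]
      refine mul_le_mul_of_nonneg_left ?_ hβ.le
      have h4 := h.psi_ge hp hyI 0 (s := Real.exp (-z ^ 5)) (by
        rw [S_zero]
        exact h.hg _ (hinc.inv_mem hyI))
      simpa using h4
    · refine le_trans (mul_le_mul_of_nonneg_left ?_ hβ.le) hup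
      have h4 := h.psi_le hp hyI 0
      simpa using h4) (by
    intro n hn
    obtain ⟨h1, h2⟩ := hmem n hn
    obtain ⟨y, hy, hy'⟩ := h.diff1 hp h1 (by linarith)
    obtain ⟨y', hy2, hy2'⟩ := h.diff1 hp (a := α + n + 1) (by linarith) (by linarith)
    have h3 : β * psi q g c₁ c₂ 0 (α + ((n + 2 : ℕ) : ℝ)) -
        2 * (β * psi q g c₁ c₂ 0 (α + ((n + 1 : ℕ) : ℝ))) + β * psi q g c₁ c₂ 0 (α + n) =
        β * (psi q g c₁ c₂ 1 y' - psi q g c₁ c₂ 1 y) := by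
      rw [← hy', ← hy2']
      push_cast
      have h4 : α + ((n : ℝ) + 2) = α + n + 1 + 1 := by ring
      have h5 : α + ((n : ℝ) + 1) = α + n + 1 := by ring
      rw [h4, h5]
      ring
    rw [h3, abs_mul, hη]
    refine mul_le_mul_of_nonneg_left ?_ hβ.le
    have h4 : ∀ t ∈ Icc (α + n) (α + n + 2), HasDerivWithinAt (psi q g c₁ c₂ 1)
        (psi q g c₁ c₂ 2 t) (Icc (α + n) (α + n + 2)) t := fun t ht =>
      (hinc.psi_deriv ⟨by linarith [ht.1], by linarith [ht.2]⟩ 1).hasDerivWithinAt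
    have h5 : ∀ t ∈ Icc (α + n) (α + n + 2), ‖psi q g c₁ c₂ 2 t‖ ≤ (Real.exp (z ^ 6) / H) ^ 2 := by
      intro t ht
      rw [Real.norm_eq_abs]
      have := h.psi_le hp (y := t) ⟨by linarith [ht.1], by linarith [ht.2]⟩ 1
      simpa using this
    have h6 := (convex_Icc (α + n) (α + n + 2)).norm_image_sub_le_of_norm_hasDerivWithin_le h4 h5
      (x := y) (y := y') ⟨by linarith [hy.1], by linarith [hy.2]⟩
      ⟨by linarith [hy2.1], by linarith [hy2.2]⟩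
    rw [Real.norm_eq_abs, Real.norm_eq_abs] at h6
    refine h6.trans ?_
    rw [mul_comm]
    refine mul_le_mul_of_nonneg_right ?_ (by positivity)
    rw [_root_.abs_le]
    constructor
    · linarith [hy.1, hy.2, hy2.1, hy2.2]
    · linarith [hy.1, hy.2, hy2.1, hy2.2])
  refine hkl.trans ?_
  have e1 : 1 / (2 * δ) = 1 / 2 * (H * (Real.exp (z ^ 3 + z ^ 5) / |β|)) := by
    rw [hδ, Real.exp_add, Real.exp_neg]
    field_simp
  have e2 : η / (2 * δ ^ 2) = Real.exp (2 * z ^ 6 + 2 * (z ^ 3 + z ^ 5)) / |β| := by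
    rw [hη, hδ]
    have e3 : Real.exp (2 * z ^ 6 + 2 * (z ^ 3 + z ^ 5)) =
        Real.exp (z ^ 6) ^ 2 * (Real.exp (z ^ 3) ^ 2 * Real.exp (z ^ 5) ^ 2) := by
      rw [Real.exp_add, two_mul (z ^ 6), Real.exp_add, two_mul (z ^ 3 + z ^ 5), Real.exp_add,
        Real.exp_add]
      ring
    rw [e3, Real.exp_neg]
    field_simp
  rw [e1, e2]
  have h36 : z ^ 3 + z ^ 5 ≤ z ^ 6 := by
    have h1 := zpow_lt hz (show 5 < 6 by norm_num)
    have h2 : z ^ 3 ≤ z ^ 5 := pow_le_pow_right₀ (by linarith) (by norm_num)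
    have h3 : 0 ≤ z ^ 5 := by positivity
    linarith
  have e4 : Real.exp (z ^ 3 + z ^ 5) / |β| ≤ Real.exp (4 * z ^ 6 - z ^ 34) := by
    rw [Real.exp_sub]
    have h1 : 0 ≤ z ^ 6 := by positivity
    gcongr
    linarith
  have e5 : Real.exp (2 * z ^ 6 + 2 * (z ^ 3 + z ^ 5)) / |β| ≤ Real.exp (4 * z ^ 6 - z ^ 34) := by
    rw [Real.exp_sub]
    gcongr
    linarith
  calc 1 / 2 * (H * (Real.exp (z ^ 3 + z ^ 5) / |β|)) +
      ((B - A : ℕ) : ℝ) * (Real.exp (2 * z ^ 6 + 2 * (z ^ 3 + z ^ 5)) / |β|) ≤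
        1 / 2 * (H * Real.exp (4 * z ^ 6 - z ^ 34)) + (3 * H) * Real.exp (4 * z ^ 6 - z ^ 34) := by
        gcongr
    _ ≤ 4 * (H * Real.exp (4 * z ^ 6 - z ^ 34)) := by
        have : 0 ≤ H * Real.exp (4 * z ^ 6 - z ^ 34) := by positivity
        linarith
    _ ≤ Real.exp z * (H * Real.exp (4 * z ^ 6 - z ^ 34)) := by
        refine mul_le_mul_of_nonneg_right ?_ (by positivity)
        have := Real.add_one_le_exp z
        linarith
    _ = H * Real.exp (z + 4 * z ^ 6 - z ^ 34) := by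
        rw [add_sub_assoc, Real.exp_add]
        ring
    _ ≤ _ := by
        refine mul_le_mul_of_nonneg_left (Real.exp_le_exp.2 ?_) hHp.le
        have h1 := zpow_lt hz (show 33 < 34 by norm_num)
        have h2 : z ^ 1 ≤ z ^ 33 := pow_le_pow_right₀ (by linarith) (by norm_num)
        have h3 : z ^ 6 ≤ z ^ 33 := pow_le_pow_right₀ (by linarith) (by norm_num)
        have h4 : 0 ≤ z ^ 33 := by positivity
        rw [pow_one] at h2
        linarith

end Pool.Agent.Q270.AF
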