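import Pool.Agent.Q270.AF.Bl
import Pool.Agent.Q270.VS.Es2

/-!
# Exponential sums over an interval: large frequencies
-/

set_option autoImplicit false

namespace Pool.Agent.Q270.AF

open Polynomial Set
open Pool.Agent.Y933.KD (e norm_e)

/-- the parameters of the large frequencies -/
structure Par (z ℓ H : ℝ) (n₁ M : ℕ) (β : ℝ) (D r X : ℕ) : Prop where
  hz : 20 ≤ z
  hn : 10 ≤ n₁
  hM : 8 * n₁ ≤ M
  hℓ : ℓ = z ^ (8 * M)
  hH : H = Real.exp ℓ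
  hD1 : 2 * Real.log |β| + ℓ ≤ D * ℓ
  hD2 : D * ℓ ≤ 2 * Real.log |β| + 2 * ℓ
  hr1 : 16 * z ^ (4 * n₁) ≤ r
  hX1 : Real.exp (ℓ - z ^ (7 * M)) ≤ X
  hX2 : (X : ℝ) ≤ 2 * Real.exp (ℓ - z ^ (7 * M))
  hβ1 : 3 / 4 * ℓ ≤ Real.log |β|
  hβ2 : Real.log |β| ≤ z ^ (8 * M + 4 * n₁)
  hβ0 : 0 < |β|

variable {d k n₁ M D r X : ℕ} {z H ℓ : ℝ} {q g : ℝ[X]} {c₁ c₂ α β : ℝ}

lemma Par.M80 (h : Par z ℓ H n₁ M β D r X) : 80 ≤ M := by
  have h1 := h.hn
  have h2 := h.hM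
  omega

lemma Par.l0 (h : Par z ℓ H n₁ M β D r X) : 0 < ℓ := by
  have hz := h.hz
  rw [h.hℓ]
  positivity

lemma Par.l7 (h : Par z ℓ H n₁ M β D r X) : 20 * z ^ (7 * M) ≤ ℓ := by
  rw [h.hℓ]
  have := h.M80
  exact zpow_lt h.hz (by omega)

/-- the size of the degree -/
lemma Par.D_le (h : Par z ℓ H n₁ M β D r X) : (D : ℝ) ≤ 3 * z ^ (4 * n₁) := by
  have hz := h.hz
  have hl := h.l0
  have h1 : (D : ℝ) * ℓ ≤ (3 * z ^ (4 * n₁)) * ℓ := by
    refine h.hD2.trans ?_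
    have h2 := h.hβ2
    have h3 : z ^ (8 * M + 4 * n₁) = z ^ (4 * n₁) * ℓ := by
      rw [pow_add, h.hℓ]
      ring
    rw [h3] at h2
    have h4 := h.hn
    have h5 : 20 * z ^ 0 ≤ z ^ (4 * n₁) := zpow_lt hz (by omega)
    rw [pow_zero] at h5
    nlinarith
  exact le_of_mul_le_mul_right h1 hl

lemma Par.D_le' (h : Par z ℓ H n₁ M β D r X) : (D : ℝ) ≤ z ^ (4 * n₁ + 1) := by
  have hz := h.hz
  refine h.D_le.trans ?_
  rw [pow_succ, mul_comm]
  exact mul_le_mul_of_nonneg_left (by linarith) (by positivity)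

lemma Par.D_ge (h : Par z ℓ H n₁ M β D r X) : (5 / 2 : ℝ) ≤ D := by
  have hl := h.l0
  have h1 : (5 / 2 : ℝ) * ℓ ≤ D * ℓ := by
    have h2 := h.hD1
    have h3 := h.hβ1
    linarith
  exact le_of_mul_le_mul_right h1 hl

lemma Par.D3 (h : Par z ℓ H n₁ M β D r X) : 3 ≤ D := by
  have h1 := h.D_ge
  by_contra hcon
  push Not at hcon
  have h2 : (D : ℝ) ≤ 2 := by exact_mod_cast (by omega : D ≤ 2)
  linarith

lemma Par.hHp (h : Par z ℓ H n₁ M β D r X) : 0 < H := by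
  rw [h.hH]
  exact Real.exp_pos _

lemma Par.hXp (h : Par z ℓ H n₁ M β D r X) : (0 : ℝ) < X :=
  lt_of_lt_of_le (Real.exp_pos _) h.hX1

lemma Par.X_le (h : Par z ℓ H n₁ M β D r X) : (X : ℝ) ≤ H := by
  refine h.hX2.trans ?_
  have hz := h.hz
  rw [h.hH, Real.exp_sub]
  have h1 : (2 : ℝ) ≤ Real.exp (z ^ (7 * M)) := by
    have h2 := Real.add_one_le_exp (z ^ (7 * M))
    have h3 : 1 ≤ z ^ (7 * M) := one_le_pow₀ (by linarith)
    linarith
  rw [mul_div_assoc', div_le_iff₀ (Real.exp_pos _), mul_comm]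
  exact mul_le_mul_of_nonneg_left h1 (Real.exp_pos _).le

lemma Par.logX (h : Par z ℓ H n₁ M β D r X) : ℓ - z ^ (7 * M) ≤ Real.log X ∧ Real.log X ≤ ℓ := by
  constructor
  · rw [Real.le_log_iff_exp_le h.hXp]
    exact h.hX1
  · rw [Real.log_le_iff_le_exp h.hXp, ← h.hH]
    exact h.X_le

/-- factorials -/
lemma fac_exp (D : ℕ) : (D.factorial : ℝ) ≤ Real.exp ((D : ℝ) ^ 2) := by
  have h1 : (D.factorial : ℝ) ≤ (D : ℝ) ^ D := by exact_mod_cast Nat.factorial_le_pow D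
  refine h1.trans ?_
  rw [sq, Real.exp_nat_mul]
  refine pow_le_pow_left₀ (Nat.cast_nonneg _) ?_ D
  have := Real.add_one_le_exp (D : ℝ)
  linarith

/-- the window for the coefficient of degree `D`: the upper bound -/
lemma Par.up (h : Par z ℓ H n₁ M β D r X) :
    |β| * (Real.exp (z ^ 6) / H) ^ D ≤ (X : ℝ) ^ (-(D : ℝ) / 2) := by
  have hz := h.hz
  have hl := h.l0
  have hM := h.M80
  have hβ : |β| = Real.exp (Real.log |β|) := (Real.exp_log h.hβ0).symm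
  have h1 : (Real.exp (z ^ 6) / H) ^ D = Real.exp (D * (z ^ 6 - ℓ)) := by
    rw [h.hH, ← Real.exp_sub, Real.exp_nat_mul]
  have h2 : (X : ℝ) ^ (-(D : ℝ) / 2) = Real.exp (Real.log X * (-(D : ℝ) / 2)) :=
    Real.rpow_def_of_pos h.hXp _
  rw [h1, h2, hβ, ← Real.exp_add]
  apply Real.exp_le_exp.2
  have h3 := h.logX.2
  have h4 := h.hD1
  have hD := h.D_le'
  have hD0 : (0 : ℝ) ≤ D := Nat.cast_nonneg D
  have h5 : Real.log X * (-(D : ℝ) / 2) = -(Real.log X * (D / 2)) := by ring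
  rw [h5]
  have h6 : Real.log X * (D / 2) ≤ ℓ * (D / 2) := by gcongr
  have h7 : D * z ^ 6 ≤ ℓ / 20 := by
    calc D * z ^ 6 ≤ z ^ (4 * n₁ + 1) * z ^ 6 := by gcongr
      _ = z ^ (4 * n₁ + 1 + 6) := by rw [← pow_add]
      _ ≤ ℓ / 20 := by
          have h8 : 20 * z ^ (4 * n₁ + 1 + 6) ≤ z ^ (8 * M) := by
            refine zpow_lt hz ?_
            have := h.hM
            omega
          rw [← h.hℓ] at h8
          linarith
  linarith

/-- the lower bound -/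
lemma Par.low (h : Par z ℓ H n₁ M β D r X) :
    (X : ℝ) ^ (-(D : ℝ) + 2 * (1 / 16) * D + 2 * (1 / 16)) ≤
      |β| * ((H ^ (D - 1) * Real.exp (-z ^ (6 * M))) / (H * Real.exp (z ^ 3)) ^ (2 * (D - 1) + 1)) := by
  have hz := h.hz
  have hl := h.l0
  have hM := h.M80
  have hD3 := h.D3
  have hβ : |β| = Real.exp (Real.log |β|) := (Real.exp_log h.hβ0).symm
  have hX0 := h.hXp
  have h1 : H ^ (D - 1) * Real.exp (-z ^ (6 * M)) / (H * Real.exp (z ^ 3)) ^ (2 * (D - 1) + 1) =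
      Real.exp (-(z ^ (6 * M)) - D * ℓ - (2 * D - 1) * z ^ 3) := by
    have h2 : 2 * (D - 1) + 1 = (D - 1) + D := by omega
    have h3 : ((D - 1 : ℕ) : ℝ) = D - 1 := by
      rw [Nat.cast_sub (by omega)]
      simp
    rw [mul_pow, h2, pow_add H, ← Real.exp_nat_mul, h.hH, ← Real.exp_nat_mul, ← Real.exp_nat_mul]
    rw [← Real.exp_add, ← Real.exp_add, ← Real.exp_add, ← Real.exp_sub]
    congr 1
    push_cast
    rw [h3]
    ring
  rw [h1, hβ, ← Real.exp_add, Real.rpow_def_of_pos hX0]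
  apply Real.exp_le_exp.2
  obtain ⟨h3, h3'⟩ := h.logX
  have h4 := h.hD2
  have hD := h.D_le'
  have hDR : (3 : ℝ) ≤ D := by exact_mod_cast hD3
  have h5 : Real.log X * (-(D : ℝ) + 2 * (1 / 16) * D + 2 * (1 / 16)) =
      -(Real.log X * ((7 * D - 1) / 8)) := by ring
  rw [h5]
  have h6 : (ℓ - z ^ (7 * M)) * ((7 * D - 1) / 8) ≤ Real.log X * ((7 * D - 1) / 8) := by
    refine mul_le_mul_of_nonneg_right h3 ?_
    linarith
  have h7 : D * z ^ 3 ≤ ℓ / 400 := by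
    calc D * z ^ 3 ≤ z ^ (4 * n₁ + 1) * z ^ 3 := by gcongr
      _ = z ^ (4 * n₁ + 1 + 3) := by rw [← pow_add]
      _ ≤ ℓ / 400 := by
          have h8 : 20 * z ^ (4 * n₁ + 1 + 3) ≤ z ^ (4 * n₁ + 1 + 4) := zpow_lt hz (by omega)
          have h9 : 20 * z ^ (4 * n₁ + 1 + 4) ≤ z ^ (8 * M) := by
            refine zpow_lt hz ?_
            have := h.hM
            omega
          rw [← h.hℓ] at h9
          linarith
  have h8 : D * z ^ (7 * M) ≤ ℓ / 20 := by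
    calc D * z ^ (7 * M) ≤ z ^ (4 * n₁ + 1) * z ^ (7 * M) := by gcongr
      _ = z ^ (4 * n₁ + 1 + 7 * M) := by rw [← pow_add]
      _ ≤ ℓ / 20 := by
          have h9 : 20 * z ^ (4 * n₁ + 1 + 7 * M) ≤ z ^ (8 * M) := by
            refine zpow_lt hz ?_
            have := h.hM
            omega
          rw [← h.hℓ] at h9
          linarith
  have h9 : z ^ (6 * M) ≤ ℓ / 20 := by
    have h10 : 20 * z ^ (6 * M) ≤ z ^ (8 * M) := zpow_lt hz (by omega)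
    rw [← h.hℓ] at h10
    linarith
  have h10 : 0 ≤ z ^ 3 := by positivity
  have h11 : 0 ≤ z ^ (7 * M) := by positivity
  have h12 := h.hβ1
  have h13 : (ℓ - z ^ (7 * M)) * ((7 * D - 1) / 8) = (7 / 8) * (D * ℓ) - ℓ / 8 -
      (7 / 8) * (D * z ^ (7 * M)) + z ^ (7 * M) / 8 := by ring
  rw [h13] at h6
  have h14 : (2 * (D : ℝ) - 1) * z ^ 3 = 2 * (D * z ^ 3) - z ^ 3 := by ring
  rw [h14]
  linarith

end Pool.Agent.Q270.AF
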