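import Pool.Agent.Q270.AF.Ex2

/-!
# Exponential sums over an interval: the numerators of the derivatives at large frequencies
-/

set_option autoImplicit false

namespace Pool.Agent.Q270.AF

open Polynomial Set
open Pool.Agent.Y933.KD (e norm_e)

variable {d k n₁ M D r X : ℕ} {z H ℓ : ℝ} {q g : ℝ[X]} {c₁ c₂ α β : ℝ}

/-- the threshold -/
noncomputable def thr (z H : ℝ) (M D : ℕ) : ℝ :=
  D.factorial * (H ^ (D - 1) * Real.exp (-z ^ (6 * M)))

/-- the degree -/
def dg (d k D : ℕ) : ℕ := (d - 2) * (D - 1) + (k - 1)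

lemma dg_le (hd2 : 2 ≤ d) (hk : k < d) (hD : 1 ≤ D) : dg d k D ≤ d * D := by
  unfold dg
  obtain ⟨j, hj⟩ : ∃ j, D = j + 1 := ⟨D - 1, by omega⟩
  rw [hj, Nat.add_sub_cancel]
  have h1 : (d - 2) * j ≤ d * j := Nat.mul_le_mul_right j (by omega)
  rw [Nat.mul_add, Nat.mul_one]
  omega

lemma fac_split (hD : 1 ≤ D) : (D : ℝ) * ((D - 1).factorial : ℝ) = D.factorial := by
  obtain ⟨j, hj⟩ : ∃ j, D = j + 1 := ⟨D - 1, by omega⟩
  rw [hj, Nat.add_sub_cancel, Nat.factorial_succ]
  push_cast
  ring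

/-- the variation of the numerator over a block -/
lemma Par.lip (h : Par z ℓ H n₁ M β D r X) (hp : PD d k z H q g) {x y : ℝ}
    (hx : |x| ≤ Real.exp (3 * z)) (hy : |y| ≤ Real.exp (3 * z))
    (hxy : Real.exp (-z ^ 5) * H * |x - y| ≤ X) :
    |(S q g (D - 1)).eval x - (S q g (D - 1)).eval y| ≤ thr z H M D := by
  have hz := h.hz
  have hH := h.hHp
  have hD3 := h.D3
  have hdeg := S_natDegree hp.hqd hp.hd2 hp.hge (D - 1)
  have h1 := eval_lip (w1 hz) hx hy hdeg
  have h2 := hp.S_le (D - 1)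
  have h3 : (((d - 2) * (D - 1) + (k - 1) : ℕ) : ℝ) ≤ d * D := by
    have := dg_le hp.hd2 hp.hed (show 1 ≤ D by omega)
    unfold dg at this
    exact_mod_cast this
  have h4 : |x - y| ≤ Real.exp (z ^ 5) * (2 * Real.exp (-z ^ (7 * M))) := by
    have h5 : Real.exp (-z ^ 5) * H * |x - y| ≤ H * (2 * Real.exp (-z ^ (7 * M))) := by
      refine hxy.trans (h.hX2.trans (le_of_eq ?_))
      rw [h.hH, sub_eq_add_neg, Real.exp_add]
      ring
    have h6 : Real.exp (-z ^ 5) * |x - y| ≤ 2 * Real.exp (-z ^ (7 * M)) := by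
      refine le_of_mul_le_mul_left ?_ hH
      calc H * (Real.exp (-z ^ 5) * |x - y|) = Real.exp (-z ^ 5) * H * |x - y| := by ring
        _ ≤ _ := h5
    have h7 : |x - y| = Real.exp (z ^ 5) * (Real.exp (-z ^ 5) * |x - y|) := by
      rw [← mul_assoc, ← Real.exp_add, add_neg_cancel, Real.exp_zero, one_mul]
    rw [h7]
    exact mul_le_mul_of_nonneg_left h6 (Real.exp_pos _).le
  have hW := W_nonneg (show 0 ≤ Real.exp (3 * z) from (Real.exp_pos _).le) (S q g (D - 1))
  have hexp := Real.exp_pos (z ^ 3)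
  refine h1.trans ?_
  calc (((d - 2) * (D - 1) + (k - 1) : ℕ) : ℝ) * W (Real.exp (3 * z)) (S q g (D - 1)) * |x - y| ≤
      (d * D) * ((H * Real.exp (z ^ 3)) ^ (D - 1) * (D - 1).factorial * Real.exp (z ^ 3)) *
        (Real.exp (z ^ 5) * (2 * Real.exp (-z ^ (7 * M)))) := by gcongr
    _ = (D * (D - 1).factorial) * (H ^ (D - 1) * (2 * d * (Real.exp (z ^ 3) ^ (D - 1) *
        Real.exp (z ^ 3)) * Real.exp (z ^ 5) * Real.exp (-z ^ (7 * M)))) := by
        rw [mul_pow]
        ring
    _ = D.factorial * (H ^ (D - 1) * (2 * d * Real.exp (z ^ 3) ^ D * Real.exp (z ^ 5) *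
        Real.exp (-z ^ (7 * M)))) := by
        rw [fac_split (by omega), ← pow_succ]
        have : D - 1 + 1 = D := by omega
        rw [this]
    _ ≤ D.factorial * (H ^ (D - 1) * Real.exp (-z ^ (6 * M))) := by
        have hfac : (0 : ℝ) ≤ D.factorial := Nat.cast_nonneg _
        refine mul_le_mul_of_nonneg_left (mul_le_mul_of_nonneg_left ?_ (by positivity)) hfac
        have h8 : (2 : ℝ) * d ≤ Real.exp (2 * z) := by
          have h9 := hp.dz
          have h10 := (exp_facts hz).2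
          have h11 : (0 : ℝ) ≤ d := Nat.cast_nonneg d
          rw [two_mul z, Real.exp_add]
          have h12 := Real.exp_pos z
          nlinarith
        calc 2 * (d : ℝ) * Real.exp (z ^ 3) ^ D * Real.exp (z ^ 5) * Real.exp (-z ^ (7 * M)) ≤
            Real.exp (2 * z) * Real.exp (z ^ 3) ^ D * Real.exp (z ^ 5) *
              Real.exp (-z ^ (7 * M)) := by gcongr
          _ = Real.exp (2 * z + D * z ^ 3 + z ^ 5 + -z ^ (7 * M)) := by
              rw [← Real.exp_nat_mul, ← Real.exp_add, ← Real.exp_add, ← Real.exp_add]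
          _ ≤ _ := by
              apply Real.exp_le_exp.2
              have hM := h.M80
              have hMn := h.hM
              have e1 : D * z ^ 3 ≤ z ^ (6 * M) := by
                calc D * z ^ 3 ≤ z ^ (4 * n₁ + 1) * z ^ 3 := by
                      have := h.D_le'
                      gcongr
                  _ = z ^ (4 * n₁ + 1 + 3) := by rw [← pow_add]
                  _ ≤ _ := pow_le_pow_right₀ (by linarith) (by omega)
              have e2 : z ^ 5 ≤ z ^ (6 * M) := pow_le_pow_right₀ (by linarith) (by omega)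
              have e3 : z ^ 1 ≤ z ^ (6 * M) := pow_le_pow_right₀ (by linarith) (by omega)
              have e4 : 20 * z ^ (6 * M) ≤ z ^ (7 * M) := zpow_lt hz (by omega)
              rw [pow_one] at e3
              have e5 : 0 ≤ z ^ (6 * M) := by positivity
              linarith

/-- the threshold against the leading coefficient -/
lemma Par.lead (h : Par z ℓ H n₁ M β D r X) (hp : PD d k z H q g) :
    2 * thr z H M D ≤ |(S q g (D - 1)).coeff (dg d k D)| *
      Real.exp (-z ^ (4 * M)) ^ (dg d k D) := by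
  have hz := h.hz
  have hH := h.hHp
  have hD3 := h.D3
  have h1 := S_lead hp.hqd hp.hd2 hp.hge hp.he1 hp.hed (D - 1)
  have h2 : (H * Real.exp (-z)) ^ (D - 1) * Real.exp (-z) ≤
      |(S q g (D - 1)).coeff (dg d k D)| := by
    refine le_trans ?_ h1
    have h3 := hp.hql
    have h4 := hp.hgl
    gcongr
  refine le_trans ?_ (mul_le_mul_of_nonneg_right h2 (by positivity))
  have h5 : (H * Real.exp (-z)) ^ (D - 1) * Real.exp (-z) = H ^ (D - 1) * Real.exp (-(z * D)) := by
    rw [mul_pow, mul_assoc, ← pow_succ, show D - 1 + 1 = D by omega, ← Real.exp_nat_mul]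
    congr 2
    ring
  rw [h5, ← Real.exp_nat_mul]
  unfold thr
  have h6 : (2 : ℝ) * D.factorial ≤ Real.exp (1 + (D : ℝ) ^ 2) := by
    rw [Real.exp_add]
    have h7 := fac_exp D
    have h8 := Real.add_one_le_exp (1 : ℝ)
    have h9 : (0 : ℝ) ≤ D.factorial := Nat.cast_nonneg _
    have h10 := Real.exp_pos ((D : ℝ) ^ 2)
    nlinarith
  calc 2 * ((D.factorial : ℝ) * (H ^ (D - 1) * Real.exp (-z ^ (6 * M)))) =
      H ^ (D - 1) * ((2 * D.factorial) * Real.exp (-z ^ (6 * M))) := by ring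
    _ ≤ H ^ (D - 1) * (Real.exp (1 + (D : ℝ) ^ 2) * Real.exp (-z ^ (6 * M))) := by gcongr
    _ = H ^ (D - 1) * Real.exp (1 + (D : ℝ) ^ 2 + -z ^ (6 * M)) := by rw [← Real.exp_add]
    _ ≤ H ^ (D - 1) * Real.exp (-(z * D) + (dg d k D : ℕ) * -z ^ (4 * M)) := by
        refine mul_le_mul_of_nonneg_left (Real.exp_le_exp.2 ?_) (by positivity)
        have hM := h.M80
        have hMn := h.hM
        have hD' := h.D_le'
        have hD0 : (0 : ℝ) ≤ D := Nat.cast_nonneg D
        have hdg : ((dg d k D : ℕ) : ℝ) ≤ z * D := by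
          have := dg_le hp.hd2 hp.hed (show 1 ≤ D by omega)
          calc ((dg d k D : ℕ) : ℝ) ≤ ((d * D : ℕ) : ℝ) := by exact_mod_cast this
            _ = d * D := by push_cast; ring
            _ ≤ z * D := mul_le_mul_of_nonneg_right hp.hdz hD0
        have e1 : (D : ℝ) ^ 2 ≤ z ^ (5 * M) := by
          calc (D : ℝ) ^ 2 ≤ (z ^ (4 * n₁ + 1)) ^ 2 := by gcongr
            _ = z ^ ((4 * n₁ + 1) * 2) := by rw [← pow_mul]
            _ ≤ _ := pow_le_pow_right₀ (by linarith) (by omega)
        have e2 : z * D ≤ z ^ (5 * M) := by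
          calc z * D ≤ z * z ^ (4 * n₁ + 1) := by gcongr
            _ = z ^ (4 * n₁ + 1 + 1) := by ring
            _ ≤ _ := pow_le_pow_right₀ (by linarith) (by omega)
        have e3 : (dg d k D : ℕ) * z ^ (4 * M) ≤ z ^ (5 * M) := by
          calc ((dg d k D : ℕ) : ℝ) * z ^ (4 * M) ≤ (z * D) * z ^ (4 * M) := by gcongr
            _ ≤ (z * z ^ (4 * n₁ + 1)) * z ^ (4 * M) := by gcongr
            _ = z ^ (4 * n₁ + 1 + 1 + 4 * M) := by rw [pow_add _ (4 * n₁ + 1 + 1)]; ring
            _ ≤ _ := pow_le_pow_right₀ (by linarith) (by omega)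
        have e4 : 20 * z ^ (5 * M) ≤ z ^ (6 * M) := zpow_lt hz (by omega)
        have e5 : 1 ≤ z ^ (5 * M) := one_le_pow₀ (by linarith)
        have e6 : ((dg d k D : ℕ) : ℝ) * -z ^ (4 * M) = -((dg d k D : ℕ) * z ^ (4 * M)) := by ring
        rw [e6]
        linarith
    _ = _ := by
        rw [Real.exp_add]
        ring

/-- the number of the bad points -/
lemma Par.count (h : Par z ℓ H n₁ M β D r X) (hp : PD d k z H q g) :
    ((dg d k D : ℕ) : ℝ) * (2 * Real.exp (-z ^ (4 * M)) * (H * Real.exp (z ^ 3)) + 1) ≤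
      H * Real.exp (-z ^ 34) := by
  have hz := h.hz
  have hH := h.hHp
  have hD3 := h.D3
  have hM := h.M80
  have hMn := h.hM
  have hD' := h.D_le'
  have hD0 : (0 : ℝ) ≤ D := Nat.cast_nonneg D
  have hdg : ((dg d k D : ℕ) : ℝ) ≤ z ^ (4 * n₁ + 2) := by
    have := dg_le hp.hd2 hp.hed (show 1 ≤ D by omega)
    calc ((dg d k D : ℕ) : ℝ) ≤ ((d * D : ℕ) : ℝ) := by exact_mod_cast this
      _ = d * D := by push_cast; ring
      _ ≤ z * z ^ (4 * n₁ + 1) := by
          have := hp.hdz
          gcongr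
      _ = _ := by ring
  have h1 : ((dg d k D : ℕ) : ℝ) ≤ Real.exp (z ^ (4 * n₁ + 2)) := by
    refine hdg.trans ?_
    have := Real.add_one_le_exp (z ^ (4 * n₁ + 2))
    linarith
  have h2 : (1 : ℝ) ≤ Real.exp (-z ^ (4 * M)) * (H * Real.exp (z ^ 3)) := by
    rw [h.hH, ← Real.exp_add, ← Real.exp_add]
    apply Real.one_le_exp
    have e1 : 20 * z ^ (4 * M) ≤ z ^ (8 * M) := zpow_lt hz (by omega)
    rw [← h.hℓ] at e1
    have e2 : 0 ≤ z ^ (4 * M) := by positivity
    have e3 : 0 ≤ z ^ 3 := by positivity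
    linarith
  calc ((dg d k D : ℕ) : ℝ) * (2 * Real.exp (-z ^ (4 * M)) * (H * Real.exp (z ^ 3)) + 1) ≤
      Real.exp (z ^ (4 * n₁ + 2)) * (3 * (Real.exp (-z ^ (4 * M)) * (H * Real.exp (z ^ 3)))) := by
        refine mul_le_mul h1 ?_ (by positivity) (by positivity)
        linarith
    _ ≤ Real.exp (z ^ (4 * n₁ + 2)) * (Real.exp z * (Real.exp (-z ^ (4 * M)) *
          (H * Real.exp (z ^ 3)))) := by
        have := (exp_facts hz).2
        gcongr
    _ = H * Real.exp (z ^ (4 * n₁ + 2) + z + -z ^ (4 * M) + z ^ 3) := by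
        simp only [Real.exp_add]
        ring
    _ ≤ _ := by
        refine mul_le_mul_of_nonneg_left (Real.exp_le_exp.2 ?_) hH.le
        obtain ⟨P, hP⟩ : ∃ P : ℝ, P = z ^ (4 * M - 1) := ⟨_, rfl⟩
        have e0 : 0 ≤ P := by rw [hP]; positivity
        have e1 : z ^ (4 * n₁ + 2) ≤ P := by
          rw [hP]
          exact pow_le_pow_right₀ (by linarith) (by omega)
        have e2 : z ^ 1 ≤ P := by
          rw [hP]
          exact pow_le_pow_right₀ (by linarith) (by omega)
        have e3 : z ^ 3 ≤ P := by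
          rw [hP]
          exact pow_le_pow_right₀ (by linarith) (by omega)
        have e4 : z ^ 34 ≤ P := by
          rw [hP]
          exact pow_le_pow_right₀ (by linarith) (by omega)
        have e5 : 20 * P ≤ z ^ (4 * M) := by
          rw [hP]
          exact zpow_lt hz (by omega)
        rw [pow_one] at e2
        linarith

end Pool.Agent.Q270.AF
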