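import Pool.Agent.Q270.AF.Ex3

/-!
# Exponential sums over an interval: all frequencies
-/

set_option autoImplicit false

namespace Pool.Agent.Q270.AF

open Polynomial Set
open Pool.Agent.Y933.KD (e norm_e)

variable {d k n₁ M D r X : ℕ} {z H ℓ : ℝ} {q g : ℝ[X]} {c₁ c₂ α β : ℝ}

/-- the remainder of the Taylor expansion -/
lemma Par.rem (h : Par z ℓ H n₁ M β D r X) (hp : PD d k z H q g) (hc : Cell z H q g c₁ c₂)
    {a t : ℝ} (ha : q.eval c₁ < a) (ht : 0 ≤ t) (hat : a + t < q.eval c₂)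
    (htX : t ≤ (X : ℝ) ^ (1 - 2 * (1 / 16) : ℝ)) :
    |β * psi q g c₁ c₂ 0 (a + t) - β * psi q g c₁ c₂ 0 a - ∑ j ∈ Finset.Icc 1 r,
      (β * (psi q g c₁ c₂ j a / (j.factorial : ℝ))) * t ^ j| ≤
        Real.exp (-(2 * √(Real.log X))) := by
  have hz := h.hz
  have hl := h.l0
  have hH := h.hHp
  have hM := h.M80
  have h1 := (hc.inc hp).psi_taylor (g := g) (r := r)
    (M := r.factorial * (Real.exp (z ^ 6) / H) ^ (r + 1)) ht ha hat
    (fun y hy => hc.psi_le hp ⟨by linarith [hy.1], by linarith [hy.2]⟩ r)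
  have h2 : β * psi q g c₁ c₂ 0 (a + t) - β * psi q g c₁ c₂ 0 a - ∑ j ∈ Finset.Icc 1 r,
      (β * (psi q g c₁ c₂ j a / (j.factorial : ℝ))) * t ^ j =
      β * (psi q g c₁ c₂ 0 (a + t) - psi q g c₁ c₂ 0 a - ∑ j ∈ Finset.Icc 1 r,
      (psi q g c₁ c₂ j a / (j.factorial : ℝ)) * t ^ j) := by
    rw [mul_sub, mul_sub, Finset.mul_sum]
    congr 1
    refine Finset.sum_congr rfl fun j _ => ?_
    ring
  rw [h2, abs_mul]
  have h3 : t ≤ Real.exp (7 / 8 * ℓ) := by
    refine htX.trans ?_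
    rw [Real.rpow_def_of_pos h.hXp]
    apply Real.exp_le_exp.2
    have := h.logX.2
    linarith
  have hfac : (0 : ℝ) < r.factorial := by exact_mod_cast r.factorial_pos
  have hfac' : (r.factorial : ℝ) / ((r + 1).factorial : ℝ) ≤ 1 := by
    rw [div_le_one (by exact_mod_cast (r + 1).factorial_pos)]
    exact_mod_cast Nat.factorial_le (by omega)
  have h4 : (Real.exp (z ^ 6) / H * t) ^ (r + 1) ≤ Real.exp (-(ℓ / 16)) ^ (r + 1) := by
    refine pow_le_pow_left₀ (by positivity) ?_ _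
    calc Real.exp (z ^ 6) / H * t ≤ Real.exp (z ^ 6) / H * Real.exp (7 / 8 * ℓ) := by gcongr
      _ = Real.exp (z ^ 6 - ℓ + 7 / 8 * ℓ) := by
          rw [h.hH, Real.exp_add, Real.exp_sub]
      _ ≤ _ := by
          apply Real.exp_le_exp.2
          have e1 : 20 * z ^ 6 ≤ z ^ (8 * M) := zpow_lt hz (by omega)
          rw [← h.hℓ] at e1
          linarith
  have hβ : |β| = Real.exp (Real.log |β|) := (Real.exp_log h.hβ0).symm
  calc |β| * |psi q g c₁ c₂ 0 (a + t) - psi q g c₁ c₂ 0 a - ∑ j ∈ Finset.Icc 1 r,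
      (psi q g c₁ c₂ j a / (j.factorial : ℝ)) * t ^ j| ≤
      |β| * ((r.factorial * (Real.exp (z ^ 6) / H) ^ (r + 1)) * t ^ (r + 1) /
        ((r + 1).factorial : ℝ)) := by gcongr
    _ = |β| * ((r.factorial / ((r + 1).factorial : ℝ)) * (Real.exp (z ^ 6) / H * t) ^ (r + 1)) := by
        rw [mul_pow]
        ring
    _ ≤ |β| * (1 * Real.exp (-(ℓ / 16)) ^ (r + 1)) := by gcongr
    _ = Real.exp (Real.log |β| - (r + 1) * (ℓ / 16)) := by
        rw [one_mul, hβ, ← Real.exp_nat_mul, ← Real.exp_add, Real.log_exp]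
        congr 1
        push_cast
        ring
    _ ≤ _ := by
        apply Real.exp_le_exp.2
        have e1 := h.hβ2
        have e2 : z ^ (8 * M + 4 * n₁) = z ^ (4 * n₁) * ℓ := by
          rw [pow_add, h.hℓ]
          ring
        rw [e2] at e1
        have e3 := h.hr1
        have e4 : z ^ (4 * n₁) * ℓ ≤ r * (ℓ / 16) := by nlinarith
        have e5 : 2 * √(Real.log X) ≤ ℓ / 16 := by
          have e6 : √(Real.log X) ≤ z ^ (4 * M) := by
            rw [Real.sqrt_le_left (by positivity), ← pow_mul]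
            refine h.logX.2.trans (le_of_eq ?_)
            rw [h.hℓ]
            congr 1
            ring
          have e7 : 20 * z ^ (4 * M) ≤ z ^ (4 * M + 1) := zpow_lt hz (by omega)
          have e8 : 20 * z ^ (4 * M + 1) ≤ z ^ (8 * M) := zpow_lt hz (by omega)
          rw [← h.hℓ] at e8
          have e9 : 0 ≤ z ^ (4 * M) := by positivity
          linarith
        linarith

/-- **large frequencies** -/
theorem large : ∃ K₀ : ℕ, 8 ≤ K₀ ∧ ∀ n₁ : ℕ, 10 ≤ n₁ → ∃ z₀ : ℝ, ∀ (d k : ℕ) (z H ℓ : ℝ)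
    (q g : ℝ[X]) (c₁ c₂ α β : ℝ) (A B : ℕ), z₀ ≤ z → PD d k z H q g → Cell z H q g c₁ c₂ →
    H = Real.exp ℓ → ℓ = z ^ (8 * (K₀ * n₁)) → q.eval c₁ < α + A →
    α + B + Real.exp (15 / 16 * ℓ) ≤ q.eval c₂ → ((B - A : ℕ) : ℝ) ≤ 3 * H →
    Real.exp (3 / 4 * ℓ) ≤ |β| → |β| ≤ Real.exp (z ^ (8 * (K₀ * n₁) + 4 * n₁)) →
    ‖∑ n ∈ Finset.Ioc A B, e (β * psi q g c₁ c₂ 0 (α + n))‖ ≤ H * Real.exp (-z ^ 33) := by
  obtain ⟨K', hK', hes⟩ := Pool.Agent.Q270.VS.es2
  refine ⟨max K' 8, le_max_right _ _, ?_⟩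
  obtain ⟨K₀, hK₀⟩ : ∃ K₀ : ℕ, K₀ = max K' 8 := ⟨_, rfl⟩
  rw [← hK₀]
  have hK8 : 8 ≤ K₀ := by rw [hK₀]; exact le_max_right _ _
  have hKK : K' ≤ K₀ := by rw [hK₀]; exact le_max_left _ _
  intro n₁ hn₁
  obtain ⟨r0, X0, hr0, hes⟩ := hes (1 / 16) (by norm_num) le_rfl
  refine ⟨max 20 (max r0 X0), ?_⟩
  intro d k z H ℓ q g c₁ c₂ α β A B hz₀ hp hc hH hℓ hA hB hAB hβ1 hβ2
  have hz : 20 ≤ z := (le_max_left _ _).trans hz₀
  have hzr : (r0 : ℝ) ≤ z := ((le_max_left _ _).trans (le_max_right _ _)).trans hz₀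
  have hzX : (X0 : ℝ) ≤ z := ((le_max_right _ _).trans (le_max_right _ _)).trans hz₀
  obtain ⟨M, hM⟩ : ∃ M : ℕ, M = K₀ * n₁ := ⟨_, rfl⟩
  rw [← hM] at hℓ hβ2
  have hMn : 8 * n₁ ≤ M := by
    rw [hM]
    exact Nat.mul_le_mul_right n₁ hK8
  have hM80 : 80 ≤ M := by omega
  have hKM : K₀ ≤ M := by
    rw [hM]
    exact Nat.le_mul_of_pos_right K₀ (by omega)
  have hl0 : 0 < ℓ := by rw [hℓ]; positivity
  have hβ0 : 0 < |β| := lt_of_lt_of_le (Real.exp_pos _) hβ1
  have hL1 : 3 / 4 * ℓ ≤ Real.log |β| := by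
    rw [Real.le_log_iff_exp_le hβ0]
    exact hβ1
  have hL2 : Real.log |β| ≤ z ^ (8 * M + 4 * n₁) := by
    rw [Real.log_le_iff_le_exp hβ0]
    exact hβ2
  obtain ⟨D, hD⟩ : ∃ D : ℕ, D = ⌈2 * Real.log |β| / ℓ⌉₊ + 1 := ⟨_, rfl⟩
  obtain ⟨r, hr⟩ : ∃ r : ℕ, r = ⌈16 * z ^ (4 * n₁)⌉₊ := ⟨_, rfl⟩
  obtain ⟨X, hX⟩ : ∃ X : ℕ, X = ⌈Real.exp (ℓ - z ^ (7 * M))⌉₊ := ⟨_, rfl⟩
  have hpar : Par z ℓ H n₁ M β D r X := by
    refine ⟨hz, hn₁, hMn, hℓ, hH, ?_, ?_, ?_, ?_, ?_, hL1, hL2, hβ0⟩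
    · have h1 : 2 * Real.log |β| / ℓ ≤ (⌈2 * Real.log |β| / ℓ⌉₊ : ℝ) := Nat.le_ceil _
      rw [div_le_iff₀ hl0] at h1
      rw [hD]
      push_cast
      linarith
    · have h1 : (⌈2 * Real.log |β| / ℓ⌉₊ : ℝ) < 2 * Real.log |β| / ℓ + 1 :=
        Nat.ceil_lt_add_one (div_nonneg (by linarith) hl0.le)
      have h2 : (⌈2 * Real.log |β| / ℓ⌉₊ : ℝ) * ℓ ≤ (2 * Real.log |β| / ℓ + 1) * ℓ := by gcongr
      have h3 : (2 * Real.log |β| / ℓ + 1) * ℓ = 2 * Real.log |β| + ℓ := by field_simp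
      rw [h3] at h2
      rw [hD]
      push_cast
      linarith
    · rw [hr]
      exact Nat.le_ceil _
    · rw [hX]
      exact Nat.le_ceil _
    · have h1 := Nat.ceil_lt_add_one (Real.exp_pos (ℓ - z ^ (7 * M))).le
      have h2 : 1 ≤ Real.exp (ℓ - z ^ (7 * M)) := by
        apply Real.one_le_exp
        have h3 : 20 * z ^ (7 * M) ≤ z ^ (8 * M) := zpow_lt hz (by omega)
        rw [← hℓ] at h3
        have h4 : 0 ≤ z ^ (7 * M) := by positivity
        linarith
      rw [hX]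
      linarith
  have hHp := hpar.hHp
  have hXp := hpar.hXp
  have hX1 : 1 ≤ X := by
    by_contra hcon
    have : X = 0 := by omega
    rw [this, Nat.cast_zero] at hXp
    exact lt_irrefl _ hXp
  obtain ⟨hlX1, hlX2⟩ := hpar.logX
  have hl7 := hpar.l7
  have h7pos : 0 ≤ z ^ (7 * M) := by positivity
  have hlX : ℓ / 2 ≤ Real.log X := by linarith
  -- the conditions of the general theorem
  have c1 : X0 ≤ X := by
    have h1 : (X0 : ℝ) ≤ X := by
      calc (X0 : ℝ) ≤ z := hzX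
        _ ≤ ℓ / 2 := by
            have := zpow_lt hz (show 1 < 8 * M by omega)
            rw [← hℓ, pow_one] at this
            linarith
        _ ≤ Real.log X := hlX
        _ ≤ X := Real.log_le_self hXp.le
    exact_mod_cast h1
  have hr17 : (r : ℝ) ≤ 17 * z ^ (4 * n₁) := by
    have h1 := Nat.ceil_lt_add_one (show 0 ≤ 16 * z ^ (4 * n₁) by positivity)
    have h2 : 1 ≤ z ^ (4 * n₁) := one_le_pow₀ (by linarith)
    rw [hr]
    linarith
  have c2 : r0 ≤ r := by
    have h1 : (r0 : ℝ) ≤ r := by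
      calc (r0 : ℝ) ≤ z := hzr
        _ ≤ 16 * z ^ (4 * n₁) := by
            have := zpow_lt hz (show 1 < 4 * n₁ by omega)
            rw [pow_one] at this
            linarith
        _ ≤ r := hpar.hr1
    exact_mod_cast h1
  have c3 : (r : ℝ) ^ K' ≤ Real.log X := by
    have h1 : (1 : ℝ) ≤ 17 * z ^ (4 * n₁) := by
      have h2 : 1 ≤ z ^ (4 * n₁) := one_le_pow₀ (by linarith)
      linarith
    calc (r : ℝ) ^ K' ≤ (17 * z ^ (4 * n₁)) ^ K' := by gcongr
      _ ≤ (17 * z ^ (4 * n₁)) ^ K₀ := pow_le_pow_right₀ h1 hKK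
      _ = 17 ^ K₀ * z ^ (4 * M) := by
          rw [mul_pow, ← pow_mul, hM]
          congr 2
          ring
      _ ≤ z ^ M * z ^ (4 * M) := by
          refine mul_le_mul_of_nonneg_right ?_ (by positivity)
          calc (17 : ℝ) ^ K₀ ≤ z ^ K₀ := by gcongr; linarith
            _ ≤ z ^ M := pow_le_pow_right₀ (by linarith) hKM
      _ = z ^ (M + 4 * M) := by rw [pow_add]
      _ ≤ ℓ / 2 := by
          have := zpow_lt hz (show M + 4 * M < 8 * M by omega)
          rw [← hℓ] at this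
          have h2 : 0 ≤ z ^ (M + 4 * M) := by positivity
          linarith
      _ ≤ _ := hlX
  have hD3 := hpar.D3
  have c4 : D ≤ r := by
    have h1 : (D : ℝ) ≤ r := by
      refine hpar.D_le.trans (le_trans ?_ hpar.hr1)
      have h2 : 0 ≤ z ^ (4 * n₁) := by positivity
      linarith
    exact_mod_cast h1
  -- the range
  have hinc := hc.inc hp
  have h15 : Real.exp (7 / 8 * ℓ) < Real.exp (15 / 16 * ℓ) := Real.exp_lt_exp.2 (by linarith)
  have hmem : ∀ n ∈ Finset.Ioc A B, α + n ∈ Icc (q.eval c₁) (q.eval c₂) := by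
    intro n hn
    rw [Finset.mem_Ioc] at hn
    have h1 : (A : ℝ) ≤ n := by exact_mod_cast hn.1.le
    have h2 : (n : ℝ) ≤ B := by exact_mod_cast hn.2
    have h3 := Real.exp_pos (15 / 16 * ℓ)
    constructor <;> linarith
  -- the bad points
  obtain ⟨bad, hbad⟩ : ∃ bad : Finset ℕ, bad = (Finset.Ioc A B).filter (fun n : ℕ =>
      |(S q g (D - 1)).eval (inv q c₁ c₂ (α + n))| < 2 * thr z H M D) := ⟨_, rfl⟩
  have hthr : 0 < thr z H M D := by
    unfold thr
    have : (0 : ℝ) < D.factorial := by exact_mod_cast D.factorial_pos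
    positivity
  have hbadc : (bad.card : ℝ) ≤ H * Real.exp (-z ^ 34) := by
    refine le_trans ?_ (hpar.count hp)
    rw [hbad]
    refine small_card (y := fun n => inv q c₁ c₂ (α + (n : ℝ)))
      (S_natDegree hp.hqd hp.hd2 hp.hge (D - 1)) (Real.exp_pos _) (hpar.lead hp) (by positivity)
      (by positivity) ?_
    intro n hn m hm
    have h1 := hc.sep hp (hmem n hn) (hmem m hm)
    refine le_trans (le_of_eq ?_) h1
    congr 1
    ring
  have hblock := blocks (f := fun n => e (β * psi q g c₁ c₂ 0 (α + n)))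
    (fun n => by rw [norm_e]) (A := A) (B := B) hX1
    (E := X * Real.exp (-√(Real.log X))) (by positivity) bad (by
      intro X₁ X₂ hX₁ hX₂ hX₁₂ ⟨n₀, hn₀, hn₀b⟩
      have hsub : ∀ n ∈ Finset.Ioc X₁ X₂, n ∈ Finset.Ioc A B := by
        intro n hn
        rw [Finset.mem_Ioc] at hn ⊢
        omega
      have hn₀S : 2 * thr z H M D ≤
          |(S q g (D - 1)).eval (inv q c₁ c₂ (α + n₀))| := by
        by_contra hcon
        push Not at hcon
        apply hn₀b
        rw [hbad, Finset.mem_filter]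
        exact ⟨hsub _ hn₀, hcon⟩
      have hall : ∀ n ∈ Finset.Ioc X₁ X₂, thr z H M D ≤
          |(S q g (D - 1)).eval (inv q c₁ c₂ (α + n))| := by
        intro n hn
        have hm := hmem n (hsub n hn)
        have hm₀ := hmem n₀ (hsub n₀ hn₀)
        have h1 := hinc.inv_lip hm hm₀
        have h2 : |(α + n) - (α + n₀)| ≤ X := by
          rw [Finset.mem_Ioc] at hn hn₀
          have h3 : (n : ℝ) ≤ n₀ + X := by exact_mod_cast (by omega : n ≤ n₀ + X)
          have h4 : (n₀ : ℝ) ≤ n + X := by exact_mod_cast (by omega : n₀ ≤ n + X)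
          rw [abs_le]
          constructor <;> linarith
        have h3 := hpar.lip hp (hc.abs_x (hinc.inv_mem hm)) (hc.abs_x (hinc.inv_mem hm₀))
          (h1.trans h2)
        have h4 := abs_sub_abs_le_abs_sub ((S q g (D - 1)).eval (inv q c₁ c₂ (α + n₀)))
          ((S q g (D - 1)).eval (inv q c₁ c₂ (α + n)))
        rw [abs_sub_comm] at h3
        linarith
      refine hes X c1 r D c2 c3 (by omega) c4 (fun n => β * psi q g c₁ c₂ 0 (α + n))
        (fun n j => β * (psi q g c₁ c₂ j (α + n) / (j.factorial : ℝ))) X₁ X₂ hX₁₂ ?_ ?_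
      · intro x hx t ht1 ht
        have hx' := hsub x hx
        rw [Finset.mem_Ioc] at hx'
        have h1 : (A : ℝ) ≤ x := by exact_mod_cast hx'.1.le
        have h2 : (x : ℝ) ≤ B := by exact_mod_cast hx'.2
        have h3 : (t : ℝ) ≤ Real.exp (7 / 8 * ℓ) := by
          refine ht.trans ?_
          rw [Real.rpow_def_of_pos hXp]
          apply Real.exp_le_exp.2
          linarith
        have h4 := hpar.rem hp hc (a := α + x) (t := t) (by linarith) (Nat.cast_nonneg t)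
          (by linarith) ht
        have h5 : α + ((x + t : ℕ) : ℝ) = α + x + t := by
          push_cast
          ring
        rw [h5]
        exact h4
      · intro x hx
        have hm := hmem x (hsub x hx)
        have h1 := hc.psi_le hp hm (D - 1)
        have h2 := hc.psi_ge hp hm (D - 1) (hall x hx)
        have h3 : D - 1 + 1 = D := by omega
        rw [h3] at h1 h2
        have hfac : (0 : ℝ) < D.factorial := by exact_mod_cast D.factorial_pos
        rw [abs_mul, abs_div, Nat.abs_cast]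
        constructor
        · refine hpar.low.trans ?_
          refine mul_le_mul_of_nonneg_left ?_ hβ0.le
          rw [le_div_iff₀ hfac]
          refine le_trans (le_of_eq ?_) h2
          unfold thr
          ring
        · refine le_trans (mul_le_mul_of_nonneg_left ?_ hβ0.le) hpar.up
          rw [div_le_iff₀ hfac]
          refine h1.trans ?_
          rw [mul_comm]
          refine mul_le_mul_of_nonneg_left ?_ (by positivity)
          exact_mod_cast Nat.factorial_le (by omega))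
  refine hblock.trans ?_
  have hsq : z ^ 35 ≤ √(Real.log X) := by
    apply Real.le_sqrt_of_sq_le
    rw [← pow_mul]
    refine le_trans ?_ hlX
    have h1 := zpow_lt hz (show 35 * 2 < 8 * M by omega)
    rw [← hℓ] at h1
    have h2 : 0 ≤ z ^ (35 * 2) := by positivity
    obtain ⟨P, hP⟩ : ∃ P : ℝ, P = z ^ (35 * 2) := ⟨_, rfl⟩
    rw [← hP] at h1 h2 ⊢
    linarith
  have hE : (((B - A : ℕ) : ℝ) / X + 1) * (X * Real.exp (-√(Real.log X))) ≤
      4 * H * Real.exp (-z ^ 35) := by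
    have h1 : (((B - A : ℕ) : ℝ) / X + 1) * (X * Real.exp (-√(Real.log X))) =
        (((B - A : ℕ) : ℝ) + X) * Real.exp (-√(Real.log X)) := by
      field_simp
    rw [h1]
    have h2 := hpar.X_le
    have h3 : Real.exp (-√(Real.log X)) ≤ Real.exp (-z ^ 35) := Real.exp_le_exp.2 (by linarith)
    calc (((B - A : ℕ) : ℝ) + X) * Real.exp (-√(Real.log X)) ≤ (3 * H + H) * Real.exp (-z ^ 35) := by
          gcongr
      _ = _ := by ring
  have h33 : 20 * z ^ 33 ≤ z ^ 34 := zpow_lt hz (by norm_num)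
  have h34 : z ^ 34 ≤ z ^ 35 := pow_le_pow_right₀ (by linarith) (by norm_num)
  have h5 : 4 * H * Real.exp (-z ^ 35) + H * Real.exp (-z ^ 34) ≤ 5 * (H * Real.exp (-z ^ 34)) := by
    have : H * Real.exp (-z ^ 35) ≤ H * Real.exp (-z ^ 34) :=
      mul_le_mul_of_nonneg_left (Real.exp_le_exp.2 (by linarith)) hHp.le
    linarith
  have h6 : 5 * (H * Real.exp (-z ^ 34)) ≤ H * Real.exp (-z ^ 33) := by
    calc 5 * (H * Real.exp (-z ^ 34)) ≤ Real.exp z * (H * Real.exp (-z ^ 34)) := by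
          refine mul_le_mul_of_nonneg_right ?_ (by positivity)
          have := Real.add_one_le_exp z
          linarith
      _ = H * Real.exp (z + -z ^ 34) := by
          rw [Real.exp_add]
          ring
      _ ≤ _ := by
          refine mul_le_mul_of_nonneg_left (Real.exp_le_exp.2 ?_) hHp.le
          have h7 : z ^ 1 ≤ z ^ 33 := pow_le_pow_right₀ (by linarith) (by norm_num)
          rw [pow_one] at h7
          have h8 : 0 ≤ z ^ 33 := by positivity
          linarith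
  linarith

end Pool.Agent.Q270.AF
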