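import Pool.Agent.Q270.AF.Un

/-!
# Boxes, bounds for roots, and the choice of the parameters
-/

set_option autoImplicit false

namespace Pool.Agent.Q270.AF

open Polynomial Filter Topology

/-- counting by the first coordinate -/
lemma fiber {n : ℕ} (I : Finset ℤ) (P : (Fin (n + 1) → ℤ) → Prop) [DecidablePred P] {B : ℝ}
    (h : ∀ t ∈ Fintype.piFinset (fun _ : Fin n => I), ∃ s : Finset ℤ, (s.card : ℝ) ≤ B ∧
      ∀ c ∈ I, P (Fin.cons c t) → c ∈ s) :
    (((Fintype.piFinset (fun _ : Fin (n + 1) => I)).filter P).card : ℝ) ≤ (I.card : ℝ) ^ n * B := by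
  classical
  choose! s hs1 hs2 using h
  have h1 : ((Fintype.piFinset (fun _ : Fin (n + 1) => I)).filter P) ⊆
      (Fintype.piFinset (fun _ : Fin n => I)).biUnion
        (fun t => (s t).image (fun c => (Fin.cons c t : Fin (n + 1) → ℤ))) := by
    intro a ha
    rw [Finset.mem_filter, Fintype.mem_piFinset] at ha
    obtain ⟨ha1, ha2⟩ := ha
    rw [Finset.mem_biUnion]
    have ht : Fin.tail a ∈ Fintype.piFinset (fun _ : Fin n => I) := by
      rw [Fintype.mem_piFinset]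
      exact fun i => ha1 i.succ
    refine ⟨Fin.tail a, ht, Finset.mem_image.2 ⟨a 0, ?_, Fin.cons_self_tail a⟩⟩
    refine hs2 _ ht _ (ha1 0) ?_
    rw [Fin.cons_self_tail]
    exact ha2
  have h2 := (Finset.card_le_card h1).trans Finset.card_biUnion_le
  have h3 : (((Fintype.piFinset (fun _ : Fin (n + 1) => I)).filter P).card : ℝ) ≤
      ∑ t ∈ Fintype.piFinset (fun _ : Fin n => I),
        (((s t).image (fun c => (Fin.cons c t : Fin (n + 1) → ℤ))).card : ℝ) := by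
    exact_mod_cast h2
  refine h3.trans ?_
  calc _ ≤ ∑ _t ∈ Fintype.piFinset (fun _ : Fin n => I), B := by
        refine Finset.sum_le_sum fun t ht => ?_
        refine le_trans ?_ (hs1 t ht)
        exact_mod_cast Finset.card_image_le
    _ = _ := by
        rw [Finset.sum_const, nsmul_eq_mul, Fintype.card_piFinset, Finset.prod_const,
          Finset.card_univ, Fintype.card_fin]
        push_cast
        ring

/-- the polynomial without the constant coefficient -/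
noncomputable def Qp {d : ℕ} (t : Fin d → ℝ) : ℝ[X] := ∑ i : Fin d, C (t i) * X ^ ((i : ℕ) + 1)

lemma Qp_coeff {d : ℕ} (t : Fin d → ℝ) (i : Fin d) : (Qp t).coeff ((i : ℕ) + 1) = t i := by
  unfold Qp
  rw [finset_sum_coeff]
  simp only [coeff_C_mul, coeff_X_pow]
  rw [Finset.sum_eq_single i]
  · simp
  · intro j _ hj
    rw [if_neg (fun h => hj (Fin.ext (by omega))), mul_zero]
  · simp

lemma Qp_coeff_zero {d : ℕ} (t : Fin d → ℝ) {n : ℕ} (h : d < n) : (Qp t).coeff n = 0 := by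
  unfold Qp
  rw [finset_sum_coeff]
  refine Finset.sum_eq_zero fun i _ => ?_
  rw [coeff_C_mul, coeff_X_pow, if_neg (by have := i.2; omega), mul_zero]

lemma Qp_natDegree {d : ℕ} (t : Fin d → ℝ) : (Qp t).natDegree ≤ d := by
  rw [natDegree_le_iff_coeff_eq_zero]
  exact fun N hN => Qp_coeff_zero t hN

lemma Qp_le {d : ℕ} {t : Fin d → ℝ} {H : ℝ} (hH : 0 ≤ H) (ht : ∀ i, |t i| ≤ H) (n : ℕ) (hn : 1 ≤ n) :
    |(Qp t).coeff n| ≤ H := by
  rcases le_or_gt n d with h | h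
  · obtain ⟨m, rfl⟩ : ∃ m, n = m + 1 := ⟨n - 1, by omega⟩
    rw [Qp_coeff t ⟨m, by omega⟩]
    exact ht _
  · rw [Qp_coeff_zero t h, abs_zero]
    exact hH

lemma Qp_eval {d : ℕ} (t : Fin d → ℝ) (x : ℝ) :
    (Qp t).eval x = ∑ i : Fin d, t i * x ^ ((i : ℕ) + 1) := by
  unfold Qp
  rw [eval_finset_sum]
  refine Finset.sum_congr rfl fun i _ => ?_
  rw [eval_mul, eval_C, eval_pow, eval_X]

/-- the bound for the roots: if `q(x) = c` with `|c| ≤ A`, coefficients at most `A` and leading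
coefficient at least `A e^{-z}`, then `|x| ≤ e^{2z}` -/
lemma root_le {d : ℕ} (hd : 1 ≤ d) {t : Fin d → ℝ} {A z c x : ℝ} (hz : 20 ≤ z) (hA : 0 < A)
    (ht : ∀ i, |t i| ≤ A) (hc : |c| ≤ A) (hl : A * Real.exp (-z) ≤ |t ⟨d - 1, by omega⟩|)
    (hx : (Qp t).eval x = c) : |x| ≤ Real.exp (2 * z) := by
  by_contra hcon
  push Not at hcon
  obtain ⟨y, hy⟩ : ∃ y : ℝ, y = |x| := ⟨_, rfl⟩
  rw [← hy] at hcon
  obtain ⟨h1, h2⟩ := exp_facts hz
  have h3 : Real.exp (2 * z) = Real.exp z * Real.exp z := by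
    rw [← Real.exp_add]
    congr 1
    ring
  have hy1 : Real.exp z + 1 < y := by nlinarith
  have hy0 : 1 < y := by linarith
  have hgeo : ∀ m : ℕ, (y - 1) * ∑ i ∈ Finset.range m, y ^ i ≤ y ^ m := by
    intro m
    rw [mul_geom_sum]
    linarith
  -- the leading term
  rw [Qp_eval] at hx
  obtain ⟨m, rfl⟩ : ∃ m, d = m + 1 := ⟨d - 1, by omega⟩
  rw [Fin.sum_univ_castSucc] at hx
  have hlast : (Fin.last m) = (⟨m + 1 - 1, by omega⟩ : Fin (m + 1)) := by
    apply Fin.ext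
    simp
  have e1 : t (Fin.last m) * x ^ (m + 1) =
      c - ∑ i : Fin m, t i.castSucc * x ^ ((i : ℕ) + 1) := by
    have := hx
    simp only [Fin.val_castSucc, Fin.val_last] at this
    linarith
  have e2 : |t (Fin.last m)| * y ^ (m + 1) ≤ A * ∑ i ∈ Finset.range (m + 1), y ^ i := by
    calc |t (Fin.last m)| * y ^ (m + 1) = |t (Fin.last m) * x ^ (m + 1)| := by
          rw [abs_mul, abs_pow, hy]
      _ = |c - ∑ i : Fin m, t i.castSucc * x ^ ((i : ℕ) + 1)| := by rw [e1]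
      _ ≤ |c| + |∑ i : Fin m, t i.castSucc * x ^ ((i : ℕ) + 1)| := abs_sub _ _
      _ ≤ A + ∑ i : Fin m, A * y ^ ((i : ℕ) + 1) := by
          refine add_le_add hc ((Finset.abs_sum_le_sum_abs _ _).trans
            (Finset.sum_le_sum fun i _ => ?_))
          rw [abs_mul, abs_pow, ← hy]
          exact mul_le_mul_of_nonneg_right (ht _) (by positivity)
      _ = A * ∑ i ∈ Finset.range (m + 1), y ^ i := by
          rw [Finset.sum_range_succ', mul_add, pow_zero, mul_one, add_comm, ← Finset.mul_sum,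
            Fin.sum_univ_eq_sum_range (fun i => y ^ (i + 1)) m]
  rw [← hlast] at hl
  have hyp : 0 < y ^ (m + 1) := by positivity
  have e3 : A * Real.exp (-z) * y ^ (m + 1) * (y - 1) ≤ A * y ^ (m + 1) := by
    calc A * Real.exp (-z) * y ^ (m + 1) * (y - 1) ≤
        |t (Fin.last m)| * y ^ (m + 1) * (y - 1) := by
          have : 0 ≤ y - 1 := by linarith
          gcongr
      _ ≤ (A * ∑ i ∈ Finset.range (m + 1), y ^ i) * (y - 1) := by
          have : 0 ≤ y - 1 := by linarith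
          gcongr
      _ = A * ((y - 1) * ∑ i ∈ Finset.range (m + 1), y ^ i) := by ring
      _ ≤ _ := by
          have := hgeo (m + 1)
          gcongr
  have e4 : Real.exp (-z) * (y - 1) ≤ 1 := by
    have h5 : A * y ^ (m + 1) * (Real.exp (-z) * (y - 1)) ≤ A * y ^ (m + 1) * 1 := by
      calc _ = A * Real.exp (-z) * y ^ (m + 1) * (y - 1) := by ring
        _ ≤ _ := by rw [mul_one]; exact e3
    exact le_of_mul_le_mul_left h5 (by positivity)
  have e5 : y - 1 ≤ Real.exp z := by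
    rw [Real.exp_neg, inv_mul_le_iff₀ (Real.exp_pos z)] at e4
    linarith
  linarith

/-- the parameters -/
lemma params (K₀ : ℕ) (hK₀ : 8 ≤ K₀) {ε : ℝ} (hε : 0 < ε) : ∃ n₁ : ℕ, 10 ≤ n₁ ∧
    25 / (8 * ((K₀ * n₁ : ℕ) : ℝ)) ≤ ε ∧
    (∀ ℓ : ℝ, 0 < ℓ → ℓ = (ℓ ^ (1 / (8 * ((K₀ * n₁ : ℕ) : ℝ)))) ^ (8 * (K₀ * n₁))) ∧
    (∀ ℓ : ℝ, 0 < ℓ → ℓ ^ (1 + 3 / (8 * (K₀ : ℝ))) =
      (ℓ ^ (1 / (8 * ((K₀ * n₁ : ℕ) : ℝ)))) ^ (8 * (K₀ * n₁) + 3 * n₁)) ∧
    (∀ ℓ : ℝ, 0 < ℓ → (ℓ ^ (1 / (8 * ((K₀ * n₁ : ℕ) : ℝ)))) ^ 25 =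
      ℓ ^ (25 / (8 * ((K₀ * n₁ : ℕ) : ℝ)))) := by
  obtain ⟨n, hn⟩ := exists_nat_ge (25 / (8 * ε))
  have hK : (0 : ℝ) < K₀ := by
    have : (8 : ℝ) ≤ K₀ := by exact_mod_cast hK₀
    linarith
  refine ⟨n + 10, by omega, ?_, ?_, ?_, ?_⟩
  · have h1 : (n : ℝ) ≤ ((K₀ * (n + 10) : ℕ) : ℝ) := by
      have h2 : n + 10 ≤ K₀ * (n + 10) := Nat.le_mul_of_pos_left _ (by omega)
      exact_mod_cast (by omega : n ≤ K₀ * (n + 10))
    have h3 : (0 : ℝ) < ((K₀ * (n + 10) : ℕ) : ℝ) := by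
      have : 0 < K₀ * (n + 10) := Nat.mul_pos (by omega) (by omega)
      exact_mod_cast this
    rw [div_le_iff₀ (by positivity)]
    rw [div_le_iff₀ (by positivity)] at hn
    nlinarith
  · intro ℓ hℓ
    have h3 : (0 : ℝ) < ((K₀ * (n + 10) : ℕ) : ℝ) := by
      have : 0 < K₀ * (n + 10) := Nat.mul_pos (by omega) (by omega)
      exact_mod_cast this
    rw [← Real.rpow_natCast, ← Real.rpow_mul hℓ.le]
    have : 1 / (8 * ((K₀ * (n + 10) : ℕ) : ℝ)) * ((8 * (K₀ * (n + 10)) : ℕ) : ℝ) = 1 := by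
      push_cast at h3 ⊢
      field_simp
    rw [this, Real.rpow_one]
  · intro ℓ hℓ
    have h3 : (0 : ℝ) < (n : ℝ) + 10 := by positivity
    rw [← Real.rpow_natCast, ← Real.rpow_mul hℓ.le]
    congr 1
    push_cast
    field_simp
  · intro ℓ hℓ
    rw [← Real.rpow_natCast, ← Real.rpow_mul hℓ.le]
    congr 1
    push_cast
    ring

end Pool.Agent.Q270.AF
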