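import Pool.Agent.Q270.AF.Sj

/-!
# The inverse function of a polynomial on an interval, and its Taylor expansion
-/

set_option autoImplicit false

namespace Pool.Agent.Q270.AF

open Polynomial Set Filter Topology

/-- Taylor's formula for a chain of functions, each one the derivative of the preceding one -/
theorem taylor {ψ : ℕ → ℝ → ℝ} {a b : ℝ} (hab : a ≤ b) (r : ℕ) : ∀ (k : ℕ) {M : ℝ},
    (∀ j, ∀ y ∈ Icc a b, HasDerivAt (ψ j) (ψ (j + 1) y) y) →
    (∀ y ∈ Icc a b, |ψ (k + r + 1) y| ≤ M) → ∀ t : ℝ, 0 ≤ t → a + t ≤ b →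
    |ψ k (a + t) - ∑ j ∈ Finset.range (r + 1), ψ (k + j) a * t ^ j / (j.factorial : ℝ)| ≤
      M * t ^ (r + 1) / ((r + 1).factorial : ℝ) := by
  induction r with
  | zero =>
    intro k M hψ hM t ht htb
    have h1 : ∀ y ∈ Icc a (a + t), HasDerivWithinAt (ψ k) (ψ (k + 1) y) (Icc a (a + t)) y :=
      fun y hy => (hψ k y ⟨hy.1, hy.2.trans htb⟩).hasDerivWithinAt
    have h2 : ∀ y ∈ Icc a (a + t), ‖ψ (k + 1) y‖ ≤ M := fun y hy => by
      rw [Real.norm_eq_abs]
      exact hM y ⟨hy.1, hy.2.trans htb⟩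
    have h3 := (convex_Icc a (a + t)).norm_image_sub_le_of_norm_hasDerivWithin_le h1 h2
      (left_mem_Icc.2 (by linarith)) (right_mem_Icc.2 (by linarith))
    rw [Real.norm_eq_abs, Real.norm_eq_abs, add_sub_cancel_left, abs_of_nonneg ht] at h3
    simpa using h3
  | succ r ih =>
    intro k M hψ hM t ht htb
    -- the remainder as a function of `s`
    set R : ℝ → ℝ := fun s => ψ k (a + s) -
      ∑ j ∈ Finset.range (r + 1 + 1), ψ (k + j) a * s ^ j / (j.factorial : ℝ) with hR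
    have hd : ∀ s, 0 ≤ s → s ≤ t → HasDerivAt R (ψ (k + 1) (a + s) -
        ∑ j ∈ Finset.range (r + 1), ψ (k + 1 + j) a * s ^ j / (j.factorial : ℝ)) s := by
      intro s hs hst
      have h1 : HasDerivAt (fun s => ψ k (a + s)) (ψ (k + 1) (a + s)) s := by
        have := (hψ k (a + s) ⟨by linarith, by linarith⟩).comp_const_add a s
        exact this
      have h2 : HasDerivAt (fun s : ℝ => ∑ j ∈ Finset.range (r + 1 + 1),
          ψ (k + j) a * s ^ j / (j.factorial : ℝ))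
          (∑ j ∈ Finset.range (r + 1 + 1), ψ (k + j) a * (j * s ^ (j - 1)) / (j.factorial : ℝ)) s := by
        refine HasDerivAt.fun_sum fun j _ => ?_
        exact ((hasDerivAt_pow j s).const_mul _).div_const _
      have h3 : ∑ j ∈ Finset.range (r + 1 + 1), ψ (k + j) a * (j * s ^ (j - 1)) /
          (j.factorial : ℝ) = ∑ j ∈ Finset.range (r + 1), ψ (k + 1 + j) a * s ^ j /
            (j.factorial : ℝ) := by
        rw [Finset.sum_range_succ']
        simp only [Nat.cast_zero, zero_mul, mul_zero, zero_div, add_zero]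
        refine Finset.sum_congr rfl fun j _ => ?_
        rw [Nat.add_sub_cancel, Nat.factorial_succ]
        have h4 : k + (j + 1) = k + 1 + j := by ring
        rw [h4]
        have h5 : (j.factorial : ℝ) ≠ 0 := by exact_mod_cast j.factorial_ne_zero
        have h6 : ((j : ℝ) + 1) ≠ 0 := by positivity
        push_cast
        field_simp
      rw [← h3]
      exact h1.sub h2
    have hM0 : 0 ≤ M := (abs_nonneg _).trans (hM a ⟨le_rfl, hab⟩)
    have hb : ∀ s ∈ Ico 0 t, ‖ψ (k + 1) (a + s) -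
        ∑ j ∈ Finset.range (r + 1), ψ (k + 1 + j) a * s ^ j / (j.factorial : ℝ)‖ ≤
        M * s ^ (r + 1) / ((r + 1).factorial : ℝ) := by
      intro s hs
      refine ih (k + 1) hψ (fun y hy => ?_) s hs.1 (by linarith [hs.2])
      have h4 : k + 1 + r + 1 = k + (r + 1) + 1 := by ring
      rw [h4]
      exact hM y hy
    have hB : ∀ s : ℝ, HasDerivAt (fun s => M * s ^ (r + 2) / ((r + 2).factorial : ℝ))
        (M * s ^ (r + 1) / ((r + 1).factorial : ℝ)) s := by
      intro s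
      have h1 := ((hasDerivAt_pow (r + 2) s).const_mul M).div_const ((r + 2).factorial : ℝ)
      refine h1.congr_deriv ?_
      rw [show r + 2 - 1 = r + 1 by omega, show (r + 2).factorial = (r + 2) * (r + 1).factorial from
        Nat.factorial_succ (r + 1)]
      have h5 : ((r + 1).factorial : ℝ) ≠ 0 := by exact_mod_cast (r + 1).factorial_ne_zero
      have h6 : ((r : ℝ) + 2) ≠ 0 := by positivity
      push_cast
      field_simp
    have hR0 : R 0 = 0 := by
      rw [hR]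
      simp only [add_zero]
      rw [Finset.sum_range_succ']
      simp
    have h1 := image_norm_le_of_norm_deriv_right_le_deriv_boundary
      (f := R) (f' := fun s => ψ (k + 1) (a + s) -
        ∑ j ∈ Finset.range (r + 1), ψ (k + 1 + j) a * s ^ j / (j.factorial : ℝ)) (a := 0) (b := t)
      (B := fun s => M * s ^ (r + 2) / ((r + 2).factorial : ℝ))
      (B' := fun s => M * s ^ (r + 1) / ((r + 1).factorial : ℝ))
      (fun s hs => (hd s hs.1 hs.2).continuousAt.continuousWithinAt)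
      (fun s hs => (hd s hs.1 hs.2.le).hasDerivWithinAt) (by rw [hR0]; simp)
      hB hb (Set.right_mem_Icc.2 ht)
    rw [Real.norm_eq_abs] at h1
    exact h1

/-- the inverse function -/
noncomputable def inv (q : ℝ[X]) (c₁ c₂ : ℝ) (y : ℝ) : ℝ :=
  Function.invFunOn (fun x => q.eval x) (Icc c₁ c₂) y

/-- the data of an interval on which `q` increases -/
structure Inc (q : ℝ[X]) (c₁ c₂ μ : ℝ) : Prop where
  hc : c₁ ≤ c₂
  hμ : 0 < μ
  hq : ∀ x ∈ Icc c₁ c₂, μ ≤ (derivative q).eval x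

variable {q g : ℝ[X]} {c₁ c₂ μ : ℝ}

lemma Inc.grow (h : Inc q c₁ c₂ μ) {x y : ℝ} (hx : x ∈ Icc c₁ c₂) (hy : y ∈ Icc c₁ c₂)
    (hxy : x ≤ y) : μ * (y - x) ≤ q.eval y - q.eval x := by
  refine (convex_Icc c₁ c₂).mul_sub_le_image_sub_of_le_deriv q.continuous.continuousOn
    q.differentiable.differentiableOn (fun z hz => ?_) x hx y hy hxy
  rw [Polynomial.deriv]
  exact h.hq z (interior_subset hz)

lemma Inc.inj (h : Inc q c₁ c₂ μ) {x y : ℝ} (hx : x ∈ Icc c₁ c₂) (hy : y ∈ Icc c₁ c₂)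
    (hxy : q.eval x = q.eval y) : x = y := by
  rcases le_total x y with h1 | h1
  · have := h.grow hx hy h1
    have h2 := h.hμ
    nlinarith
  · have := h.grow hy hx h1
    have h2 := h.hμ
    nlinarith

lemma Inc.surj (h : Inc q c₁ c₂ μ) {y : ℝ} (hy : y ∈ Icc (q.eval c₁) (q.eval c₂)) :
    ∃ x ∈ Icc c₁ c₂, q.eval x = y := by
  have := intermediate_value_Icc h.hc q.continuous.continuousOn (f := fun x => q.eval x)
  exact this hy

lemma Inc.inv_mem (h : Inc q c₁ c₂ μ) {y : ℝ} (hy : y ∈ Icc (q.eval c₁) (q.eval c₂)) :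
    inv q c₁ c₂ y ∈ Icc c₁ c₂ :=
  Function.invFunOn_mem (h.surj hy)

lemma Inc.eval_inv (h : Inc q c₁ c₂ μ) {y : ℝ} (hy : y ∈ Icc (q.eval c₁) (q.eval c₂)) :
    q.eval (inv q c₁ c₂ y) = y :=
  Function.invFunOn_eq (h.surj hy)

lemma Inc.inv_eval (h : Inc q c₁ c₂ μ) {x : ℝ} (hx : x ∈ Icc c₁ c₂) :
    inv q c₁ c₂ (q.eval x) = x := by
  have h1 : q.eval x ∈ Icc (q.eval c₁) (q.eval c₂) := by
    have h2 := h.grow (left_mem_Icc.2 h.hc) hx hx.1
    have h3 := h.grow hx (right_mem_Icc.2 h.hc) hx.2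
    have h4 := h.hμ
    have h5 := hx.1
    have h6 := hx.2
    constructor <;> nlinarith
  exact h.inj (h.inv_mem h1) hx (h.eval_inv h1)

/-- the inverse function is Lipschitz -/
lemma Inc.inv_lip (h : Inc q c₁ c₂ μ) {y z : ℝ} (hy : y ∈ Icc (q.eval c₁) (q.eval c₂))
    (hz : z ∈ Icc (q.eval c₁) (q.eval c₂)) :
    μ * |inv q c₁ c₂ y - inv q c₁ c₂ z| ≤ |y - z| := by
  have h1 := h.inv_mem hy
  have h2 := h.inv_mem hz
  have h3 := h.eval_inv hy
  have h4 := h.eval_inv hz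
  rcases le_total (inv q c₁ c₂ y) (inv q c₁ c₂ z) with h5 | h5
  · have h6 := h.grow h1 h2 h5
    rw [h3, h4] at h6
    rw [abs_of_nonpos (by linarith)]
    have h7 := neg_abs_le (y - z)
    linarith
  · have h6 := h.grow h2 h1 h5
    rw [h3, h4] at h6
    rw [abs_of_nonneg (by linarith)]
    exact h6.trans (le_abs_self _)

/-- the inverse function is differentiable -/
lemma Inc.inv_deriv (h : Inc q c₁ c₂ μ) {y : ℝ} (hy : y ∈ Ioo (q.eval c₁) (q.eval c₂)) :
    HasDerivAt (inv q c₁ c₂) ((derivative q).eval (inv q c₁ c₂ y))⁻¹ y := by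
  have hnhds : ∀ᶠ z in 𝓝 y, z ∈ Icc (q.eval c₁) (q.eval c₂) :=
    Icc_mem_nhds hy.1 hy.2
  have hyI : y ∈ Icc (q.eval c₁) (q.eval c₂) := ⟨hy.1.le, hy.2.le⟩
  have hcont : ContinuousAt (inv q c₁ c₂) y := by
    rw [Metric.continuousAt_iff]
    intro ε hε
    have h1 : ∀ᶠ z in 𝓝 y, z ∈ Icc (q.eval c₁) (q.eval c₂) ∧ dist z y < μ * ε :=
      hnhds.and (Metric.ball_mem_nhds y (mul_pos h.hμ hε))
    obtain ⟨δ, hδ, hb⟩ := Metric.eventually_nhds_iff.1 h1
    refine ⟨δ, hδ, fun z hz => ?_⟩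
    obtain ⟨h2, h3⟩ := hb hz
    have h4 := h.inv_lip h2 hyI
    rw [Real.dist_eq] at h3 ⊢
    have h5 := h.hμ
    exact lt_of_mul_lt_mul_left (h4.trans_lt h3) h5.le
  refine HasDerivAt.of_local_left_inverse hcont (q.hasDerivAt _) ?_ ?_
  · have := h.hq _ (h.inv_mem hyI)
    have h2 := h.hμ
    linarith
  · filter_upwards [hnhds] with z hz
    exact h.eval_inv hz

/-- the derivatives of `g (x (y))` -/
noncomputable def psi (q g : ℝ[X]) (c₁ c₂ : ℝ) : ℕ → ℝ → ℝ
  | 0, y => g.eval (inv q c₁ c₂ y)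
  | j + 1, y => (S q g j).eval (inv q c₁ c₂ y) /
      (derivative q).eval (inv q c₁ c₂ y) ^ (2 * j + 1)

lemma Inc.psi_deriv (h : Inc q c₁ c₂ μ) {y : ℝ} (hy : y ∈ Ioo (q.eval c₁) (q.eval c₂)) (j : ℕ) :
    HasDerivAt (psi q g c₁ c₂ j) (psi q g c₁ c₂ (j + 1) y) y := by
  have h1 := h.inv_deriv hy
  have h2 : (derivative q).eval (inv q c₁ c₂ y) ≠ 0 := by
    have := h.hq _ (h.inv_mem ⟨hy.1.le, hy.2.le⟩)
    have h2 := h.hμ
    linarith
  cases j with
  | zero => exact S_deriv_zero h1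
  | succ j => exact S_deriv h1 h2 j

/-- the Taylor expansion of `g (x (y))` -/
theorem Inc.psi_taylor (h : Inc q c₁ c₂ μ) {a t M : ℝ} {r : ℕ} (ht : 0 ≤ t)
    (ha : q.eval c₁ < a) (hat : a + t < q.eval c₂)
    (hM : ∀ y ∈ Icc a (a + t), |psi q g c₁ c₂ (r + 1) y| ≤ M) :
    |psi q g c₁ c₂ 0 (a + t) - psi q g c₁ c₂ 0 a - ∑ j ∈ Finset.Icc 1 r,
      (psi q g c₁ c₂ j a / (j.factorial : ℝ)) * t ^ j| ≤ M * t ^ (r + 1) / ((r + 1).factorial : ℝ) := by
  have h1 := taylor (ψ := psi q g c₁ c₂) (a := a) (b := a + t) (by linarith) r 0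
    (fun j y hy => h.psi_deriv ⟨by linarith [hy.1], by linarith [hy.2]⟩ j)
    (by simpa using hM) t ht le_rfl
  refine le_trans (le_of_eq ?_) h1
  congr 1
  rw [Finset.sum_range_succ', show Finset.Icc 1 r = Finset.Ico 1 (r + 1) from rfl,
    Finset.sum_Ico_eq_sum_range, Nat.add_sub_cancel]
  simp only [zero_add, pow_zero, mul_one, Nat.factorial_zero, Nat.cast_one, div_one]
  have h4 : ∀ j ∈ Finset.range r, psi q g c₁ c₂ (j + 1) a * t ^ (j + 1) /
      ((j + 1).factorial : ℝ) = psi q g c₁ c₂ (1 + j) a / ((1 + j).factorial : ℝ) * t ^ (1 + j) := by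
    intro j _
    rw [add_comm j 1]
    ring
  rw [Finset.sum_congr rfl h4]
  ring

end Pool.Agent.Q270.AF
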