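import Pool.Agent.Q270.AF.Inv

/-!
# The data of a polynomial and of an interval, and the bounds for the derivatives
-/

set_option autoImplicit false

namespace Pool.Agent.Q270.AF

open Polynomial Set

/-- the polynomials -/
structure PD (d e : ℕ) (z H : ℝ) (q g : ℝ[X]) : Prop where
  hz : 20 ≤ z
  hH : 0 < H
  hd2 : 2 ≤ d
  hdz : (d : ℝ) ≤ z
  he1 : 1 ≤ e
  hed : e < d
  hqd : q.natDegree ≤ d
  hge : g.natDegree ≤ e
  hqc : ∀ i, 1 ≤ i → |q.coeff i| ≤ H
  hgc : ∀ i, 1 ≤ i → |g.coeff i| ≤ Real.exp z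
  hql : H * Real.exp (-z) ≤ |q.coeff d|
  hgl : Real.exp (-z) ≤ |g.coeff e|

/-- the interval -/
structure Cell (z H : ℝ) (q g : ℝ[X]) (c₁ c₂ : ℝ) : Prop where
  hc : c₁ ≤ c₂
  h1 : |c₁| ≤ Real.exp (3 * z)
  h2 : |c₂| ≤ Real.exp (3 * z)
  hq : ∀ x ∈ Icc c₁ c₂, Real.exp (-z ^ 5) * H ≤ (derivative q).eval x
  hg : ∀ x ∈ Icc c₁ c₂, Real.exp (-z ^ 5) ≤ |(derivative g).eval x|

variable {d e : ℕ} {z H : ℝ} {q g : ℝ[X]} {c₁ c₂ : ℝ}

lemma deriv_coeff {p : ℝ[X]} {n : ℕ} {A : ℝ} (hn : p.natDegree ≤ n) (hA : 0 ≤ A)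
    (h : ∀ i, 1 ≤ i → |p.coeff i| ≤ A) (i : ℕ) : |(derivative p).coeff i| ≤ n * A := by
  rw [coeff_derivative, abs_mul, abs_of_nonneg (show (0 : ℝ) ≤ (i : ℝ) + 1 by positivity)]
  rcases le_or_gt (i + 1) n with h1 | h1
  · rw [mul_comm]
    refine mul_le_mul ?_ (h _ (by omega)) (abs_nonneg _) (Nat.cast_nonneg n)
    exact_mod_cast h1
  · rw [coeff_eq_zero_of_natDegree_lt (by omega), abs_zero, zero_mul]
    positivity

lemma exp_facts (hz : 20 ≤ z) : z + 1 ≤ Real.exp z ∧ 3 ≤ Real.exp z := by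
  have := Real.add_one_le_exp z
  constructor <;> linarith

lemma PD.dz (h : PD d e z H q g) : (d : ℝ) + 1 ≤ Real.exp z :=
  (add_le_add_left h.hdz 1).trans (exp_facts h.hz).1

lemma PD.U_le (h : PD d e z H q g) :
    3 * d * ((d + 1) * ((d * (d * H)) * Real.exp (3 * z) ^ d)) ≤ H * Real.exp (z ^ 3) := by
  have hz := h.hz
  have hH := h.hH
  obtain ⟨h1, h2⟩ := exp_facts hz
  have h3 : (d : ℝ) + 1 ≤ Real.exp z := h.dz
  have h4 : (d : ℝ) ≤ Real.exp z := by linarith
  have hexp := Real.exp_pos z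
  have h5 : Real.exp (3 * z) ^ d ≤ Real.exp (3 * z ^ 2) := by
    rw [← Real.exp_nat_mul]
    apply Real.exp_le_exp.2
    have := h.hdz
    nlinarith
  calc 3 * d * ((d + 1) * ((d * (d * H)) * Real.exp (3 * z) ^ d)) ≤
      Real.exp z * Real.exp z * (Real.exp z * ((Real.exp z * (Real.exp z * H)) *
        Real.exp (3 * z ^ 2))) := by
        gcongr
    _ = H * Real.exp (z + z + z + z + z + 3 * z ^ 2) := by
        simp only [Real.exp_add]
        ring
    _ ≤ _ := by
        refine mul_le_mul_of_nonneg_left (Real.exp_le_exp.2 ?_) hH.le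
        nlinarith [sq_nonneg z]

lemma w1 (hz : 20 ≤ z) : 1 ≤ Real.exp (3 * z) := Real.one_le_exp (by linarith)

lemma PD.Wq (h : PD d e z H q g) : W (Real.exp (3 * z)) (derivative q) ≤
    (d + 1) * ((d * (d * H)) * Real.exp (3 * z) ^ d) := by
  have hd : (1 : ℝ) ≤ d := by
    have := h.hd2
    exact_mod_cast (by omega : 1 ≤ d)
  have hH := h.hH
  refine W_le (w1 h.hz) (by positivity) ((natDegree_derivative_le q).trans (by
    have := h.hqd
    omega)) fun i => ?_
  refine (deriv_coeff h.hqd hH.le h.hqc i).trans ?_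
  exact le_mul_of_one_le_left (by positivity) hd

lemma PD.Wqq (h : PD d e z H q g) : W (Real.exp (3 * z)) (derivative (derivative q)) ≤
    (d + 1) * ((d * (d * H)) * Real.exp (3 * z) ^ d) := by
  have hH := h.hH
  have h1 := natDegree_derivative_le q
  have h2 := natDegree_derivative_le (derivative q)
  have h3 := h.hqd
  refine W_le (w1 h.hz) (by positivity) (by omega) fun i => ?_
  refine deriv_coeff (n := d) (by omega) (by positivity) (fun i _ => ?_) i
  exact deriv_coeff h.hqd hH.le h.hqc i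

lemma PD.Wg (h : PD d e z H q g) : W (Real.exp (3 * z)) (derivative g) ≤ Real.exp (z ^ 3) := by
  have hz := h.hz
  have h3 : (d : ℝ) + 1 ≤ Real.exp z := h.dz
  have hed : (e : ℝ) ≤ d := by
    have := h.hed
    exact_mod_cast this.le
  have hexp := Real.exp_pos z
  have h4 : W (Real.exp (3 * z)) (derivative g) ≤
      (d + 1) * ((e * Real.exp z) * Real.exp (3 * z) ^ d) := by
    refine W_le (w1 h.hz) (by positivity) ((natDegree_derivative_le g).trans (by
      have := h.hge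
      have := h.hed
      omega)) fun i => ?_
    exact deriv_coeff h.hge hexp.le h.hgc i
  have h5 : Real.exp (3 * z) ^ d ≤ Real.exp (3 * z ^ 2) := by
    rw [← Real.exp_nat_mul]
    apply Real.exp_le_exp.2
    have := h.hdz
    nlinarith
  refine h4.trans ?_
  calc ((d : ℝ) + 1) * ((e * Real.exp z) * Real.exp (3 * z) ^ d) ≤
      Real.exp z * ((Real.exp z * Real.exp z) * Real.exp (3 * z ^ 2)) := by
        gcongr
        linarith
    _ = Real.exp (z + z + z + 3 * z ^ 2) := by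
        simp only [Real.exp_add]
        ring
    _ ≤ _ := by
        apply Real.exp_le_exp.2
        nlinarith [sq_nonneg z]

lemma PD.U_le' (h : PD d e z H q g) :
    (d + 1) * ((d * (d * H)) * Real.exp (3 * z) ^ d) ≤ H * Real.exp (z ^ 3) := by
  refine le_trans ?_ h.U_le
  have hH := h.hH
  have hd : (1 : ℝ) ≤ d := by
    have := h.hd2
    exact_mod_cast (by omega : 1 ≤ d)
  refine le_mul_of_one_le_left (by positivity) ?_
  linarith

/-- the first derivatives -/
lemma PD.q_le (h : PD d e z H q g) {x : ℝ} (hx : |x| ≤ Real.exp (3 * z)) :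
    |(derivative q).eval x| ≤ H * Real.exp (z ^ 3) :=
  (eval_le_W hx _).trans (h.Wq.trans h.U_le')

lemma PD.g_le (h : PD d e z H q g) {x : ℝ} (hx : |x| ≤ Real.exp (3 * z)) :
    |(derivative g).eval x| ≤ Real.exp (z ^ 3) :=
  (eval_le_W hx _).trans h.Wg

/-- the norms of the numerators -/
lemma PD.S_le (h : PD d e z H q g) (j : ℕ) : W (Real.exp (3 * z)) (S q g j) ≤
    (H * Real.exp (z ^ 3)) ^ j * j.factorial * Real.exp (z ^ 3) := by
  have hH := h.hH
  have h1 := S_norm (w1 h.hz) h.hd2 h.hqd (by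
    have := h.hge
    have := h.hed
    omega) (by positivity) h.Wq h.Wqq h.Wg j
  refine h1.trans ?_
  have h2 := h.U_le
  gcongr

lemma Cell.inc (hp : PD d e z H q g) (h : Cell z H q g c₁ c₂) :
    Inc q c₁ c₂ (Real.exp (-z ^ 5) * H) where
  hc := h.hc
  hμ := mul_pos (Real.exp_pos _) hp.hH
  hq := h.hq

lemma Cell.abs_x (h : Cell z H q g c₁ c₂) {x : ℝ} (hx : x ∈ Icc c₁ c₂) :
    |x| ≤ Real.exp (3 * z) := by
  have h1 := abs_le.1 h.h1
  have h2 := abs_le.1 h.h2
  rw [abs_le]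
  constructor
  · linarith [hx.1]
  · linarith [hx.2]

/-- the upper bound for the derivatives -/
lemma Cell.psi_le (hp : PD d e z H q g) (h : Cell z H q g c₁ c₂) {y : ℝ}
    (hy : y ∈ Icc (q.eval c₁) (q.eval c₂)) (j : ℕ) :
    |psi q g c₁ c₂ (j + 1) y| ≤ j.factorial * (Real.exp (z ^ 6) / H) ^ (j + 1) := by
  have hz := hp.hz
  have hH := hp.hH
  have hx := (h.inc hp).inv_mem hy
  have h1 := h.abs_x hx
  have h2 := (eval_le_W h1 (S q g j)).trans (hp.S_le j)
  have h3 := h.hq _ hx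
  have hμ : 0 < Real.exp (-z ^ 5) * H := mul_pos (Real.exp_pos _) hH
  have hfac : (0 : ℝ) < j.factorial := by exact_mod_cast j.factorial_pos
  have h4 : (Real.exp (-z ^ 5) * H) ^ (2 * j + 1) ≤
      |(derivative q).eval (inv q c₁ c₂ y) ^ (2 * j + 1)| := by
    rw [abs_pow]
    exact pow_le_pow_left₀ hμ.le (h3.trans (le_abs_self _)) _
  show |(S q g j).eval (inv q c₁ c₂ y) / (derivative q).eval (inv q c₁ c₂ y) ^ (2 * j + 1)| ≤ _
  rw [abs_div]
  calc |(S q g j).eval (inv q c₁ c₂ y)| / |(derivative q).eval (inv q c₁ c₂ y) ^ (2 * j + 1)| ≤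
      ((H * Real.exp (z ^ 3)) ^ j * j.factorial * Real.exp (z ^ 3)) /
        (Real.exp (-z ^ 5) * H) ^ (2 * j + 1) := by gcongr
    _ = j.factorial * (Real.exp (z ^ 3) ^ (j + 1) * Real.exp (z ^ 5) ^ (2 * j + 1) /
        H ^ (j + 1)) := by
        rw [Real.exp_neg, mul_pow, mul_pow, inv_pow]
        have h5 : H ^ (2 * j + 1) = H ^ j * H ^ (j + 1) := by
          rw [← pow_add]
          congr 1
          ring
        rw [h5, pow_succ (Real.exp (z ^ 3))]
        have h6 : Real.exp (z ^ 5) ^ (2 * j + 1) ≠ 0 := by positivity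
        field_simp
    _ ≤ j.factorial * (Real.exp (z ^ 6) ^ (j + 1) / H ^ (j + 1)) := by
        refine mul_le_mul_of_nonneg_left ?_ hfac.le
        refine div_le_div_of_nonneg_right ?_ (by positivity)
        rw [← Real.exp_nat_mul, ← Real.exp_nat_mul, ← Real.exp_nat_mul, ← Real.exp_add]
        apply Real.exp_le_exp.2
        push_cast
        have hj : (0 : ℝ) ≤ j := Nat.cast_nonneg j
        have h7 : z ^ 3 + 2 * z ^ 5 ≤ z ^ 6 := by
          have h8 : z ^ 3 ≤ z ^ 5 := pow_le_pow_right₀ (by linarith) (by norm_num)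
          have h9 : 20 * z ^ 5 ≤ z ^ 6 := by
            rw [pow_succ z 5, mul_comm]
            have : 0 ≤ z ^ 5 := by positivity
            nlinarith
          have : 0 ≤ z ^ 5 := by positivity
          linarith
        have h10 : 0 ≤ z ^ 5 := by positivity
        nlinarith
    _ = _ := by rw [div_pow]

/-- the lower bound for the derivatives -/
lemma Cell.psi_ge (hp : PD d e z H q g) (h : Cell z H q g c₁ c₂) {y : ℝ}
    (hy : y ∈ Icc (q.eval c₁) (q.eval c₂)) (j : ℕ) {s : ℝ}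
    (hs : s ≤ |(S q g j).eval (inv q c₁ c₂ y)|) :
    s / (H * Real.exp (z ^ 3)) ^ (2 * j + 1) ≤ |psi q g c₁ c₂ (j + 1) y| := by
  have hH := hp.hH
  have hx := (h.inc hp).inv_mem hy
  have h1 := h.abs_x hx
  have h2 := hp.q_le h1
  have h3 := h.hq _ hx
  have hμ : 0 < Real.exp (-z ^ 5) * H := mul_pos (Real.exp_pos _) hH
  have hq0 : 0 < |(derivative q).eval (inv q c₁ c₂ y)| := by
    have := le_abs_self ((derivative q).eval (inv q c₁ c₂ y))
    linarith
  show _ ≤ |(S q g j).eval (inv q c₁ c₂ y) / (derivative q).eval (inv q c₁ c₂ y) ^ (2 * j + 1)|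
  rw [abs_div, abs_pow]
  calc s / (H * Real.exp (z ^ 3)) ^ (2 * j + 1) ≤
      |(S q g j).eval (inv q c₁ c₂ y)| / (H * Real.exp (z ^ 3)) ^ (2 * j + 1) := by gcongr
    _ ≤ _ := by gcongr

/-- the points are separated -/
lemma Cell.sep (hp : PD d e z H q g) (h : Cell z H q g c₁ c₂) {y y' : ℝ}
    (hy : y ∈ Icc (q.eval c₁) (q.eval c₂)) (hy' : y' ∈ Icc (q.eval c₁) (q.eval c₂)) :
    |y - y'| ≤ H * Real.exp (z ^ 3) * |inv q c₁ c₂ y - inv q c₁ c₂ y'| := by
  have hinc := h.inc hp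
  have hx := hinc.inv_mem hy
  have hx' := hinc.inv_mem hy'
  have h1 : ∀ t ∈ Icc c₁ c₂, HasDerivWithinAt (fun t => q.eval t) ((derivative q).eval t)
      (Icc c₁ c₂) t := fun t _ => (q.hasDerivAt t).hasDerivWithinAt
  have h2 : ∀ t ∈ Icc c₁ c₂, ‖(derivative q).eval t‖ ≤ H * Real.exp (z ^ 3) := by
    intro t ht
    rw [Real.norm_eq_abs]
    exact hp.q_le (h.abs_x ht)
  have h3 := (convex_Icc c₁ c₂).norm_image_sub_le_of_norm_hasDerivWithin_le h1 h2 hx' hx
  rw [Real.norm_eq_abs, Real.norm_eq_abs] at h3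
  have h4 := hinc.eval_inv hy
  have h5 := hinc.eval_inv hy'
  rw [h4, h5] at h3
  exact h3

end Pool.Agent.Q270.AF
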