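import Pool.Agent.Q270.AF.Wn

/-!
# The derivatives of `g (x (y))` where `q (x (y)) = y`
-/

set_option autoImplicit false

namespace Pool.Agent.Q270.AF

open Polynomial Finset

/-- the numerators of the derivatives of `g (x (y))`, where `q (x (y)) = y` -/
noncomputable def S (q g : ℝ[X]) : ℕ → ℝ[X]
  | 0 => derivative g
  | j + 1 => derivative (S q g j) * derivative q -
      C (2 * (j : ℝ) + 1) * (S q g j * derivative (derivative q))

variable {q g : ℝ[X]}

lemma S_zero : S q g 0 = derivative g := rfl

lemma S_succ (j : ℕ) : S q g (j + 1) = derivative (S q g j) * derivative q -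
      C (2 * (j : ℝ) + 1) * (S q g j * derivative (derivative q)) := rfl

/-- the degree -/
lemma S_natDegree {d e : ℕ} (hd : q.natDegree ≤ d) (hd2 : 2 ≤ d) (he : g.natDegree ≤ e) (j : ℕ) :
    (S q g j).natDegree ≤ (d - 2) * j + (e - 1) := by
  have hq1 : (derivative q).natDegree ≤ d - 1 := by
    have := natDegree_derivative_le q
    omega
  have hq2 : (derivative (derivative q)).natDegree ≤ d - 2 := by
    have := natDegree_derivative_le (derivative q)
    omega
  induction j with
  | zero =>
    rw [S_zero]
    have := natDegree_derivative_le g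
    omega
  | succ j ih =>
    rw [S_succ]
    have hmul : (d - 2) * (j + 1) = (d - 2) * j + (d - 2) := by ring
    refine (natDegree_sub_le _ _).trans (max_le ?_ ?_)
    · rcases Nat.eq_zero_or_pos (S q g j).natDegree with h0 | h0
      · rw [derivative_of_natDegree_zero h0, zero_mul, natDegree_zero]
        exact Nat.zero_le _
      · have h1 := natDegree_derivative_le (S q g j)
        have h2 := natDegree_mul_le (p := derivative (S q g j)) (q := derivative q)
        omega
    · refine (natDegree_C_mul_le _ _).trans ?_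
      have h2 := natDegree_mul_le (p := S q g j) (q := derivative (derivative q))
      omega

/-- the leading coefficient -/
lemma S_lead {d e : ℕ} (hd : q.natDegree ≤ d) (hd2 : 2 ≤ d) (he : g.natDegree ≤ e) (he1 : 1 ≤ e)
    (hed : e < d) (j : ℕ) :
    |q.coeff d| ^ j * |g.coeff e| ≤ |(S q g j).coeff ((d - 2) * j + (e - 1))| := by
  have hq1 : (derivative q).natDegree ≤ d - 1 := by
    have := natDegree_derivative_le q
    omega
  have hq2 : (derivative (derivative q)).natDegree ≤ d - 2 := by
    have := natDegree_derivative_le (derivative q)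
    omega
  have hc1 : (derivative q).coeff (d - 1) = q.coeff d * d := by
    rw [coeff_derivative]
    have : d - 1 + 1 = d := by omega
    rw [this]
    congr 1
    have h2 : ((d - 1 : ℕ) : ℝ) = d - 1 := by
      rw [Nat.cast_sub (by omega)]
      simp
    rw [h2]
    ring
  have hc2 : (derivative (derivative q)).coeff (d - 2) = q.coeff d * d * (d - 1) := by
    rw [coeff_derivative]
    have : d - 2 + 1 = d - 1 := by omega
    rw [this, hc1]
    congr 1
    have h2 : ((d - 2 : ℕ) : ℝ) = d - 2 := by
      rw [Nat.cast_sub (by omega)]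
      simp
    rw [h2]
    ring
  induction j with
  | zero =>
    rw [S_zero, pow_zero, one_mul, Nat.mul_zero, zero_add, coeff_derivative]
    have : e - 1 + 1 = e := by omega
    rw [this, abs_mul]
    have h2 : ((e - 1 : ℕ) : ℝ) + 1 = e := by
      rw [Nat.cast_sub (by omega)]
      simp
    rw [h2, Nat.abs_cast]
    refine le_mul_of_one_le_right (abs_nonneg _) ?_
    exact_mod_cast he1
  | succ j ih =>
    obtain ⟨n, hn⟩ : ∃ n : ℕ, n = (d - 2) * j + (e - 1) := ⟨_, rfl⟩
    have hSn : (S q g j).natDegree ≤ n := by
      rw [hn]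
      exact S_natDegree hd hd2 he j
    have hmul : (d - 2) * (j + 1) + (e - 1) = n + (d - 2) := by
      rw [hn]
      ring
    rw [← hn] at ih
    rw [hmul, S_succ, coeff_sub, coeff_C_mul, coeff_mul_add_eq_of_natDegree_le hSn hq2, hc2]
    have h1 : (derivative (S q g j) * derivative q).coeff (n + (d - 2)) =
        (S q g j).coeff n * n * (q.coeff d * d) := by
      rcases Nat.eq_zero_or_pos n with h0 | h0
      · have h3 : (S q g j).natDegree = 0 := by omega
        rw [derivative_of_natDegree_zero h3, zero_mul, coeff_zero, h0]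
        simp
      · have h3 : (derivative (S q g j)).natDegree ≤ n - 1 := by
          have := natDegree_derivative_le (S q g j)
          omega
        have h4 : n + (d - 2) = (n - 1) + (d - 1) := by omega
        rw [h4, coeff_mul_add_eq_of_natDegree_le h3 hq1, hc1, coeff_derivative]
        have h5 : n - 1 + 1 = n := by omega
        rw [h5]
        have h6 : ((n - 1 : ℕ) : ℝ) + 1 = n := by
          rw [Nat.cast_sub (by omega)]
          simp
        rw [h6]
    rw [h1]
    have h2 : (S q g j).coeff n * n * (q.coeff d * d) -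
        (2 * (j : ℝ) + 1) * ((S q g j).coeff n * (q.coeff d * d * (d - 1))) =
        q.coeff d * (S q g j).coeff n * (-(d * ((d : ℝ) * (j + 1) - e))) := by
      have h3 : (n : ℝ) = (d - 2) * j + (e - 1) := by
        rw [hn]
        push_cast [Nat.cast_sub hd2, Nat.cast_sub he1]
        ring
      rw [h3]
      ring
    rw [h2, abs_mul, abs_mul, abs_neg]
    have hdR : (2 : ℝ) ≤ d := by exact_mod_cast hd2
    have hedR : (e : ℝ) + 1 ≤ d := by exact_mod_cast hed
    have h4 : (1 : ℝ) ≤ |(d : ℝ) * (d * (j + 1) - e)| := by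
      have h5 : (1 : ℝ) ≤ (d : ℝ) * (j + 1) - e := by
        have : (0 : ℝ) ≤ (d : ℝ) * j := by positivity
        linarith
      refine le_trans ?_ (le_abs_self _)
      nlinarith
    calc |q.coeff d| ^ (j + 1) * |g.coeff e| = |q.coeff d| * (|q.coeff d| ^ j * |g.coeff e|) := by
          ring
      _ ≤ |q.coeff d| * |(S q g j).coeff n| := by gcongr
      _ ≤ _ := le_mul_of_one_le_right (by positivity) h4

/-- the norm -/
lemma S_norm {d : ℕ} {w U G : ℝ} (hw : 1 ≤ w) (hd2 : 2 ≤ d) (hd : q.natDegree ≤ d)
    (hg : g.natDegree ≤ d) (hU0 : 0 ≤ U)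
    (h1 : W w (derivative q) ≤ U) (h2 : W w (derivative (derivative q)) ≤ U)
    (h3 : W w (derivative g) ≤ G) (j : ℕ) :
    W w (S q g j) ≤ (3 * d * U) ^ j * j.factorial * G := by
  have hw0 : 0 ≤ w := by linarith
  have hG : 0 ≤ G := (W_nonneg hw0 _).trans h3
  induction j with
  | zero =>
    rw [S_zero, pow_zero, Nat.factorial_zero, Nat.cast_one, one_mul, one_mul]
    exact h3
  | succ j ih =>
    have hdeg : (S q g j).natDegree ≤ d * (j + 1) := by
      refine (S_natDegree hd hd2 hg j).trans ?_
      have : (d - 2) * j ≤ d * j := Nat.mul_le_mul_right j (by omega)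
      rw [Nat.mul_add, Nat.mul_one]
      omega
    have h4 := W_derivative hw hdeg
    have h5 := W_nonneg hw0 (S q g j)
    have hdR : (1 : ℝ) ≤ d := by exact_mod_cast (by omega : 1 ≤ d)
    have hj0 : (0 : ℝ) ≤ j := Nat.cast_nonneg j
    rw [S_succ]
    have h6 : W w (derivative (S q g j) * derivative q) ≤ (d * (j + 1)) * W w (S q g j) * U := by
      refine (W_mul hw0 _ _).trans ?_
      push_cast at h4
      exact mul_le_mul h4 h1 (W_nonneg hw0 _) (by positivity)
    have h7 : W w (C (2 * (j : ℝ) + 1) * (S q g j * derivative (derivative q))) ≤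
        (2 * j + 1) * (W w (S q g j) * U) := by
      refine (W_C_mul hw0 _ _).trans ?_
      rw [abs_of_nonneg (by positivity)]
      refine mul_le_mul_of_nonneg_left ?_ (by positivity)
      exact (W_mul hw0 _ _).trans (mul_le_mul_of_nonneg_left h2 h5)
    refine (W_sub hw0 _ _).trans ((add_le_add h6 h7).trans ?_)
    have h8 : (d * (j + 1)) * W w (S q g j) * U + (2 * j + 1) * (W w (S q g j) * U) ≤
        (3 * d * U * (j + 1)) * W w (S q g j) := by
      have h9 : (0 : ℝ) ≤ W w (S q g j) * U := by positivity
      have h10 : (d * (j + 1) : ℝ) + (2 * j + 1) ≤ 3 * d * (j + 1) := by nlinarith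
      calc _ = (d * (j + 1) + (2 * j + 1)) * (W w (S q g j) * U) := by ring
        _ ≤ (3 * d * (j + 1)) * (W w (S q g j) * U) := mul_le_mul_of_nonneg_right h10 h9
        _ = _ := by ring
    refine h8.trans ?_
    calc (3 * d * U * (j + 1)) * W w (S q g j) ≤
        (3 * d * U * (j + 1)) * ((3 * d * U) ^ j * j.factorial * G) := by gcongr
      _ = _ := by
          rw [Nat.factorial_succ]
          push_cast
          ring

/-- the derivative -/
lemma S_deriv {x : ℝ → ℝ} {y : ℝ} (hx : HasDerivAt x ((derivative q).eval (x y))⁻¹ y)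
    (hq : (derivative q).eval (x y) ≠ 0) (j : ℕ) :
    HasDerivAt (fun y => (S q g j).eval (x y) / (derivative q).eval (x y) ^ (2 * j + 1))
      ((S q g (j + 1)).eval (x y) / (derivative q).eval (x y) ^ (2 * (j + 1) + 1)) y := by
  have h1 : HasDerivAt (fun y => (S q g j).eval (x y))
      ((derivative (S q g j)).eval (x y) * ((derivative q).eval (x y))⁻¹) y :=
    ((S q g j).hasDerivAt (x y)).comp y hx
  have h2 : HasDerivAt (fun y => (derivative q).eval (x y))
      ((derivative (derivative q)).eval (x y) * ((derivative q).eval (x y))⁻¹) y :=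
    ((derivative q).hasDerivAt (x y)).comp y hx
  have h3 := h1.div (h2.fun_pow (2 * j + 1)) (pow_ne_zero _ hq)
  refine h3.congr_deriv ?_
  rw [S_succ, eval_sub, eval_mul, eval_mul, eval_C, eval_mul, Nat.add_sub_cancel]
  push_cast
  field_simp
  ring

lemma S_deriv_zero {x : ℝ → ℝ} {y : ℝ} (hx : HasDerivAt x ((derivative q).eval (x y))⁻¹ y) :
    HasDerivAt (fun y => g.eval (x y))
      ((S q g 0).eval (x y) / (derivative q).eval (x y) ^ (2 * 0 + 1)) y := by
  have h1 := (g.hasDerivAt (x y)).comp y hx
  refine h1.congr_deriv ?_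
  rw [S_zero, Nat.mul_zero, zero_add, pow_one, div_eq_mul_inv]

end Pool.Agent.Q270.AF
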