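import Pool.Agent.Q270.AF.Fa

/-!
# Typical real algebraic numbers
-/

set_option autoImplicit false

namespace Pool.Agent.Q270.AF

open Polynomial Filter Topology
open Pool.Agent.Q270.VS (cn)

/-- the number of `j ∈ [s, s + n)` for which the fractional part of `b ^ j x` is in `[u, v)` -/
noncomputable def cnt (x : ℝ) (b s n : ℕ) (u v : ℝ) : ℕ :=
  ((Finset.Ico s (s + n)).filter (fun j =>
    u ≤ Int.fract ((b : ℝ) ^ j * x) ∧ Int.fract ((b : ℝ) ^ j * x) < v)).card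

/-- vectors whose last coordinate is in a small set -/
lemma last_card {n : ℕ} (I S : Finset ℤ) :
    ((Fintype.piFinset (fun _ : Fin (n + 1) => I)).filter (fun a => a (Fin.last n) ∈ S)).card ≤
      I.card ^ n * S.card := by
  classical
  have h1 : (Fintype.piFinset (fun _ : Fin (n + 1) => I)).filter (fun a => a (Fin.last n) ∈ S) ⊆
      ((Fintype.piFinset (fun _ : Fin n => I)) ×ˢ S).image
        (fun p => (Fin.snoc p.1 p.2 : Fin (n + 1) → ℤ)) := by
    intro a ha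
    rw [Finset.mem_filter, Fintype.mem_piFinset] at ha
    rw [Finset.mem_image]
    refine ⟨(Fin.init a, a (Fin.last n)), ?_, Fin.snoc_init_self a⟩
    rw [Finset.mem_product, Fintype.mem_piFinset]
    exact ⟨fun i => ha.1 _, ha.2⟩
  refine (Finset.card_le_card h1).trans (Finset.card_image_le.trans (le_of_eq ?_))
  rw [Finset.card_product, Fintype.card_piFinset, Finset.prod_const, Finset.card_univ,
    Fintype.card_fin]

/-- the goal for one vector of coefficients -/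
def GoodA (κ δ ε : ℝ) (H : ℕ) {d : ℕ} (a : Fin (d + 1) → ℤ) : Prop :=
  ∀ ξ : ℝ, ∑ i, (a i : ℝ) * ξ ^ (i : ℕ) = 0 → ∀ g : ℚ[X], 1 ≤ g.natDegree → g.natDegree < d →
    (∀ i, |((g.coeff i).num : ℝ)| ≤ Real.exp ((Real.log H) ^ κ) ∧
      ((g.coeff i).den : ℝ) ≤ Real.exp ((Real.log H) ^ κ)) →
    ∀ b : ℕ, 2 ≤ b → (b : ℝ) ≤ Real.exp ((Real.log H) ^ κ) →
    ∀ s n : ℕ, (b : ℝ) ^ (s + n) ≤ Real.exp ((Real.log H) ^ (1 + δ)) →
    ∀ u v : ℝ, 0 ≤ u → u ≤ v → v ≤ 1 →
      |(cnt (aeval ξ g) b s n u v : ℝ) - n * (v - u)| ≤ √(n : ℝ) * (Real.log H) ^ ε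

theorem typical : ∃ δ : ℝ, 0 < δ ∧ ∀ ε : ℝ, 0 < ε → ∃ κ : ℝ, 0 < κ ∧ ∀ᶠ H : ℕ in atTop,
    ∀ d : ℕ, 2 ≤ d → (d : ℝ) ≤ (Real.log H) ^ κ →
      ∃ E : Finset (Fin (d + 1) → ℤ),
        (E.card : ℝ) ≤ (2 * (H : ℝ) + 1) ^ (d + 1) * Real.exp (-(Real.log H) ^ κ) ∧
        ∀ a : Fin (d + 1) → ℤ, (∀ i, |a i| ≤ H) → a ∉ E → GoodA κ δ ε H a := by
  classical
  obtain ⟨K₀, hK₀, hun⟩ := union
  have hK : (8 : ℝ) ≤ K₀ := by exact_mod_cast hK₀
  refine ⟨3 / (8 * K₀), by positivity, ?_⟩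
  intro ε hε
  obtain ⟨n₁, hn₁, hp1, hp2, hp3, hp4⟩ := params K₀ hK₀ hε
  obtain ⟨z₀, hz₀20, hun⟩ := hun n₁ hn₁
  obtain ⟨M, hM⟩ : ∃ M : ℕ, M = K₀ * n₁ := ⟨_, rfl⟩
  rw [← hM] at hp1 hp2 hp3 hp4 hun
  have hMp : (0 : ℝ) < M := by
    have : 0 < M := by
      rw [hM]
      exact Nat.mul_pos (by omega) (by omega)
    exact_mod_cast this
  refine ⟨1 / (16 * M), by positivity, ?_⟩
  have hlog : Tendsto (fun X : ℕ => Real.log (X : ℝ)) atTop atTop :=
    Real.tendsto_log_atTop.comp tendsto_natCast_atTop_atTop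
  have ev1 : ∀ᶠ H : ℕ in atTop, z₀ ≤ Real.log (H : ℝ) ^ (1 / (8 * (M : ℝ))) :=
    ((tendsto_rpow_atTop (by positivity)).comp hlog).eventually_ge_atTop z₀
  filter_upwards [ev1, hlog.eventually_ge_atTop 1, eventually_ge_atTop 1] with H hz₀ hℓ1 hH1
  intro d hd2 hdκ
  obtain ⟨ℓ, hℓ⟩ : ∃ ℓ : ℝ, ℓ = Real.log H := ⟨_, rfl⟩
  unfold GoodA
  rw [← hℓ] at hz₀ hℓ1 hdκ ⊢
  have hℓ0 : 0 < ℓ := by linarith
  obtain ⟨z, hz⟩ : ∃ z : ℝ, z = ℓ ^ (1 / (8 * (M : ℝ))) := ⟨_, rfl⟩
  obtain ⟨w, hw⟩ : ∃ w : ℝ, w = ℓ ^ (1 / (16 * (M : ℝ))) := ⟨_, rfl⟩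
  have e2 := hp2 ℓ hℓ0
  have e3 := hp3 ℓ hℓ0
  have e4 := hp4 ℓ hℓ0
  rw [← hz] at hz₀ e2 e3 e4
  rw [← hw] at hdκ ⊢
  have hz20 : 20 ≤ z := hz₀20.trans hz₀
  have hwz : w ^ 2 = z := by
    rw [hw, hz, ← Real.rpow_natCast, ← Real.rpow_mul hℓ0.le]
    congr 1
    push_cast
    field_simp
    norm_num
  have hd2' : (2 : ℝ) ≤ d := by exact_mod_cast hd2
  have hw2 : 2 ≤ w := hd2'.trans hdκ
  have hHp : (0 : ℝ) < H := by exact_mod_cast hH1
  have hHe : (H : ℝ) = Real.exp ℓ := by rw [hℓ, Real.exp_log hHp]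
  obtain ⟨I, hI⟩ : ∃ I : Finset ℤ, I = Finset.Icc (-(H : ℤ)) H := ⟨_, rfl⟩
  have hIc : (I.card : ℝ) = 2 * H + 1 := by
    rw [hI, Int.card_Icc]
    have : ((H : ℤ) + 1 - -(H : ℤ)).toNat = 2 * H + 1 := by omega
    rw [this]
    push_cast
    ring
  have hIm : ∀ c : ℤ, c ∈ I ↔ |c| ≤ H := by
    intro c
    rw [hI, Finset.mem_Icc, _root_.abs_le]
  -- the good property
  obtain ⟨G, hG⟩ : ∃ G : (Fin (d + 1) → ℤ) → Prop, G = fun (a : Fin (d + 1) → ℤ) =>
    ∀ ξ : ℝ, ∑ i, (a i : ℝ) * ξ ^ (i : ℕ) = 0 → ∀ g : ℚ[X], 1 ≤ g.natDegree → g.natDegree < d →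
    (∀ i, |((g.coeff i).num : ℝ)| ≤ Real.exp w ∧ ((g.coeff i).den : ℝ) ≤ Real.exp w) →
    ∀ b : ℕ, 2 ≤ b → (b : ℝ) ≤ Real.exp w →
    ∀ s n : ℕ, (b : ℝ) ^ (s + n) ≤ Real.exp (ℓ ^ (1 + 3 / (8 * (K₀ : ℝ)))) →
    ∀ u v : ℝ, 0 ≤ u → u ≤ v → v ≤ 1 →
      |(cnt (aeval ξ g) b s n u v : ℝ) - n * (v - u)| ≤ √(n : ℝ) * ℓ ^ ε := ⟨_, rfl⟩
  -- the leading coefficient
  obtain ⟨S, hS⟩ : ∃ S : Finset ℤ, S = Finset.Icc (-(⌊(H : ℝ) * Real.exp (-z)⌋₊ : ℤ))
    (⌊(H : ℝ) * Real.exp (-z)⌋₊ : ℤ) := ⟨_, rfl⟩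
  have hSc : (S.card : ℝ) ≤ 2 * (H * Real.exp (-z)) + 1 := by
    rw [hS, Int.card_Icc]
    have h1 : ((⌊(H : ℝ) * Real.exp (-z)⌋₊ : ℤ) + 1 - -(⌊(H : ℝ) * Real.exp (-z)⌋₊ : ℤ)).toNat =
      2 * ⌊(H : ℝ) * Real.exp (-z)⌋₊ + 1 := by omega
    rw [h1]
    push_cast
    have := Nat.floor_le (show 0 ≤ (H : ℝ) * Real.exp (-z) by positivity)
    linarith
  have hSm : ∀ c : ℤ, c ∉ S → (H : ℝ) * Real.exp (-z) ≤ |(c : ℝ)| := by
    intro c hc
    by_contra hcon
    push Not at hcon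
    apply hc
    have h1 : (c.natAbs : ℝ) ≤ H * Real.exp (-z) := by
      rw [Nat.cast_natAbs]
      push_cast
      exact hcon.le
    have h2 := Nat.le_floor h1
    rw [hS, Finset.mem_Icc]
    omega
  refine ⟨(Fintype.piFinset (fun _ : Fin (d + 1) => I)).filter (fun a => a (Fin.last d) ∈ S) ∪
    (Fintype.piFinset (fun _ : Fin (d + 1) => I)).filter
      (fun a => a (Fin.last d) ∉ S ∧ ¬ G a), ?_, ?_⟩
  · have h1 : (((Fintype.piFinset (fun _ : Fin (d + 1) => I)).filter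
        (fun a => a (Fin.last d) ∈ S)).card : ℝ) ≤
        (2 * (H : ℝ) + 1) ^ d * (2 * (H * Real.exp (-z)) + 1) := by
      have h2 := last_card (n := d) I S
      calc _ ≤ ((I.card ^ d * S.card : ℕ) : ℝ) := by exact_mod_cast h2
        _ = (I.card : ℝ) ^ d * S.card := by push_cast; ring
        _ ≤ _ := by
            rw [hIc]
            gcongr
    have h2 : (((Fintype.piFinset (fun _ : Fin (d + 1) => I)).filter
        (fun a => a (Fin.last d) ∉ S ∧ ¬ G a)).card : ℝ) ≤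
        (I.card : ℝ) ^ d * (H * Real.exp (-z)) := by
      refine fiber I _ ?_
      intro t ht
      rw [Fintype.mem_piFinset] at ht
      by_cases htS : t ⟨d - 1, by omega⟩ ∈ S
      · refine ⟨∅, by rw [Finset.card_empty, Nat.cast_zero]; positivity, ?_⟩
        intro c _ hP
        exfalso
        apply hP.1
        have h3 : Fin.last d = (⟨d - 1, by omega⟩ : Fin d).succ := by
          apply Fin.ext
          simp
          omega
        rw [h3, Fin.cons_succ]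
        exact htS
      · have hti : ∀ i, |(t i : ℝ)| ≤ H := fun i => by
          have := (hIm _).1 (ht i)
          exact_mod_cast this
        have hlead := hSm _ htS
        obtain ⟨bad, hb1, hb2⟩ := hun d z H ℓ w 1 (Qp (fun i => (t i : ℝ))) (-(H : ℝ) - 1)
          (2 * H + 1) hz₀ hd2 hdκ hwz.le hHp (Qp_natDegree _) (Qp_le hHp.le hti) (by
            have h3 := Qp_coeff (fun i => (t i : ℝ)) ⟨d - 1, by omega⟩
            simp only [Nat.sub_add_cancel (show 1 ≤ d by omega)] at h3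
            rw [h3]
            exact hlead) le_rfl hHe e2 (by
            push_cast
            have : (1 : ℝ) ≤ H := by exact_mod_cast hH1
            linarith)
        refine ⟨bad.image (fun n : ℕ => (H : ℤ) + 1 - n), ?_, ?_⟩
        · refine le_trans ?_ hb1
          exact_mod_cast Finset.card_image_le
        · intro c hc hP
          by_contra hcon
          apply hP.2
          have hcI := (hIm c).1 hc
          rw [_root_.abs_le] at hcI
          obtain ⟨n, hn⟩ : ∃ n : ℕ, (n : ℤ) = H + 1 - c := ⟨(H + 1 - c).toNat, by omega⟩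
          have hnb : n ∉ bad := by
            intro h3
            apply hcon
            rw [Finset.mem_image]
            exact ⟨n, h3, by omega⟩
          have hnI : n ∈ Finset.Icc 1 (2 * H + 1) := by
            rw [Finset.mem_Icc]
            omega
          rw [hG]
          intro ξ hξ g hg1 hg2 hgs b hb hbw s m hsm u v hu huv hv
          have hnr : (n : ℝ) = H + 1 - c := by exact_mod_cast hn
          have hq : (Qp (fun i => (t i : ℝ))).eval ξ = -(c : ℝ) := by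
            rw [Qp_eval]
            rw [Fin.sum_univ_succ] at hξ
            simp only [Fin.cons_zero, Fin.cons_succ, Fin.val_zero, pow_zero, mul_one,
              Fin.val_succ] at hξ
            linarith
          have hx : |ξ| ≤ Real.exp (2 * z) := by
            refine root_le (by omega) hz20 hHp hti (c := -(c : ℝ)) ?_ hlead hq
            rw [abs_neg]
            have : |c| ≤ (H : ℤ) := _root_.abs_le.2 hcI
            exact_mod_cast this
          have h3 := hb2 n hnI hnb ξ hx (by rw [hq, hnr]; ring) g hg1 hg2 hgs b hb hbw s m (by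
            rw [one_pow, one_mul, ← e3]
            exact hsm) u v hu huv hv
          rw [one_mul] at h3
          refine h3.trans (mul_le_mul_of_nonneg_left ?_ (Real.sqrt_nonneg _))
          rw [e4]
          exact Real.rpow_le_rpow_of_exponent_le hℓ1 hp1
    have h3 : (((Fintype.piFinset (fun _ : Fin (d + 1) => I)).filter
        (fun a => a (Fin.last d) ∈ S) ∪ (Fintype.piFinset (fun _ : Fin (d + 1) => I)).filter
        (fun a => a (Fin.last d) ∉ S ∧ ¬ G a)).card : ℝ) ≤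
        (2 * (H : ℝ) + 1) ^ d * (2 * (H * Real.exp (-z)) + 1) +
          (2 * (H : ℝ) + 1) ^ d * (H * Real.exp (-z)) := by
      rw [hIc] at h2
      refine le_trans ?_ (add_le_add h1 h2)
      exact_mod_cast Finset.card_union_le _ _
    refine h3.trans ?_
    have hℓz : z ≤ ℓ := by
      rw [e2]
      calc z = z ^ 1 := (pow_one z).symm
        _ ≤ z ^ (8 * M) := pow_le_pow_right₀ (by linarith) (by
            have : 0 < M := by exact_mod_cast hMp
            omega)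
    have e5 : (1 : ℝ) ≤ H * Real.exp (-z) := by
      rw [hHe, ← Real.exp_add]
      exact Real.one_le_exp (by linarith)
    have e6 : 2 * Real.exp (-z) ≤ Real.exp (-w) := by
      have h4 : Real.exp (-w) = Real.exp (z - w) * Real.exp (-z) := by
        rw [← Real.exp_add]
        congr 1
        ring
      rw [h4]
      have h5 : 2 ≤ Real.exp (z - w) := by
        have h6 := Real.add_one_le_exp (z - w)
        nlinarith
      gcongr
    calc (2 * (H : ℝ) + 1) ^ d * (2 * (H * Real.exp (-z)) + 1) +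
          (2 * (H : ℝ) + 1) ^ d * (H * Real.exp (-z)) =
          (2 * (H : ℝ) + 1) ^ d * (3 * (H * Real.exp (-z)) + 1) := by ring
      _ ≤ (2 * (H : ℝ) + 1) ^ d * ((2 * H + 1) * (2 * Real.exp (-z))) := by
          refine mul_le_mul_of_nonneg_left ?_ (by positivity)
          nlinarith [Real.exp_pos (-z)]
      _ ≤ (2 * (H : ℝ) + 1) ^ d * ((2 * H + 1) * Real.exp (-w)) := by gcongr
      _ = _ := by
          rw [pow_succ]
          ring
  · intro a ha haE
    rw [Finset.mem_union, not_or, Finset.mem_filter, Finset.mem_filter] at haE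
    obtain ⟨h1, h2⟩ := haE
    have hmem : a ∈ Fintype.piFinset (fun _ : Fin (d + 1) => I) := by
      rw [Fintype.mem_piFinset]
      exact fun i => (hIm _).2 (ha i)
    have h3 : a (Fin.last d) ∉ S := fun h => h1 ⟨hmem, h⟩
    have h4 : G a := by
      by_contra hcon
      exact h2 ⟨hmem, h3, hcon⟩
    rw [hG] at h4
    exact h4

end Pool.Agent.Q270.AF
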