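import Pool.Agent.Q270.AF.Ta

/-!
# The roots of `P(x) = m` for almost all integers `m`
-/

set_option autoImplicit false

namespace Pool.Agent.Q270.AF

open Polynomial Filter Topology
open Pool.Agent.Q270.VS (cn)

/-- the goal for one integer -/
def GoodM (κ δ ε : ℝ) (N m : ℕ) : Prop :=
  ∀ P : ℤ[X], 2 ≤ P.natDegree → (P.natDegree : ℝ) ≤ (Real.log N) ^ κ →
    (∀ i, |(P.coeff i : ℝ)| ≤ Real.exp ((Real.log N) ^ κ)) →
    ∀ ξ : ℝ, aeval ξ P = (m : ℝ) → ∀ g : ℚ[X], 1 ≤ g.natDegree → g.natDegree < P.natDegree →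
    (∀ i, |((g.coeff i).num : ℝ)| ≤ Real.exp ((Real.log N) ^ κ) ∧
      ((g.coeff i).den : ℝ) ≤ Real.exp ((Real.log N) ^ κ)) →
    ∀ b : ℕ, 2 ≤ b → (b : ℝ) ≤ Real.exp ((Real.log N) ^ κ) →
    ∀ s n : ℕ, (b : ℝ) ^ (s + n) ≤ Real.exp ((Real.log N) ^ (1 + δ)) →
    ∀ u v : ℝ, 0 ≤ u → u ≤ v → v ≤ 1 →
      |(cnt (aeval ξ g) b s n u v : ℝ) - n * (v - u)| ≤ √(n : ℝ) * (Real.log N) ^ ε

theorem values : ∃ δ : ℝ, 0 < δ ∧ ∀ ε : ℝ, 0 < ε → ∃ κ : ℝ, 0 < κ ∧ ∀ᶠ N : ℕ in atTop,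
    ∃ E : Finset ℕ, (E.card : ℝ) ≤ N * Real.exp (-(Real.log N) ^ κ) ∧
      ∀ m : ℕ, 1 ≤ m → m ≤ N → m ∉ E → GoodM κ δ ε N m := by
  classical
  obtain ⟨K₀, hK₀, hun⟩ := union
  have hK : (8 : ℝ) ≤ K₀ := by exact_mod_cast hK₀
  refine ⟨3 / (16 * K₀), by positivity, ?_⟩
  intro ε hε
  obtain ⟨n₁, hn₁, hp1, hp2, hp3, hp4⟩ := params K₀ hK₀ (half_pos hε)
  obtain ⟨z₀, hz₀20, hun⟩ := hun n₁ hn₁
  obtain ⟨M, hM⟩ : ∃ M : ℕ, M = K₀ * n₁ := ⟨_, rfl⟩
  rw [← hM] at hp1 hp2 hp3 hp4 hun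
  have hM80 : 80 ≤ M := by
    rw [hM]
    have : 8 * 10 ≤ K₀ * n₁ := Nat.mul_le_mul hK₀ hn₁
    omega
  have hMp : (0 : ℝ) < M := by
    have : 0 < M := by omega
    exact_mod_cast this
  refine ⟨1 / (32 * M), by positivity, ?_⟩
  have hlog : Tendsto (fun X : ℕ => Real.log (X : ℝ)) atTop atTop :=
    Real.tendsto_log_atTop.comp tendsto_natCast_atTop_atTop
  have ev1 : ∀ᶠ N : ℕ in atTop, z₀ ≤ Real.log (N : ℝ) ^ (1 / (8 * (M : ℝ))) :=
    ((tendsto_rpow_atTop (by positivity)).comp hlog).eventually_ge_atTop z₀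
  have ev2 : ∀ᶠ N : ℕ in atTop, 4 ≤ Real.log (N : ℝ) ^ (1 / (32 * (M : ℝ))) :=
    ((tendsto_rpow_atTop (by positivity)).comp hlog).eventually_ge_atTop 4
  have ev3 : ∀ᶠ N : ℕ in atTop, 2 ≤ Real.log (N : ℝ) ^ (3 / (16 * (K₀ : ℝ))) :=
    ((tendsto_rpow_atTop (by positivity)).comp hlog).eventually_ge_atTop 2
  filter_upwards [ev1, ev2, ev3, hlog.eventually_ge_atTop 3, eventually_ge_atTop 1] with
    N hz₀' hw4 hLδ hL3 hN1
  obtain ⟨L, hL⟩ : ∃ L : ℝ, L = Real.log N := ⟨_, rfl⟩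
  unfold GoodM
  rw [← hL] at hz₀' hw4 hLδ hL3 ⊢
  have hL0 : 0 < L := by linarith
  obtain ⟨w, hw⟩ : ∃ w : ℝ, w = L ^ (1 / (32 * (M : ℝ))) := ⟨_, rfl⟩
  rw [← hw] at hw4 ⊢
  have hNp : (0 : ℝ) < N := by exact_mod_cast hN1
  have hNe : (N : ℝ) = Real.exp L := by rw [hL, Real.exp_log hNp]
  have hwL : w ≤ L := by
    rw [hw]
    calc L ^ (1 / (32 * (M : ℝ))) ≤ L ^ (1 : ℝ) := by
          apply Real.rpow_le_rpow_of_exponent_le (by linarith)
          rw [div_le_one (by positivity)]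
          have : (80 : ℝ) ≤ M := by exact_mod_cast hM80
          linarith
      _ = L := Real.rpow_one L
  obtain ⟨ℓ, hℓ⟩ : ∃ ℓ : ℝ, ℓ = L + 2 * w := ⟨_, rfl⟩
  obtain ⟨H, hH⟩ : ∃ H : ℝ, H = Real.exp ℓ := ⟨_, rfl⟩
  have hHp : 0 < H := by rw [hH]; exact Real.exp_pos _
  have hHN : H = N * Real.exp (2 * w) := by
    rw [hH, hℓ, Real.exp_add, ← hNe]
  have hℓ0 : 0 < ℓ := by linarith
  have hLℓ : L ≤ ℓ := by linarith
  obtain ⟨z, hz⟩ : ∃ z : ℝ, z = ℓ ^ (1 / (8 * (M : ℝ))) := ⟨_, rfl⟩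
  have e2 := hp2 ℓ hℓ0
  have e3 := hp3 ℓ hℓ0
  have e4 := hp4 ℓ hℓ0
  rw [← hz] at e2 e3 e4
  have hz₀ : z₀ ≤ z := by
    rw [hz]
    exact hz₀'.trans (Real.rpow_le_rpow hL0.le hLℓ (by positivity))
  have hz20 : 20 ≤ z := hz₀20.trans hz₀
  have hwz : w ^ 4 ≤ z := by
    have h1 : w ^ 4 = L ^ (1 / (8 * (M : ℝ))) := by
      rw [hw, ← Real.rpow_natCast, ← Real.rpow_mul hL0.le]
      congr 1
      push_cast
      field_simp
      norm_num
    rw [h1, hz]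
    exact Real.rpow_le_rpow hL0.le hLℓ (by positivity)
  have hw2z : 16 * w ^ 2 ≤ w ^ 4 := by
    have h1 : (16 : ℝ) ≤ w ^ 2 := by nlinarith
    have h2 : w ^ 4 = w ^ 2 * w ^ 2 := by ring
    rw [h2]
    nlinarith [sq_nonneg w]
  have hwz2 : w ^ 2 ≤ z := by nlinarith [sq_nonneg w]
  have h2wz : 2 * w ≤ z := by nlinarith
  -- the bounds for the windows
  have hwin : L + L ^ (1 + 3 / (16 * (K₀ : ℝ))) ≤ ℓ ^ (1 + 3 / (8 * (K₀ : ℝ))) := by
    have h1 : L ^ (1 + 3 / (8 * (K₀ : ℝ))) ≤ ℓ ^ (1 + 3 / (8 * (K₀ : ℝ))) :=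
      Real.rpow_le_rpow hL0.le hLℓ (by positivity)
    have h2 : L ^ (1 + 3 / (8 * (K₀ : ℝ))) =
        L ^ (3 / (16 * (K₀ : ℝ))) * L ^ (1 + 3 / (16 * (K₀ : ℝ))) := by
      rw [← Real.rpow_add hL0]
      congr 1
      field_simp
      ring
    have h3 : L ≤ L ^ (1 + 3 / (16 * (K₀ : ℝ))) := by
      calc L = L ^ (1 : ℝ) := (Real.rpow_one L).symm
        _ ≤ _ := by
            apply Real.rpow_le_rpow_of_exponent_le (by linarith)
            have : 0 ≤ 3 / (16 * (K₀ : ℝ)) := by positivity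
            linarith
    have h4 : 0 ≤ L ^ (1 + 3 / (16 * (K₀ : ℝ))) := by positivity
    nlinarith
  have hz25 : z ^ 25 ≤ L ^ ε := by
    rw [e4]
    have h1 : ℓ ≤ L ^ 2 := by nlinarith
    calc ℓ ^ (25 / (8 * (M : ℝ))) ≤ (L ^ 2) ^ (25 / (8 * (M : ℝ))) :=
          Real.rpow_le_rpow hℓ0.le h1 (by positivity)
      _ ≤ (L ^ 2) ^ (ε / 2) := by
          apply Real.rpow_le_rpow_of_exponent_le (by nlinarith) hp1
      _ = L ^ ε := by
          rw [← Real.rpow_natCast, ← Real.rpow_mul hL0.le]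
          congr 1
          push_cast
          ring
  -- the polynomials
  obtain ⟨V, hV⟩ : ∃ V : ℕ, V = ⌊Real.exp w⌋₊ := ⟨_, rfl⟩
  have hV1 : (V : ℝ) ≤ Real.exp w := by rw [hV]; exact Nat.floor_le (Real.exp_pos _).le
  obtain ⟨D, hD⟩ : ∃ D : ℕ, D = ⌊w⌋₊ := ⟨_, rfl⟩
  have hD1 : (D : ℝ) ≤ w := by rw [hD]; exact Nat.floor_le (by linarith)
  obtain ⟨T, hT⟩ : ∃ T : Finset ℤ[X], T =
    (Fintype.piFinset (fun _ : Fin (D + 1) => Finset.Icc (-(V : ℤ)) V)).image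
      (fun p => ∑ i : Fin (D + 1), C (p i) * X ^ (i : ℕ)) := ⟨_, rfl⟩
  have hTc : (T.card : ℝ) ≤ Real.exp (4 * w ^ 2) := by
    have h1 : T.card ≤ (2 * V + 1) ^ (D + 1) := by
      rw [hT]
      refine Finset.card_image_le.trans (le_of_eq ?_)
      rw [Fintype.card_piFinset, Finset.prod_const, Int.card_Icc, Finset.card_univ,
        Fintype.card_fin]
      congr 1
      omega
    have h3 : (2 * (V : ℝ) + 1) ≤ Real.exp (2 * w) := by
      have h4 := Real.add_one_le_exp w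
      have h5 : Real.exp (2 * w) = Real.exp w * Real.exp w := by
        rw [← Real.exp_add]
        congr 1
        ring
      rw [h5]
      nlinarith
    calc (T.card : ℝ) ≤ (2 * (V : ℝ) + 1) ^ (D + 1) := by exact_mod_cast h1
      _ ≤ Real.exp (2 * w) ^ (D + 1) := by gcongr
      _ = Real.exp (((D + 1 : ℕ) : ℝ) * (2 * w)) := by rw [← Real.exp_nat_mul]
      _ ≤ _ := by
          apply Real.exp_le_exp.2
          push_cast
          nlinarith
  have hmemT : ∀ P : ℤ[X], (P.natDegree : ℝ) ≤ w → (∀ i, |(P.coeff i : ℝ)| ≤ Real.exp w) →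
      P ∈ T := by
    intro P hP1 hP2
    rw [hT, Finset.mem_image]
    refine ⟨fun i => P.coeff i, ?_, ?_⟩
    · rw [Fintype.mem_piFinset]
      intro i
      have h1 : ((P.coeff i).natAbs : ℝ) ≤ Real.exp w := by
        rw [Nat.cast_natAbs]
        push_cast
        exact hP2 i
      have h2 := Nat.le_floor h1
      rw [← hV] at h2
      rw [Finset.mem_Icc]
      omega
    · have h1 : P.natDegree < D + 1 := by
        have := Nat.le_floor hP1
        rw [← hD] at this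
        omega
      rw [Fin.sum_univ_eq_sum_range (fun i => C (P.coeff i) * X ^ i) (D + 1)]
      exact (as_sum_range_C_mul_X_pow' _ h1).symm
  have hone : ∀ P : ℤ[X], ∃ bad : Finset ℕ, (bad.card : ℝ) ≤ H * Real.exp (-z) ∧
      (2 ≤ P.natDegree → (P.natDegree : ℝ) ≤ w → (∀ i, |(P.coeff i : ℝ)| ≤ Real.exp w) →
      ∀ n ∈ Finset.Icc 1 N, n ∉ bad → ∀ ξ : ℝ, aeval ξ P = (n : ℝ) →
        ∀ g : ℚ[X], 1 ≤ g.natDegree → g.natDegree < P.natDegree → Small w g →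
        ∀ b : ℕ, 2 ≤ b → (b : ℝ) ≤ Real.exp w →
          Win (fun j => (b : ℝ) ^ j * aeval ξ g) N b
            (Real.exp (z ^ (8 * M + 3 * n₁))) (z ^ 25)) := by
    intro P
    by_cases hP : 2 ≤ P.natDegree ∧ (P.natDegree : ℝ) ≤ w ∧
        (∀ i, |(P.coeff i : ℝ)| ≤ Real.exp w)
    swap
    · refine ⟨∅, by rw [Finset.card_empty, Nat.cast_zero]; positivity, ?_⟩
      intro h1 h2 h3
      exact absurd ⟨h1, h2, h3⟩ hP
    obtain ⟨hP1, hP2, hP3⟩ := hP
    obtain ⟨d, hd⟩ : ∃ d : ℕ, d = P.natDegree := ⟨_, rfl⟩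
    rw [← hd] at hP1 hP2 ⊢
    obtain ⟨lam, hlam⟩ : ∃ lam : ℝ, lam = (N : ℝ) ^ (1 / (d : ℝ)) := ⟨_, rfl⟩
    have hd0 : (0 : ℝ) < d := by
      have : 0 < d := by omega
      exact_mod_cast this
    have hlamd : lam ^ d = N := by
      rw [hlam, ← Real.rpow_natCast, ← Real.rpow_mul hNp.le]
      rw [one_div, inv_mul_cancel₀ hd0.ne', Real.rpow_one]
    have hlam1 : 1 ≤ lam := by
      rw [hlam]
      exact Real.one_le_rpow (by exact_mod_cast hN1) (by positivity)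
    have hlam0 : 0 < lam := by linarith
    obtain ⟨t, ht⟩ : ∃ t : Fin d → ℝ, t = fun (i : Fin d) => (P.coeff ((i : ℕ) + 1) : ℝ) *
      lam ^ ((i : ℕ) + 1) := ⟨_, rfl⟩
    have htH : ∀ i, |t i| ≤ H := by
      intro i
      rw [ht, hHN]
      simp only
      rw [abs_mul, abs_of_nonneg (show 0 ≤ lam ^ ((i : ℕ) + 1) by positivity), mul_comm]
      have h1 : lam ^ ((i : ℕ) + 1) ≤ N := by
        rw [← hlamd]
        exact pow_le_pow_right₀ hlam1 (by have := i.2; omega)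
      have h2 : |(P.coeff ((i : ℕ) + 1) : ℝ)| ≤ Real.exp (2 * w) :=
        (hP3 _).trans (Real.exp_le_exp.2 (by linarith))
      exact mul_le_mul h1 h2 (abs_nonneg _) hNp.le
    have hlead : H * Real.exp (-z) ≤ |t ⟨d - 1, by omega⟩| := by
      rw [ht]
      simp only
      rw [Nat.sub_add_cancel (by omega : 1 ≤ d), hlamd, abs_mul, Nat.abs_cast]
      have h1 : P.coeff d ≠ 0 := by
        rw [hd, coeff_natDegree, Ne, leadingCoeff_eq_zero]
        rintro rfl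
        rw [natDegree_zero] at hd
        omega
      have h2 : (1 : ℝ) ≤ |(P.coeff d : ℝ)| := by
        have := Int.one_le_abs h1
        exact_mod_cast this
      calc H * Real.exp (-z) = Real.exp (2 * w - z) * N := by
            rw [hHN, sub_eq_add_neg, Real.exp_add]
            ring
        _ ≤ 1 * N := by
            refine mul_le_mul_of_nonneg_right ?_ hNp.le
            rw [Real.exp_le_one_iff]
            linarith
        _ ≤ _ := by gcongr
    obtain ⟨bad, hb1, hb2⟩ := hun d z H ℓ w lam (Qp t) (-(P.coeff 0 : ℝ)) N hz₀ hP1 hP2 hwz2 hHp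
      (Qp_natDegree _) (Qp_le hHp.le htH) (by
        have h3 := Qp_coeff t ⟨d - 1, by omega⟩
        simp only [Nat.sub_add_cancel (show 1 ≤ d by omega)] at h3
        rw [h3]
        exact hlead) hlam1 hH e2 (by
        rw [hHN]
        have h1 : (1 : ℝ) ≤ Real.exp (2 * w) := Real.one_le_exp (by linarith)
        nlinarith)
    refine ⟨bad, hb1, ?_⟩
    intro _ _ _ n hn hnb ξ hξ g hg1 hg2 hgs b hb hbw
    have hq : (Qp t).eval (ξ / lam) = -(P.coeff 0 : ℝ) + n := by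
      rw [Qp_eval]
      have h1 : aeval ξ P = ∑ i ∈ Finset.range (d + 1), (P.coeff i : ℝ) * ξ ^ i := by
        rw [aeval_eq_sum_range, ← hd]
        refine Finset.sum_congr rfl fun i _ => ?_
        rw [zsmul_eq_mul]
      rw [h1, Finset.sum_range_succ', pow_zero, mul_one] at hξ
      rw [← hξ]
      have h2 : ∑ i : Fin d, t i * (ξ / lam) ^ ((i : ℕ) + 1) =
          ∑ i ∈ Finset.range d, (P.coeff (i + 1) : ℝ) * ξ ^ (i + 1) := by
        rw [← Fin.sum_univ_eq_sum_range (fun i => (P.coeff (i + 1) : ℝ) * ξ ^ (i + 1)) d]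
        refine Finset.sum_congr rfl fun i _ => ?_
        rw [ht]
        simp only
        rw [div_pow]
        field_simp
      rw [h2]
      ring
    have hnN : (n : ℝ) ≤ N := by exact_mod_cast (Finset.mem_Icc.1 hn).2
    have hx : |ξ / lam| ≤ Real.exp (2 * z) := by
      refine root_le (by omega) hz20 hHp htH (c := -(P.coeff 0 : ℝ) + n) ?_ hlead hq
      have h1 := hP3 0
      have h2 : Real.exp w ≤ N := by
        rw [hNe]
        exact Real.exp_le_exp.2 hwL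
      have h3 : (2 : ℝ) ≤ Real.exp (2 * w) := by
        have := Real.add_one_le_exp (2 * w)
        linarith
      calc |-(P.coeff 0 : ℝ) + n| ≤ |-(P.coeff 0 : ℝ)| + |(n : ℝ)| := abs_add_le _ _
        _ ≤ N + N := by
            rw [abs_neg, Nat.abs_cast]
            exact add_le_add (h1.trans h2) hnN
        _ = N * 2 := by ring
        _ ≤ H := by
            rw [hHN]
            gcongr
    have h3 := hb2 n hn hnb (ξ / lam) hx hq g hg1 hg2 hgs b hb hbw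
    rw [mul_div_cancel₀ ξ hlam0.ne', hlamd] at h3
    exact h3
  choose bd hbd1 hbd2 using hone
  refine ⟨T.biUnion bd, ?_, ?_⟩
  · have h2 : ((T.biUnion bd).card : ℝ) ≤ ∑ t ∈ T, ((bd t).card : ℝ) := by
      exact_mod_cast Finset.card_biUnion_le
    refine h2.trans ?_
    calc ∑ t ∈ T, ((bd t).card : ℝ) ≤ ∑ _t ∈ T, H * Real.exp (-z) :=
          Finset.sum_le_sum fun t _ => hbd1 t
      _ = T.card * (H * Real.exp (-z)) := by rw [Finset.sum_const, nsmul_eq_mul]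
      _ ≤ Real.exp (4 * w ^ 2) * (H * Real.exp (-z)) := by gcongr
      _ = N * Real.exp (4 * w ^ 2 + 2 * w - z) := by
          rw [hHN, sub_eq_add_neg, Real.exp_add, Real.exp_add]
          ring
      _ ≤ _ := by
          refine mul_le_mul_of_nonneg_left (Real.exp_le_exp.2 ?_) hNp.le
          nlinarith
  · intro m hm1 hmN hmE P hP1 hP2 hP3 ξ hξ g hg1 hg2 hgs b hb hbw s n hsn u v hu huv hv
    simp only [Finset.mem_biUnion, not_exists, not_and] at hmE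
    have h1 := hbd2 P hP1 hP2 hP3 m (Finset.mem_Icc.2 ⟨hm1, hmN⟩) (hmE P (hmemT P hP2 hP3)) ξ hξ
      g hg1 hg2 hgs b hb hbw s n (by
        rw [← e3]
        calc (N : ℝ) * (b : ℝ) ^ (s + n) ≤ Real.exp L * Real.exp (L ^ (1 + 3 / (16 * (K₀ : ℝ)))) := by
              rw [← hNe]
              gcongr
          _ = Real.exp (L + L ^ (1 + 3 / (16 * (K₀ : ℝ)))) := by rw [Real.exp_add]
          _ ≤ _ := Real.exp_le_exp.2 hwin) u v hu huv hv
    refine h1.trans (mul_le_mul_of_nonneg_left hz25 (Real.sqrt_nonneg _))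

end Pool.Agent.Q270.AF
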