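import Pool.Agent.Q270.AF.Cp

/-!
# All functions of small height and all small bases
-/

set_option autoImplicit false

namespace Pool.Agent.Q270.AF

open Polynomial Set Filter Topology
open Pool.Agent.Q270.VS (cn)

/-- the rational polynomials of small height -/
def Small (w : ℝ) (g : ℚ[X]) : Prop :=
  ∀ i, |((g.coeff i).num : ℝ)| ≤ Real.exp w ∧ ((g.coeff i).den : ℝ) ≤ Real.exp w

/-- the scaled polynomial with the coefficients `c` -/
noncomputable def Gp (d : ℕ) (lam : ℝ) (c : Fin d → ℤ × ℕ) (e : ℕ) : ℝ[X] :=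
  ∑ i : Fin d, C (((c i).1 : ℝ) / (c i).2 * (lam ^ (i : ℕ) / lam ^ e)) * X ^ (i : ℕ)

lemma Gp_coeff {d : ℕ} {lam : ℝ} {c : Fin d → ℤ × ℕ} {e : ℕ} {g : ℚ[X]} (hg : g.natDegree < d)
    (hc : ∀ i : Fin d, c i = ((g.coeff i).num, (g.coeff i).den)) (n : ℕ) :
    (Gp d lam c e).coeff n = (g.coeff n : ℝ) * (lam ^ n / lam ^ e) := by
  unfold Gp
  rw [finset_sum_coeff]
  simp only [coeff_C_mul, coeff_X_pow]
  by_cases hn : n < d
  · rw [Finset.sum_eq_single (⟨n, hn⟩ : Fin d)]
    · simp only [if_true, mul_one, hc]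
      congr 1
      rw [← Rat.cast_def]
    · intro i _ hi
      rw [if_neg (fun h => hi (Fin.ext h.symm)), mul_zero]
    · simp
  · have h1 : g.coeff n = 0 := coeff_eq_zero_of_natDegree_lt (by omega)
    rw [h1, Rat.cast_zero, zero_mul]
    refine Finset.sum_eq_zero fun i _ => ?_
    rw [if_neg (by have := i.2; omega), mul_zero]

lemma Gp_eval {d : ℕ} {lam : ℝ} {c : Fin d → ℤ × ℕ} {e : ℕ} {g : ℚ[X]} (hg : g.natDegree < d)
    (hlam : lam ≠ 0) (hc : ∀ i : Fin d, c i = ((g.coeff i).num, (g.coeff i).den)) (x : ℝ) :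
    lam ^ e * (Gp d lam c e).eval x = aeval (lam * x) g := by
  unfold Gp
  rw [eval_finset_sum, Finset.mul_sum, aeval_eq_sum_range' hg, ← Fin.sum_univ_eq_sum_range
    (fun i => g.coeff i • (lam * x) ^ i) d]
  refine Finset.sum_congr rfl fun i _ => ?_
  rw [eval_mul, eval_C, eval_pow, eval_X, hc]
  simp only
  rw [← Rat.cast_def, Rat.smul_def, mul_pow]
  field_simp

theorem union : ∃ K₀ : ℕ, 8 ≤ K₀ ∧ ∀ n₁ : ℕ, 10 ≤ n₁ → ∃ z₀ : ℝ, 20 ≤ z₀ ∧
    ∀ (d : ℕ) (z H ℓ w lam : ℝ) (q : ℝ[X]) (α : ℝ) (N' : ℕ), z₀ ≤ z → 2 ≤ d → (d : ℝ) ≤ w →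
    w ^ 2 ≤ z → 0 < H → q.natDegree ≤ d → (∀ i, 1 ≤ i → |q.coeff i| ≤ H) →
    H * Real.exp (-z) ≤ |q.coeff d| → 1 ≤ lam →
    H = Real.exp ℓ → ℓ = z ^ (8 * (K₀ * n₁)) → (N' : ℝ) ≤ 3 * H →
    ∃ bad : Finset ℕ, (bad.card : ℝ) ≤ H * Real.exp (-z) ∧
      ∀ n ∈ Finset.Icc 1 N', n ∉ bad → ∀ x : ℝ, |x| ≤ Real.exp (2 * z) → q.eval x = α + n →
        ∀ g : ℚ[X], 1 ≤ g.natDegree → g.natDegree < d → Small w g →
        ∀ b : ℕ, 2 ≤ b → (b : ℝ) ≤ Real.exp w →
          Win (fun j => (b : ℝ) ^ j * aeval (lam * x) g) (lam ^ d) b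
            (Real.exp (z ^ (8 * (K₀ * n₁) + 3 * n₁))) (z ^ 25) := by
  classical
  obtain ⟨K₀, hK₀, hcore⟩ := core
  refine ⟨K₀, hK₀, fun n₁ hn₁ => ?_⟩
  obtain ⟨z₀, hz₀20, hcore⟩ := hcore n₁ hn₁
  refine ⟨z₀, hz₀20, ?_⟩
  intro d z H ℓ w lam q α N' hz₀ hd2 hdw hwz hHp hqd hqc hql hlam hH hℓ hN'
  have hz : 20 ≤ z := hz₀20.trans hz₀
  have hd2' : (2 : ℝ) ≤ d := by exact_mod_cast hd2
  have hw2 : 2 ≤ w := hd2'.trans hdw
  have hwz' : w ≤ z := by nlinarith
  have hlam0 : 0 < lam := by linarith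
  obtain ⟨V, hV⟩ : ∃ V : ℕ, V = ⌊Real.exp w⌋₊ := ⟨_, rfl⟩
  have hV1 : (V : ℝ) ≤ Real.exp w := by rw [hV]; exact Nat.floor_le (Real.exp_pos _).le
  have hV2 : ∀ m : ℕ, (m : ℝ) ≤ Real.exp w → m ≤ V := fun m hm => by
    rw [hV]
    exact Nat.le_floor hm
  obtain ⟨X, hX⟩ : ∃ X : ℝ, X = Real.exp (z ^ (8 * (K₀ * n₁) + 3 * n₁)) := ⟨_, rfl⟩
  -- the bad set of one function and one base
  have hone : ∀ t : (Fin d → ℤ × ℕ) × ℕ × ℕ, ∃ s : Finset ℕ,
      (s.card : ℝ) ≤ H * Real.exp (-z ^ 2) ∧ (PD d t.2.1 z H q (Gp d lam t.1 t.2.1) → 2 ≤ t.2.2 →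
      ∀ n ∈ Finset.Icc 1 N', n ∉ s → ∀ x : ℝ, |x| ≤ Real.exp (2 * z) → q.eval x = α + n →
        Win (fun j => lam ^ t.2.1 * (t.2.2 : ℝ) ^ j * (Gp d lam t.1 t.2.1).eval x)
          |lam ^ t.2.1| t.2.2 X (z ^ 25)) := by
    intro t
    by_cases h : PD d t.2.1 z H q (Gp d lam t.1 t.2.1) ∧ 2 ≤ t.2.2
    · obtain ⟨s, hs1, hs2⟩ := hcore d t.2.1 z H ℓ q (Gp d lam t.1 t.2.1) α (lam ^ t.2.1) N' t.2.2
        hz₀ h.1 hH hℓ hN' (by
          rw [abs_of_nonneg (by positivity)]
          exact one_le_pow₀ hlam) h.2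
      exact ⟨s, hs1, fun _ _ => hX ▸ hs2⟩
    · refine ⟨∅, ?_, fun h1 h2 => absurd ⟨h1, h2⟩ h⟩
      rw [Finset.card_empty, Nat.cast_zero]
      positivity
  choose bd hbd1 hbd2 using hone
  obtain ⟨T, hT⟩ : ∃ T : Finset ((Fin d → ℤ × ℕ) × ℕ × ℕ), T =
    (Fintype.piFinset (fun _ : Fin d => (Finset.Icc (-(V : ℤ)) V) ×ˢ (Finset.Icc 1 V))) ×ˢ
      ((Finset.range d) ×ˢ (Finset.Icc 1 V)) := ⟨_, rfl⟩
  refine ⟨T.biUnion bd, ?_, ?_⟩
  · have h1 : ((T.biUnion bd).card : ℝ) ≤ T.card * (H * Real.exp (-z ^ 2)) := by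
      have h2 : ((T.biUnion bd).card : ℝ) ≤ ∑ t ∈ T, ((bd t).card : ℝ) := by
        exact_mod_cast Finset.card_biUnion_le
      refine h2.trans ?_
      rw [← nsmul_eq_mul, ← Finset.sum_const]
      exact Finset.sum_le_sum fun t _ => hbd1 t
    have hTc : (T.card : ℝ) ≤ Real.exp (8 * z) := by
      have h2 : T.card = ((2 * V + 1) * V) ^ d * (d * V) := by
        rw [hT, Finset.card_product, Finset.card_product, Fintype.card_piFinset, Finset.prod_const,
          Finset.card_product, Int.card_Icc, Nat.card_Icc, Finset.card_range, Finset.card_univ,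
          Fintype.card_fin]
        congr 3
        omega
      rw [h2]
      push_cast
      have h3 : (2 * (V : ℝ) + 1) ≤ Real.exp (2 * w) := by
        have h4 := Real.add_one_le_exp w
        have h5 : Real.exp (2 * w) = Real.exp w * Real.exp w := by
          rw [← Real.exp_add]
          congr 1
          ring
        rw [h5]
        nlinarith
      have h6 : (d : ℝ) ≤ Real.exp w := by
        have h4 := Real.add_one_le_exp w
        linarith
      calc ((2 * (V : ℝ) + 1) * V) ^ d * (d * V) ≤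
          (Real.exp (2 * w) * Real.exp w) ^ d * (Real.exp w * Real.exp w) := by gcongr
        _ = Real.exp (d * (3 * w) + 2 * w) := by
            rw [Real.exp_add, Real.exp_nat_mul, ← Real.exp_add, ← Real.exp_add]
            congr 2
            · congr 1
              ring
            · ring
        _ ≤ _ := by
            apply Real.exp_le_exp.2
            nlinarith
    refine h1.trans ?_
    calc (T.card : ℝ) * (H * Real.exp (-z ^ 2)) ≤ Real.exp (8 * z) * (H * Real.exp (-z ^ 2)) := by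
          gcongr
      _ = H * Real.exp (8 * z - z ^ 2) := by
          rw [sub_eq_add_neg, Real.exp_add]
          ring
      _ ≤ _ := by
          refine mul_le_mul_of_nonneg_left (Real.exp_le_exp.2 ?_) hHp.le
          nlinarith
  · intro n hn hnb x hx hqx g hg1 hgd hgs b hb hbw
    simp only [Finset.mem_biUnion, not_exists, not_and] at hnb
    obtain ⟨c, hc⟩ : ∃ c : Fin d → ℤ × ℕ, ∀ i : Fin d, c i = ((g.coeff i).num, (g.coeff i).den) :=
      ⟨fun i => ((g.coeff i).num, (g.coeff i).den), fun i => rfl⟩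
    have hmem : (c, g.natDegree, b) ∈ T := by
      rw [hT, Finset.mem_product, Finset.mem_product, Fintype.mem_piFinset]
      refine ⟨fun i => ?_, ?_, ?_⟩
      · show c i ∈ _
        rw [hc, Finset.mem_product, Finset.mem_Icc, Finset.mem_Icc]
        obtain ⟨h1, h2⟩ := hgs i
        have h3 : ((g.coeff i).num.natAbs : ℝ) ≤ Real.exp w := by
          rw [Nat.cast_natAbs]
          push_cast
          exact h1
        have h4 := hV2 _ h3
        refine ⟨⟨?_, ?_⟩, (g.coeff i).pos, hV2 _ h2⟩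
        · show -(V : ℤ) ≤ (g.coeff i).num
          omega
        · show (g.coeff i).num ≤ V
          omega
      · exact Finset.mem_range.2 hgd
      · exact Finset.mem_Icc.2 ⟨by show 1 ≤ b; omega, hV2 _ hbw⟩
    have hcoef : ∀ i, |(g.coeff i : ℝ)| ≤ Real.exp w := by
      intro i
      rw [Rat.cast_def, abs_div, Nat.abs_cast]
      have h1 : (1 : ℝ) ≤ (g.coeff i).den := by exact_mod_cast (g.coeff i).pos
      exact (div_le_self (abs_nonneg _) h1).trans (hgs i).1
    have hpd : PD d g.natDegree z H q (Gp d lam c g.natDegree) := by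
      refine ⟨hz, hHp, hd2, hdw.trans hwz', hg1, hgd, hqd, ?_, hqc, ?_, hql, ?_⟩
      · rw [natDegree_le_iff_coeff_eq_zero]
        intro N hN
        rw [Gp_coeff hgd hc, coeff_eq_zero_of_natDegree_lt hN, Rat.cast_zero, zero_mul]
      · intro i _
        rw [Gp_coeff hgd hc]
        rcases le_or_gt i g.natDegree with h1 | h1
        · rw [abs_mul]
          have h2 : |lam ^ i / lam ^ g.natDegree| ≤ 1 := by
            rw [abs_of_nonneg (by positivity), div_le_one (by positivity)]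
            exact pow_le_pow_right₀ hlam h1
          calc |(g.coeff i : ℝ)| * |lam ^ i / lam ^ g.natDegree| ≤ Real.exp w * 1 := by
                exact mul_le_mul (hcoef i) h2 (abs_nonneg _) (Real.exp_pos _).le
            _ ≤ Real.exp z := by
                rw [mul_one]
                exact Real.exp_le_exp.2 hwz'
        · rw [coeff_eq_zero_of_natDegree_lt h1, Rat.cast_zero, zero_mul, abs_zero]
          exact (Real.exp_pos _).le
      · rw [Gp_coeff hgd hc, div_self (by positivity), mul_one]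
        have hne : g.coeff g.natDegree ≠ 0 := by
          rw [coeff_natDegree, leadingCoeff_ne_zero]
          rintro rfl
          simp at hg1
        have hnum : (1 : ℝ) ≤ |((g.coeff g.natDegree).num : ℝ)| := by
          have := Int.one_le_abs (Rat.num_ne_zero.2 hne)
          exact_mod_cast this
        have hden : (0 : ℝ) < (g.coeff g.natDegree).den := by
          exact_mod_cast (g.coeff g.natDegree).pos
        rw [Rat.cast_def, abs_div, Nat.abs_cast, le_div_iff₀ hden]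
        refine le_trans ?_ hnum
        calc Real.exp (-z) * (g.coeff g.natDegree).den ≤ Real.exp (-z) * Real.exp w := by
              have := (hgs g.natDegree).2
              gcongr
          _ = Real.exp (-z + w) := by rw [Real.exp_add]
          _ ≤ 1 := by
              rw [Real.exp_le_one_iff]
              linarith
    have h1 := hbd2 (c, g.natDegree, b) hpd hb n hn (hnb _ hmem) x hx hqx
    intro s m hsm u v hu huv hv
    have h2 := h1 s m (by
      rw [hX]
      refine le_trans ?_ hsm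
      have h3 : |lam ^ g.natDegree| ≤ lam ^ d := by
        rw [abs_of_nonneg (by positivity)]
        exact pow_le_pow_right₀ hlam hgd.le
      have h4 : (0 : ℝ) ≤ (b : ℝ) ^ (s + m) := by positivity
      exact mul_le_mul_of_nonneg_right h3 h4) u v hu huv hv
    have h3 : ∀ j : ℕ, lam ^ g.natDegree * (b : ℝ) ^ j * (Gp d lam c g.natDegree).eval x =
        (b : ℝ) ^ j * aeval (lam * x) g := by
      intro j
      rw [← Gp_eval hgd hlam0.ne' hc]
      ring
    simp only [h3] at h2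
    exact h2

end Pool.Agent.Q270.AF
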