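import Mathlib

/-!
# A weighted norm of real polynomials, and the set where a polynomial is small
-/

set_option autoImplicit false

namespace Pool.Agent.Q270.AF

open Polynomial Finset

/-- the polynomial with the absolute values of the coefficients -/
noncomputable def aP (p : ℝ[X]) : ℝ[X] := ∑ i ∈ p.support, monomial i |p.coeff i|

lemma aP_coeff (p : ℝ[X]) (n : ℕ) : (aP p).coeff n = |p.coeff n| := by
  unfold aP
  rw [finset_sum_coeff]
  simp only [coeff_monomial]
  rw [Finset.sum_ite_eq']
  split_ifs with h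
  · rfl
  · rw [notMem_support_iff.1 h, abs_zero]

/-- the weighted norm -/
noncomputable def W (w : ℝ) (p : ℝ[X]) : ℝ := (aP p).eval w

lemma eval_mono {p q : ℝ[X]} {w : ℝ} (hw : 0 ≤ w) (h : ∀ n, p.coeff n ≤ q.coeff n) :
    p.eval w ≤ q.eval w := by
  rw [eval_eq_sum_range' (n := max p.natDegree q.natDegree + 1) (by omega),
    eval_eq_sum_range' (n := max p.natDegree q.natDegree + 1) (p := q) (by omega)]
  exact sum_le_sum fun i _ => mul_le_mul_of_nonneg_right (h i) (by positivity)

lemma W_nonneg {w : ℝ} (hw : 0 ≤ w) (p : ℝ[X]) : 0 ≤ W w p := by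
  have := eval_mono (p := 0) (q := aP p) hw (fun n => by rw [aP_coeff, coeff_zero]; exact abs_nonneg _)
  simpa [W] using this

lemma W_add {w : ℝ} (hw : 0 ≤ w) (p q : ℝ[X]) : W w (p + q) ≤ W w p + W w q := by
  unfold W
  rw [← eval_add]
  refine eval_mono hw fun n => ?_
  rw [coeff_add, aP_coeff, aP_coeff, aP_coeff, coeff_add]
  exact abs_add_le _ _

lemma W_sub {w : ℝ} (hw : 0 ≤ w) (p q : ℝ[X]) : W w (p - q) ≤ W w p + W w q := by
  unfold W
  rw [← eval_add]
  refine eval_mono hw fun n => ?_
  rw [coeff_add, aP_coeff, aP_coeff, aP_coeff, coeff_sub]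
  exact abs_sub _ _

lemma W_mul {w : ℝ} (hw : 0 ≤ w) (p q : ℝ[X]) : W w (p * q) ≤ W w p * W w q := by
  unfold W
  rw [← eval_mul]
  refine eval_mono hw fun n => ?_
  rw [aP_coeff, coeff_mul, coeff_mul]
  refine (abs_sum_le_sum_abs _ _).trans (sum_le_sum fun i _ => ?_)
  rw [aP_coeff, aP_coeff, abs_mul]

lemma W_C_mul {w : ℝ} (hw : 0 ≤ w) (a : ℝ) (p : ℝ[X]) : W w (C a * p) ≤ |a| * W w p := by
  unfold W
  rw [show |a| * (aP p).eval w = (C |a| * aP p).eval w by rw [eval_mul, eval_C]]
  refine eval_mono hw fun n => ?_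
  rw [aP_coeff, coeff_C_mul, coeff_C_mul, aP_coeff, abs_mul]

lemma W_derivative {w : ℝ} (hw : 1 ≤ w) {p : ℝ[X]} {N : ℕ} (hN : p.natDegree ≤ N) :
    W w (derivative p) ≤ N * W w p := by
  have hw0 : 0 ≤ w := by linarith
  have h1 : W w (derivative p) * w ≤ N * W w p := by
    unfold W
    rw [show (aP (derivative p)).eval w * w = (aP (derivative p) * X).eval w by
      rw [eval_mul, eval_X],
      show (N : ℝ) * (aP p).eval w = (C (N : ℝ) * aP p).eval w by rw [eval_mul, eval_C]]
    refine eval_mono hw0 fun n => ?_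
    rw [coeff_C_mul, aP_coeff]
    rcases n with _ | n
    · rw [mul_coeff_zero, coeff_X_zero, mul_zero]
      positivity
    · rw [coeff_mul_X, aP_coeff, coeff_derivative, abs_mul, mul_comm]
      rcases le_or_gt (n + 1) N with h | h
      · refine mul_le_mul_of_nonneg_right ?_ (abs_nonneg _)
        rw [abs_of_nonneg (by positivity)]
        exact_mod_cast h
      · rw [coeff_eq_zero_of_natDegree_lt (by omega), abs_zero, mul_zero, mul_zero]
  have h2 := W_nonneg hw0 (derivative p)
  nlinarith

/-- the values are bounded by the norm -/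
lemma eval_le_W {w x : ℝ} (hx : |x| ≤ w) (p : ℝ[X]) : |p.eval x| ≤ W w p := by
  have hw : 0 ≤ w := (abs_nonneg x).trans hx
  have hdeg : (aP p).natDegree ≤ p.natDegree := by
    rw [natDegree_le_iff_coeff_eq_zero]
    intro N hN
    rw [aP_coeff, coeff_eq_zero_of_natDegree_lt hN, abs_zero]
  unfold W
  rw [eval_eq_sum_range' (n := p.natDegree + 1) (by omega),
    eval_eq_sum_range' (n := p.natDegree + 1) (p := aP p) (by omega)]
  refine (abs_sum_le_sum_abs _ _).trans (sum_le_sum fun i _ => ?_)
  rw [abs_mul, abs_pow, aP_coeff]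
  gcongr

/-- the norm of a polynomial with bounded coefficients -/
lemma W_le {w A : ℝ} (hw : 1 ≤ w) (hA : 0 ≤ A) {p : ℝ[X]} {d : ℕ} (hd : p.natDegree ≤ d)
    (h : ∀ i, |p.coeff i| ≤ A) : W w p ≤ (d + 1) * (A * w ^ d) := by
  have hdeg : (aP p).natDegree ≤ d := by
    rw [natDegree_le_iff_coeff_eq_zero]
    intro N hN
    rw [aP_coeff, coeff_eq_zero_of_natDegree_lt (by omega), abs_zero]
  unfold W
  rw [eval_eq_sum_range' (n := d + 1) (by omega)]
  calc ∑ i ∈ range (d + 1), (aP p).coeff i * w ^ i ≤ ∑ _i ∈ range (d + 1), A * w ^ d := by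
        refine sum_le_sum fun i hi => ?_
        rw [aP_coeff]
        have hi' : i ≤ d := by
          have := mem_range.1 hi
          omega
        exact mul_le_mul (h i) (pow_le_pow_right₀ hw hi') (by positivity) hA
    _ = _ := by
        rw [sum_const, card_range, nsmul_eq_mul]
        push_cast
        ring

/-- the values of a polynomial are Lipschitz -/
lemma eval_lip {w x y : ℝ} (hw : 1 ≤ w) (hx : |x| ≤ w) (hy : |y| ≤ w) {p : ℝ[X]} {N : ℕ}
    (hN : p.natDegree ≤ N) : |p.eval x - p.eval y| ≤ N * W w p * |x - y| := by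
  have h1 : ∀ t ∈ Set.Icc (-w) w, HasDerivWithinAt (fun t => p.eval t) ((derivative p).eval t)
      (Set.Icc (-w) w) t := fun t _ => (p.hasDerivAt t).hasDerivWithinAt
  have h2 : ∀ t ∈ Set.Icc (-w) w, ‖(derivative p).eval t‖ ≤ N * W w p := by
    intro t ht
    rw [Real.norm_eq_abs]
    exact (eval_le_W (abs_le.2 ht) _).trans (W_derivative hw hN)
  have h3 := (convex_Icc (-w) w).norm_image_sub_le_of_norm_hasDerivWithin_le h1 h2
    (abs_le.1 hy) (abs_le.1 hx)
  simpa [Real.norm_eq_abs] using h3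

/-- a real polynomial is small only near few points -/
theorem small_set {p : ℝ[X]} {n : ℕ} (hn : p.natDegree = n) {τ : ℝ} (hτ : 0 < τ) :
    ∃ T : Finset ℝ, T.card ≤ n ∧ ∀ x : ℝ, |p.eval x| < |p.coeff n| * τ ^ n →
      ∃ s ∈ T, |x - s| ≤ τ := by
  classical
  set P : ℂ[X] := p.map (algebraMap ℝ ℂ) with hP
  have hsplit : P.Splits := IsAlgClosed.splits P
  have hcard : P.roots.card = n := by
    rw [← hn, ← natDegree_map (algebraMap ℝ ℂ)]
    exact hsplit.natDegree_eq_card_roots.symm
  refine ⟨(P.roots.map Complex.re).toFinset, ?_, ?_⟩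
  · refine (Multiset.toFinset_card_le _).trans ?_
    rw [Multiset.card_map, hcard]
  · intro x hx
    by_contra hcon
    push Not at hcon
    have h1 : P.eval (x : ℂ) = (P.leadingCoeff : ℂ) * (P.roots.map (fun z => (x : ℂ) - z)).prod := by
      conv_lhs => rw [hsplit.eq_prod_roots]
      rw [eval_mul, eval_C, eval_multiset_prod, Multiset.map_map]
      simp
    have h2 : ‖P.eval (x : ℂ)‖ = |p.eval x| := by
      have : P.eval (x : ℂ) = ((p.eval x : ℝ) : ℂ) := by
        rw [hP, eval_map]
        exact eval₂_at_apply (algebraMap ℝ ℂ) x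
      rw [this, Complex.norm_real, Real.norm_eq_abs]
    have h3 : ‖P.leadingCoeff‖ = |p.coeff n| := by
      rw [hP, leadingCoeff_map, ← hn, leadingCoeff]
      simp
    have h4 : τ ^ n ≤ ‖(P.roots.map (fun z => (x : ℂ) - z)).prod‖ := by
      have h5 : ∀ s : Multiset ℂ, (∀ z ∈ s, τ ≤ ‖(x : ℂ) - z‖) →
          τ ^ s.card ≤ ‖(s.map (fun z => (x : ℂ) - z)).prod‖ := by
        intro s
        induction s using Multiset.induction_on with
        | empty => intro _; simp
        | cons a s ih =>
          intro hs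
          rw [Multiset.map_cons, Multiset.prod_cons, norm_mul, Multiset.card_cons, pow_succ,
            mul_comm]
          exact mul_le_mul (hs a (Multiset.mem_cons_self a s))
            (ih fun z hz => hs z (Multiset.mem_cons_of_mem hz)) (by positivity) (norm_nonneg _)
      rw [← hcard]
      refine h5 _ fun z hz => ?_
      have h6 := hcon z.re (by
        rw [Multiset.mem_toFinset]
        exact Multiset.mem_map_of_mem _ hz)
      calc τ ≤ |x - z.re| := h6.le
        _ = |((x : ℂ) - z).re| := by simp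
        _ ≤ _ := Complex.abs_re_le_norm _
    rw [← h2, h1, norm_mul, h3] at hx
    have h7 : |p.coeff n| * τ ^ n ≤ |p.coeff n| * ‖(P.roots.map (fun z => (x : ℂ) - z)).prod‖ :=
      mul_le_mul_of_nonneg_left h4 (abs_nonneg _)
    linarith

end Pool.Agent.Q270.AF
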